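import Pool.Agent.H1.CC.UpperD

/-!
The upper bound for large `n`.
-/

set_option autoImplicit false
set_option linter.unusedSectionVars false

namespace Pool.Agent.H1.CC

open Finset Filter

/-- the upper bound for large `log n` -/
theorem upper_fixed {ε η : ℝ} (hε : 0 < ε) (hη : 0 < η) (hηε : η ≤ ε) (hε1 : ε ≤ 1) :
    ∀ᶠ l : ℝ in atTop, ∀ (n K : ℕ) (p Fv : ℝ), Real.log n = l → 0 < p →
      ε * l ≤ -Real.log p → -Real.log p ≤ 1 / 3 * l → 0 ≤ Fv → Fv ≤ l →
      (∀ i : ℕ, 2 ≤ i →
        l + (1 + (i:ℝ) / 2) * Real.log p - (n:ℝ) * p ^ i / ((i:ℝ) - 1) ≤ Fv) →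
      (Fv + 2 * η * l) / p ≤ K →
      Pr p (allE (Fin n)) (fun T => ¬ CCol T K) ≤ Real.exp (-(η / 4 * l)) + Real.exp (-l) := by
  set I : ℕ := ⌈1 / ε⌉₊ + 1 with hI
  set c : ℝ := η / 16 with hc
  have hc0 : 0 < c := by positivity
  set h : ℕ := ⌈3 / c⌉₊ with hh
  set σ : ℝ := η / (8 * I) with hσ
  have hIpos : (0:ℝ) < I := by rw [hI]; positivity
  have hσ0 : 0 < σ := by positivity
  have hI2 : 2 ≤ I := by
    have : 0 < ⌈1 / ε⌉₊ := Nat.ceil_pos.2 (by positivity)
    omega
  have hI2' : (2:ℝ) ≤ I := by exact_mod_cast hI2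
  have hεI : 1 ≤ ε * I := by
    have h1 : 1 / ε ≤ I := by
      rw [hI]; push_cast
      have := Nat.le_ceil (1 / ε)
      linarith
    rw [div_le_iff₀ hε] at h1
    linarith
  have hhc : 3 ≤ h * c := by
    have := Nat.le_ceil (3 / c)
    rw [← hh, div_le_iff₀ hc0] at this
    exact this
  have hh0 : 0 < h := Nat.ceil_pos.2 (by positivity)
  have hη1 : η ≤ 1 := hηε.trans hε1
  have hσI : σ * I = η / 8 := by rw [hσ]; field_simp
  have hσ2 : σ ≤ 1 / 2 := by
    have : σ * 2 ≤ σ * I := mul_le_mul_of_nonneg_left hI2' hσ0.le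
    linarith
  clear_value I c h σ
  filter_upwards [eventually_big hε hη hc0 hσ0 h I] with l hb
  intro n K p Fv hnl hp0 hL1 hL2 hF0 hFl hterm hK
  obtain ⟨b1, b2, b3, b4, b5, b6, b7, b8⟩ := hb
  set L : ℝ := -Real.log p with hL
  have hlogp : Real.log p = -L := by rw [hL]; ring
  have hpL : p = Real.exp (-L) := by rw [hL, neg_neg, Real.exp_log hp0]
  clear_value L
  have hl0 : 0 < l := by linarith
  have hn0 : 0 < n := by
    rcases Nat.eq_zero_or_pos n with h0 | h0
    · rw [h0, Nat.cast_zero, Real.log_zero] at hnl; linarith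
    · exact h0
  have hnl' : (n:ℝ) = Real.exp l := by
    rw [← hnl, Real.exp_log (by exact_mod_cast hn0)]
  have hεl : 0 < ε * l := by positivity
  have hL0 : 0 < L := by linarith
  have hηl : 0 < η * l := by positivity
  have hp1 : p ≤ 1 := by rw [hpL]; exact Real.exp_le_one_iff.2 (by linarith)
  have hpε : p ≤ Real.exp (-(ε * l)) := by rw [hpL]; exact Real.exp_le_exp.2 (by linarith)
  have hhp : (h:ℝ) * p ≤ σ / 2 :=
    (mul_le_mul_of_nonneg_left hpε (Nat.cast_nonneg h)).trans b4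
  have hpinv : Real.exp L * p = 1 := by rw [hpL, ← Real.exp_add]; simp
  have hηc : 4 * c = η / 4 := by rw [hc]; ring
  -- parameters
  set k : ℕ := ⌈(Fv + η * l) * Real.exp L⌉₊ with hk
  have hk1 : (Fv + η * l) * Real.exp L ≤ k := Nat.le_ceil _
  have hk2 : (k:ℝ) ≤ (Fv + η * l) * Real.exp L + 1 :=
    (Nat.ceil_lt_add_one (by positivity)).le
  clear_value k
  set t : ℕ := ⌈Real.exp (L - η / 4 * l)⌉₊ with ht
  have ht1 : Real.exp (L - η / 4 * l) ≤ t := Nat.le_ceil _
  have ht2 : (t:ℝ) ≤ Real.exp (L - η / 4 * l) + 1 :=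
    (Nat.ceil_lt_add_one (Real.exp_pos _).le).le
  have ht0 : 0 < t := Nat.ceil_pos.2 (Real.exp_pos _)
  clear_value t
  have htr : (1:ℝ) ≤ t := by exact_mod_cast ht0
  set m : ℝ := Real.exp (l - Fv - 3 / 4 * η * l) with hm
  -- size of `k + m`
  have hkm : (k:ℝ) + m ≤ σ / 2 * n := by
    have e1 : (k:ℝ) ≤ 2 * l * Real.exp (1 / 3 * l) + 1 := by
      refine hk2.trans ?_
      have e2 : Fv + η * l ≤ 2 * l := by nlinarith only [hFl, hη1, hl0]
      have e3 : Real.exp L ≤ Real.exp (1 / 3 * l) := Real.exp_le_exp.2 hL2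
      have : (Fv + η * l) * Real.exp L ≤ 2 * l * Real.exp (1 / 3 * l) :=
        mul_le_mul e2 e3 (Real.exp_pos _).le (by linarith)
      linarith
    have e4 : m ≤ Real.exp (l - 3 / 4 * η * l) := Real.exp_le_exp.2 (by linarith)
    have e5 : (2 * l * Real.exp (-(2 / 3 * l)) + Real.exp (-l) + Real.exp (-(3 / 4 * η * l))) *
        Real.exp l = 2 * l * Real.exp (1 / 3 * l) + 1 + Real.exp (l - 3 / 4 * η * l) := by
      rw [add_mul, add_mul, mul_assoc (2 * l), ← Real.exp_add, ← Real.exp_add, ← Real.exp_add]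
      have a1 : -(2 / 3 * l) + l = 1 / 3 * l := by ring
      have a2 : -l + l = 0 := by ring
      have a3 : -(3 / 4 * η * l) + l = l - 3 / 4 * η * l := by ring
      rw [a1, a2, a3, Real.exp_zero]
    have e6 := mul_le_mul_of_nonneg_right b5 (Real.exp_pos l).le
    rw [e5] at e6
    rw [hnl']
    linarith
  have hm0 : 0 < m := Real.exp_pos _
  have hkn : k ≤ n := by
    have : (k:ℝ) ≤ n := by nlinarith only [hkm, hm0, hσ2, hσ0, hnl', Real.exp_pos l]
    exact_mod_cast this
  obtain ⟨W, _, hW⟩ := Finset.exists_subset_card_eq (s := (Finset.univ : Finset (Fin n)))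
    (n := k) (by rw [Finset.card_univ, Fintype.card_fin]; exact hkn)
  have hcard : Fintype.card (Fin n) = n := Fintype.card_fin n
  set x : ℝ := Real.exp (c * l) with hx
  have hx0 : 0 < x := Real.exp_pos _
  have hxh : x ^ h = Real.exp (h * c * l) := by
    rw [hx, ← Real.exp_nat_mul]; congr 1; ring
  have hhcl : 3 * l ≤ h * c * l := mul_le_mul_of_nonneg_right hhc hl0.le
  set δ : ℝ := Real.exp (-(2 * c * l)) with hδ
  set Ψ : ℕ → ℝ := fun i => (t:ℝ) ^ (i - 1) * Real.exp (-(4 * c * l)) with hΨ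
  -- the exponent bound implies the bound by `Ψ`
  have hρΨ : ∀ i : ℕ, 2 ≤ i →
      Real.exp (((i:ℝ) - 1) * (L - η / 4 * l) - 4 * c * l) ≤ Ψ i := by
    intro i hi
    have e1 : ((i:ℝ) - 1) * (L - η / 4 * l) - 4 * c * l =
        ((i - 1 : ℕ) : ℝ) * (L - η / 4 * l) + (-(4 * c * l)) := by
      rw [Nat.cast_sub (by omega)]; push_cast; ring
    rw [e1, Real.exp_add, Real.exp_nat_mul]
    exact mul_le_mul_of_nonneg_right (pow_le_pow_left₀ (Real.exp_pos _).le ht1 _)
      (Real.exp_pos _).le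
  have hLη : 0 ≤ L - η / 4 * l - 4 * c * l := by
    rw [hηc]
    nlinarith only [hL1, hηε, hl0, hηl]
  have hρ0 : ∀ i : ℕ, 2 ≤ i → 0 ≤ ((i:ℝ) - 1) * (L - η / 4 * l) - 4 * c * l := by
    intro i hi
    have hi' : (2:ℝ) ≤ i := by exact_mod_cast hi
    have e1 : 0 ≤ 4 * c * l := by positivity
    nlinarith only [hi', hLη, e1]
  have hterm' : ∀ i : ℕ, 2 ≤ i →
      l - (1 + (i:ℝ) / 2) * L - (n:ℝ) * p ^ i / ((i:ℝ) - 1) ≤ Fv := by
    intro i hi
    have := hterm i hi
    rw [hlogp] at this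
    linarith
  have hres := prob_not_CCol (V := Fin n) hp0 hp1 (k := k) (t := t) (h := h) (I := I) (m := m)
    (x := x) (δ := δ) W hW hI2 ht0 hx0 hh0 ?_ (Real.exp_pos _).le ?_ hm0 (Ψ := Ψ) ?_ ?_ ?_ ?_
  · -- conclusion
    have hKk : k + 1 + h * t ≤ K := by
      have e1 : ((k + 1 + h * t : ℕ) : ℝ) ≤ K := by
        refine le_trans ?_ hK
        have e2 : (Fv + 2 * η * l) / p = (Fv + 2 * η * l) * Real.exp L := by
          rw [div_eq_iff hp0.ne']
          calc Fv + 2 * η * l = (Fv + 2 * η * l) * 1 := (mul_one _).symm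
            _ = (Fv + 2 * η * l) * (Real.exp L * p) := by rw [hpinv]
            _ = _ := by ring
        rw [e2]
        push_cast
        have e3 := mul_le_mul_of_nonneg_right b7 (Real.exp_pos L).le
        have e4 : ((2 + (h:ℝ)) * Real.exp (-(ε * l)) + h * Real.exp (-(η / 4 * l))) *
            Real.exp L = (2 + (h:ℝ)) * Real.exp (L - ε * l) + h * Real.exp (L - η / 4 * l) := by
          rw [add_mul, mul_assoc, mul_assoc, ← Real.exp_add, ← Real.exp_add]
          congr 3
          · ring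
          · ring
        rw [e4] at e3
        have e5 : 1 ≤ Real.exp (L - ε * l) := Real.one_le_exp (by linarith)
        have e6 : (2 + (h:ℝ)) * 1 ≤ (2 + (h:ℝ)) * Real.exp (L - ε * l) :=
          mul_le_mul_of_nonneg_left e5 (by positivity)
        have e7 : (h:ℝ) * t ≤ h * (Real.exp (L - η / 4 * l) + 1) :=
          mul_le_mul_of_nonneg_left ht2 (by positivity)
        nlinarith only [e3, e6, e7, hk2]
      exact_mod_cast e1
    have h1 : Pr p (allE (Fin n)) (fun T => ¬ CCol T K) ≤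
        Pr p (allE (Fin n)) (fun T => ¬ CCol T (k + 1 + h * t)) :=
      Pr_mono hp0.le hp1 fun T _ hT hT' => hT (CCol_mono hKk hT')
    refine h1.trans (hres.trans (add_le_add ?_ ?_))
    · rw [hcard, div_le_iff₀ hm0]
      have e1 : (1 - p) ^ k ≤ Real.exp (-(Fv + η * l)) := by
        calc (1 - p) ^ k ≤ (Real.exp (-p)) ^ k := by
              apply pow_le_pow_left₀ (by linarith)
              have := Real.add_one_le_exp (-p)
              linarith
          _ = Real.exp (-(k * p)) := by rw [← Real.exp_nat_mul]; congr 1; ring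
          _ ≤ _ := by
              apply Real.exp_le_exp.2
              have e2 : (Fv + η * l) * Real.exp L * p ≤ k * p :=
                mul_le_mul_of_nonneg_right hk1 hp0.le
              rw [mul_assoc, hpinv, mul_one] at e2
              linarith
      calc (n:ℝ) * (1 - p) ^ k ≤ Real.exp l * Real.exp (-(Fv + η * l)) := by
            rw [hnl']
            exact mul_le_mul_of_nonneg_left e1 (Real.exp_pos _).le
        _ = Real.exp (-(η / 4 * l)) * m := by
            rw [hm, ← Real.exp_add, ← Real.exp_add]; congr 1; ring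
    · rw [hcard, hxh, ← Real.exp_neg]
      calc (n:ℝ) * I * Real.exp (-(h * c * l)) ≤
          Real.exp l * Real.exp l * Real.exp (-(3 * l)) := by
            rw [hnl']
            gcongr
        _ = Real.exp (-l) := by
            rw [← Real.exp_add, ← Real.exp_add]; congr 1; ring
  · -- n < x ^ h
    rw [hcard, hxh, hnl']
    exact Real.exp_lt_exp.2 (by linarith)
  · -- I δ x ≤ 1
    have e1 : (I:ℝ) ≤ Real.exp (c * l) := by
      refine le_trans ?_ b2
      have e2 : (1:ℝ) ≤ 2 ^ (h * I + 1) := one_le_pow₀ (by norm_num)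
      nlinarith only [e2, hIpos]
    have e3 : δ * x = Real.exp (-(c * l)) := by
      rw [hδ, hx, ← Real.exp_add]; congr 1; ring
    rw [mul_assoc, e3]
    calc (I:ℝ) * Real.exp (-(c * l)) ≤ Real.exp (c * l) * Real.exp (-(c * l)) :=
          mul_le_mul_of_nonneg_right e1 (Real.exp_pos _).le
      _ = 1 := by rw [← Real.exp_add]; simp
  · intro i
    rw [hΨ]; positivity
  · -- unextended cliques
    intro i hi hiI r hr a ha hai
    rw [hcard] at hr
    have hr1 : (n:ℝ) * (1 - σ / 2) ≤ r := by linarith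
    have hhp1 : 1 - σ / 2 ≤ 1 - h * p := by linarith
    have e1 : (n:ℝ) * p ^ i * (1 - σ) ≤ p ^ i * r * (1 - h * p) := by
      have e2 : (n:ℝ) * (1 - σ) ≤ r * (1 - h * p) := by
        have e3 : (n:ℝ) * (1 - σ / 2) * (1 - σ / 2) ≤ r * (1 - h * p) := by
          apply mul_le_mul hr1 hhp1 (by linarith) (Nat.cast_nonneg r)
        have e4 : (n:ℝ) * (1 - σ) ≤ (n:ℝ) * (1 - σ / 2) * (1 - σ / 2) := by
          have : 0 ≤ (n:ℝ) * (σ ^ 2 / 4) := by positivity
          nlinarith only [this]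
        linarith
      have e5 := mul_le_mul_of_nonneg_left e2 (pow_nonneg hp0.le i)
      nlinarith only [e5]
    have he : 0 ≤ p ^ i * r * (1 - h * p) := by
      have : 0 ≤ 1 - (h:ℝ) * p := by linarith
      positivity
    have hco := core_expo ha hai hL0.le he (hρ0 i hi)
      (expo_cond (κ := (n:ℝ) * p ^ i) hi hiI.le b1 hL0.le hF0 hη hη1 hc hσ (by positivity) e1
        (hterm' i hi))
    rw [← hm, ← hpL] at hco
    exact hco.trans (hρΨ i hi)
  · -- all cliques of size I
    intro a ha haI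
    have hκ1 : (n:ℝ) * p ^ I ≤ 1 := by
      rw [hnl', hpL, ← Real.exp_nat_mul, ← Real.exp_add]
      apply Real.exp_le_one_iff.2
      have e1 : ε * l * I ≤ L * I := mul_le_mul_of_nonneg_right hL1 hIpos.le
      have e2 : 1 * l ≤ ε * I * l := mul_le_mul_of_nonneg_right hεI hl0.le
      nlinarith only [e1, e2]
    have hi1 : 0 < (I:ℝ) - 1 := by linarith
    have e1 : ((I:ℝ) - 1) * (l - (1 + (I:ℝ) / 2) * L - Fv) ≤ 1 := by
      have e2 : l - (1 + (I:ℝ) / 2) * L - Fv ≤ (n:ℝ) * p ^ I / ((I:ℝ) - 1) := by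
        have := hterm' I hI2
        linarith
      rw [le_div_iff₀ hi1] at e2
      linarith
    have e3 : 4 ≤ η * l := by
      rw [div_le_iff₀ hη] at b6
      linarith
    have e4 : η * l ≤ ((I:ℝ) - 1) * (η * l) := by nlinarith only [hI2', hηl]
    have hco := core_expo (μ := l - Fv - 3 / 4 * η * l) (e := 0) ha haI hL0.le (le_refl 0)
      (hρ0 I hI2) (by
        rw [hηc]
        nlinarith only [e1, e3, e4])
    rw [neg_zero, Real.exp_zero, mul_one, ← hm, ← hpL] at hco
    exact hco.trans (hρΨ I hI2)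
  · -- degrees
    intro i hi hiI
    have hiI' : (i:ℝ) ≤ I := by exact_mod_cast hiI
    have ht3 : (t:ℝ) ≤ (t:ℝ) ^ (i - 1) := le_self_pow₀ htr (by omega)
    have e1 : 2 * (x * h) ≤ (t:ℝ) ^ (i - 1) * δ := by
      have e2 : 2 * (h:ℝ) * Real.exp (3 * c * l) ≤ t := by
        calc 2 * (h:ℝ) * Real.exp (3 * c * l) ≤
            Real.exp (ε / 2 * l) * Real.exp (3 * c * l) :=
              mul_le_mul_of_nonneg_right b3 (Real.exp_pos _).le
          _ = Real.exp (ε / 2 * l + 3 * c * l) := by rw [← Real.exp_add]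
          _ ≤ Real.exp (L - η / 4 * l) := by
              apply Real.exp_le_exp.2
              have e6 : 3 * c * l = 3 / 16 * (η * l) := by rw [hc]; ring
              have e7 : η * l ≤ ε * l := mul_le_mul_of_nonneg_right hηε hl0.le
              rw [e6]
              linarith
          _ ≤ t := ht1
      have e3 : 2 * (h:ℝ) * Real.exp (3 * c * l) * δ ≤ (t:ℝ) ^ (i - 1) * δ :=
        mul_le_mul_of_nonneg_right (e2.trans ht3) (Real.exp_pos _).le
      refine le_trans (le_of_eq ?_) e3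
      have e5 : x = Real.exp (3 * c * l) * δ := by
        rw [hx, hδ, ← Real.exp_add]; congr 1; ring
      rw [e5]; ring
    have e2 : 2 * (x * (i * 2 ^ (h * i + 1) * Ψ i)) ≤ (t:ℝ) ^ (i - 1) * δ := by
      have e3 : 2 * ((i:ℝ) * 2 ^ (h * i + 1)) ≤ x := by
        refine le_trans ?_ b2
        have e4 : (2:ℝ) ^ (h * i + 1) ≤ 2 ^ (h * I + 1) :=
          pow_le_pow_right₀ (by norm_num) (by
            have := Nat.mul_le_mul_left h hiI
            omega)
        gcongr
      have e5 : x * x * Real.exp (-(4 * c * l)) = δ := by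
        rw [hx, hδ, ← Real.exp_add, ← Real.exp_add]; congr 1; ring
      calc 2 * (x * (i * 2 ^ (h * i + 1) * Ψ i)) =
          (2 * ((i:ℝ) * 2 ^ (h * i + 1))) * (x * ((t:ℝ) ^ (i - 1) * Real.exp (-(4 * c * l)))) := by
            rw [hΨ]; ring
        _ ≤ x * (x * ((t:ℝ) ^ (i - 1) * Real.exp (-(4 * c * l)))) := by
            apply mul_le_mul_of_nonneg_right e3
            positivity
        _ = (t:ℝ) ^ (i - 1) * (x * x * Real.exp (-(4 * c * l))) := by ring
        _ = _ := by rw [e5]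
    nlinarith only [e1, e2]

end Pool.Agent.H1.CC
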