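import Pool.Agent.H1.CC.LowerB
import Pool.Agent.H1.CC.UpperE

/-!
The function `F` and the final estimates.
-/

set_option autoImplicit false
set_option linter.unusedSectionVars false

namespace Pool.Agent.H1.CC

open Finset Filter

/-- `log n + (1 + i/2) log p - n p^i/(i-1)` -/
noncomputable def term (n : ℕ) (p : ℝ) (i : ℕ) : ℝ :=
  Real.log n + (1 + (i : ℝ) / 2) * Real.log p - (n : ℝ) * p ^ i / ((i : ℝ) - 1)

/-- supremum of the terms over `i ≥ 2` -/
noncomputable def FF (n : ℕ) (p : ℝ) : ℝ := ⨆ i : ℕ, term n p (i + 2)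

lemma term_step_down {n : ℕ} {p : ℝ} (hp0 : 0 < p) {i : ℕ} (hi : 2 ≤ i)
    (h : ((i:ℝ) - 1) / 2 * (-Real.log p) ≤ (n:ℝ) * p ^ i) (hp1 : p ≤ 1) :
    term n p i ≤ term n p (i + 1) + p * (-Real.log p) / 2 := by
  unfold term
  set L := -Real.log p with hL
  have hlog : Real.log p = -L := by rw [hL]; ring
  rw [hlog]
  have hi' : (2:ℝ) ≤ i := by exact_mod_cast hi
  have hi1 : 0 < (i:ℝ) - 1 := by linarith
  have hL0 : 0 ≤ L := by rw [hL]; linarith [Real.log_nonpos hp0.le hp1]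
  set κ := (n:ℝ) * p ^ i with hκ
  have hκ0 : 0 ≤ κ := by positivity
  have h1 : (n:ℝ) * p ^ (i + 1) = p * κ := by rw [hκ, pow_succ]; ring
  rw [h1]
  push_cast
  have h2 : (i:ℝ) + 1 - 1 = i := by ring
  rw [h2]
  have h3 : L / 2 ≤ κ / ((i:ℝ) - 1) := by
    rw [le_div_iff₀ hi1]; linarith
  have h4 : p * κ / i ≤ p * (κ / ((i:ℝ) - 1)) := by
    rw [mul_div_assoc]
    apply mul_le_mul_of_nonneg_left _ hp0.le
    exact div_le_div_of_nonneg_left hκ0 hi1 (by linarith)
  have h5 : (1 - p) * (L / 2) ≤ (1 - p) * (κ / ((i:ℝ) - 1)) :=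
    mul_le_mul_of_nonneg_left h3 (by linarith)
  nlinarith

lemma term_step_up {n : ℕ} {p : ℝ} (hp0 : 0 < p) {i : ℕ} (hi : 2 ≤ i)
    (h : (n:ℝ) * p ^ i ≤ ((i:ℝ) - 1) / 2 * (-Real.log p)) :
    term n p (i + 1) ≤ term n p i := by
  unfold term
  set L := -Real.log p with hL
  have hlog : Real.log p = -L := by rw [hL]; ring
  rw [hlog]
  have hi' : (2:ℝ) ≤ i := by exact_mod_cast hi
  have hi1 : 0 < (i:ℝ) - 1 := by linarith
  push_cast
  have h2 : (i:ℝ) + 1 - 1 = i := by ring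
  rw [h2]
  have h3 : (n:ℝ) * p ^ i / ((i:ℝ) - 1) ≤ L / 2 := by
    rw [div_le_iff₀ hi1]; linarith
  have h4 : 0 ≤ (n:ℝ) * p ^ (i + 1) / i := by positivity
  nlinarith

lemma term_le {n : ℕ} {p : ℝ} (hp0 : 0 < p) (hp1 : p ≤ 1) {i : ℕ} (hi : 2 ≤ i) :
    term n p i ≤ Real.log n := by
  unfold term
  have h1 := Real.log_nonpos hp0.le hp1
  have hi' : (2:ℝ) ≤ i := by exact_mod_cast hi
  have hi1 : 0 < (i:ℝ) - 1 := by linarith
  have h2 : 0 ≤ (n:ℝ) * p ^ i / ((i:ℝ) - 1) := by positivity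
  have h3 : (1 + (i:ℝ) / 2) * Real.log p ≤ 0 :=
    mul_nonpos_of_nonneg_of_nonpos (by positivity) h1
  linarith

lemma term_max {n : ℕ} {p : ℝ} (hp0 : 0 < p) (hp1 : p ≤ 1) {j : ℕ} (hj : 2 ≤ j)
    (h1 : (n:ℝ) * p ^ j ≤ ((j:ℝ) - 1) / 2 * (-Real.log p))
    (h2 : ∀ i, 2 ≤ i → i < j → ((i:ℝ) - 1) / 2 * (-Real.log p) ≤ (n:ℝ) * p ^ i)
    {i : ℕ} (hi : 2 ≤ i) : term n p i ≤ term n p j + j * (p * (-Real.log p)) / 2 := by
  have hL0 : 0 ≤ -Real.log p := by linarith [Real.log_nonpos hp0.le hp1]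
  have hpL : 0 ≤ p * (-Real.log p) := mul_nonneg hp0.le hL0
  rcases le_total i j with hij | hij
  · -- going up from i to j
    have key : ∀ d, i + d ≤ j → term n p i ≤ term n p (i + d) + d * (p * (-Real.log p)) / 2 := by
      intro d
      induction d with
      | zero => intro _; simp
      | succ d ih =>
        intro hd
        have e1 := ih (by omega)
        have e2 := term_step_down (n := n) hp0 (i := i + d) (by omega)
          (h2 (i + d) (by omega) (by omega)) hp1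
        have e3 : i + (d + 1) = i + d + 1 := by ring
        rw [e3]
        push_cast
        nlinarith
    have e4 := key (j - i) (by omega)
    have e5 : i + (j - i) = j := by omega
    rw [e5] at e4
    have e6 : ((j - i : ℕ) : ℝ) ≤ j := by exact_mod_cast Nat.sub_le j i
    have e7 := mul_le_mul_of_nonneg_right e6 hpL
    linarith
  · have key : ∀ d, term n p (j + d) ≤ term n p j ∧
        (n:ℝ) * p ^ (j + d) ≤ (((j + d : ℕ) : ℝ) - 1) / 2 * (-Real.log p) := by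
      intro d
      induction d with
      | zero => exact ⟨le_refl _, by simpa using h1⟩
      | succ d ih =>
        obtain ⟨e1, e2⟩ := ih
        refine ⟨(term_step_up hp0 (by omega) e2).trans e1, ?_⟩
        have e3 : (n:ℝ) * p ^ (j + (d + 1)) ≤ (n:ℝ) * p ^ (j + d) := by
          apply mul_le_mul_of_nonneg_left _ (Nat.cast_nonneg n)
          exact pow_le_pow_of_le_one hp0.le hp1 (by omega)
        refine (e3.trans e2).trans ?_
        apply mul_le_mul_of_nonneg_right _ hL0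
        push_cast
        linarith
    have e4 := (key (i - j)).1
    have e5 : j + (i - j) = i := by omega
    rw [e5] at e4
    have : 0 ≤ (j:ℝ) * (p * (-Real.log p)) / 2 := by positivity
    linarith

lemma bdd_term {n : ℕ} {p : ℝ} (hp0 : 0 < p) (hp1 : p ≤ 1) :
    BddAbove (Set.range fun i : ℕ => term n p (i + 2)) := by
  refine ⟨Real.log n, ?_⟩
  rintro _ ⟨i, rfl⟩
  exact term_le hp0 hp1 (by omega)

lemma term_le_FF {n : ℕ} {p : ℝ} (hp0 : 0 < p) (hp1 : p ≤ 1) {i : ℕ} (hi : 2 ≤ i) :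
    term n p i ≤ FF n p := by
  have := le_ciSup (bdd_term (n := n) hp0 hp1) (i - 2)
  have e : i - 2 + 2 = i := by omega
  rw [e] at this
  exact this

lemma FF_le_log {n : ℕ} {p : ℝ} (hp0 : 0 < p) (hp1 : p ≤ 1) : FF n p ≤ Real.log n :=
  ciSup_le fun i => term_le hp0 hp1 (by omega)

lemma FF_le_term {n : ℕ} {p : ℝ} (hp0 : 0 < p) (hp1 : p ≤ 1) {j : ℕ} (hj : 2 ≤ j)
    (h1 : (n:ℝ) * p ^ j ≤ ((j:ℝ) - 1) / 2 * (-Real.log p))
    (h2 : ∀ i, 2 ≤ i → i < j → ((i:ℝ) - 1) / 2 * (-Real.log p) ≤ (n:ℝ) * p ^ i) :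
    FF n p ≤ term n p j + j * (p * (-Real.log p)) / 2 :=
  ciSup_le fun i => term_max hp0 hp1 hj h1 h2 (by omega)

/-- the optimal index -/
lemma exists_index {ε : ℝ} (hε : 0 < ε) : ∀ᶠ l : ℝ in atTop, ∀ (n : ℕ) (p : ℝ),
    Real.log n = l → 0 < p → ε * l ≤ -Real.log p → -Real.log p ≤ (1 / 3 - ε) * l →
    ∃ j : ℕ, 4 ≤ j ∧ j ≤ ⌈1 / ε⌉₊ + 4 ∧ (n:ℝ) * p ^ j ≤ ((j:ℝ) - 1) / 2 * (-Real.log p) ∧
      (∀ i, 2 ≤ i → i < j → ((i:ℝ) - 1) / 2 * (-Real.log p) ≤ (n:ℝ) * p ^ i) ∧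
      min (1 / 8) (3 * ε) * l - 1 ≤ term n p j := by
  have e1 : ∀ᶠ l : ℝ in atTop, 1 ≤ l := eventually_ge_atTop 1
  have e2 : ∀ᶠ l : ℝ in atTop, 2 / ε ≤ l := eventually_ge_atTop _
  have e3 : ∀ᶠ l : ℝ in atTop, l * Real.exp (-(3 * ε * l)) ≤ 1 := by
    have h1 := (Real.tendsto_pow_mul_exp_neg_atTop_nhds_zero 1).comp
      (tendsto_id.const_mul_atTop (by positivity : (0:ℝ) < 3 * ε))
    have h2 := h1.const_mul (1 / (3 * ε))
    rw [mul_zero] at h2
    have h3 : Tendsto (fun l : ℝ => l * Real.exp (-(3 * ε * l))) atTop (nhds 0) := by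
      refine h2.congr ?_
      intro l
      simp only [Function.comp, id, pow_one]
      field_simp
    exact h3.eventually_le_const (by norm_num)
  filter_upwards [e1, e2, e3] with l b1 b2 b3
  intro n p hnl hp0 hL1 hL2
  set L : ℝ := -Real.log p with hL
  have hlogp : Real.log p = -L := by rw [hL]; ring
  have hpL : p = Real.exp (-L) := by rw [hL, neg_neg, Real.exp_log hp0]
  clear_value L
  have hl0 : 0 < l := by linarith
  have hn0 : 0 < n := by
    rcases Nat.eq_zero_or_pos n with h0 | h0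
    · rw [h0, Nat.cast_zero, Real.log_zero] at hnl; linarith
    · exact h0
  have hnl' : (n:ℝ) = Real.exp l := by
    rw [← hnl, Real.exp_log (by exact_mod_cast hn0)]
  have hεl : 2 ≤ ε * l := by
    rw [div_le_iff₀ hε] at b2; linarith
  have hL0 : 2 ≤ L := by linarith
  have hLl : L ≤ l / 3 := by nlinarith
  have hκ : ∀ i : ℕ, (n:ℝ) * p ^ i = Real.exp (l - i * L) := by
    intro i
    rw [hnl', hpL, ← Real.exp_nat_mul, ← Real.exp_add]; congr 1; ring
  set P : ℕ → Prop := fun j => 2 ≤ j ∧ (n:ℝ) * p ^ j ≤ ((j:ℝ) - 1) / 2 * L with hP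
  set J : ℕ := ⌈1 / ε⌉₊ + 4 with hJ
  have hPJ : P J := by
    refine ⟨by omega, ?_⟩
    have hJ4 : (4:ℝ) ≤ J := by rw [hJ]; push_cast; linarith [Nat.cast_nonneg (α := ℝ) ⌈1 / ε⌉₊]
    have h1 : (n:ℝ) * p ^ J ≤ 1 := by
      rw [hκ]
      apply Real.exp_le_one_iff.2
      have h2 : 1 / ε ≤ J := by
        rw [hJ]; push_cast
        have := Nat.le_ceil (1 / ε)
        linarith
      rw [div_le_iff₀ hε] at h2
      have h3 : l ≤ J * (ε * l) := by nlinarith
      have h4 : (J:ℝ) * (ε * l) ≤ J * L := mul_le_mul_of_nonneg_left hL1 (by linarith)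
      linarith
    nlinarith
  have hex : ∃ j, P j := ⟨J, hPJ⟩
  classical
  set j := Nat.find hex with hj
  have hjP : P j := Nat.find_spec hex
  have hjJ : j ≤ J := Nat.find_min' hex hPJ
  have hjmin : ∀ i, 2 ≤ i → i < j → ((i:ℝ) - 1) / 2 * L ≤ (n:ℝ) * p ^ i := by
    intro i hi hij
    have := Nat.find_min hex hij
    rw [hP] at this
    beta_reduce at this
    push Not at this
    exact (this hi).le
  obtain ⟨hj2, hjκ⟩ := hjP
  clear_value j
  have hκ3 : ∀ i : ℕ, i ≤ 3 → l ≤ (n:ℝ) * p ^ i := by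
    intro i hi
    rw [hκ]
    have hi' : (i:ℝ) ≤ 3 := by exact_mod_cast hi
    have h1 : 3 * ε * l ≤ l - i * L := by
      have : (i:ℝ) * L ≤ 3 * L := mul_le_mul_of_nonneg_right hi' (by linarith)
      nlinarith
    have h2 : l ≤ Real.exp (3 * ε * l) := by
      have h3 := mul_le_mul_of_nonneg_right b3 (Real.exp_pos (3 * ε * l)).le
      rw [mul_assoc, ← Real.exp_add] at h3
      have h4 : -(3 * ε * l) + 3 * ε * l = 0 := by ring
      rw [h4, Real.exp_zero, mul_one, one_mul] at h3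
      exact h3
    exact h2.trans (Real.exp_le_exp.2 h1)
  have hj4 : 4 ≤ j := by
    by_contra hcon
    have h3 : j ≤ 3 := by omega
    have h1 := hκ3 j h3
    have hj' : (j:ℝ) ≤ 3 := by exact_mod_cast h3
    have h2 : ((j:ℝ) - 1) / 2 * L ≤ L := by
      have : ((j:ℝ) - 1) / 2 ≤ 1 := by linarith
      calc ((j:ℝ) - 1) / 2 * L ≤ 1 * L := mul_le_mul_of_nonneg_right this (by linarith)
        _ = L := one_mul L
    linarith
  refine ⟨j, hj4, hjJ, hjκ, hjmin, ?_⟩
  have hj4' : (4:ℝ) ≤ j := by exact_mod_cast hj4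
  have hj1 : 0 < (j:ℝ) - 1 := by linarith
  have hm1 : min (1 / 8) (3 * ε) * l ≤ 1 / 8 * l :=
    mul_le_mul_of_nonneg_right (min_le_left _ _) hl0.le
  have hm2 : min (1 / 8) (3 * ε) * l ≤ 3 * ε * l :=
    mul_le_mul_of_nonneg_right (min_le_right _ _) hl0.le
  unfold term
  rw [hnl, hlogp]
  set κ := (n:ℝ) * p ^ j with hκj
  by_cases hκ1 : 1 ≤ κ
  · have h1 : (j:ℝ) * L ≤ l := by
      rw [hκj, hκ] at hκ1
      have : 0 ≤ l - j * L := by
        by_contra hcon
        push Not at hcon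
        have := Real.exp_lt_exp.2 hcon
        rw [Real.exp_zero] at this
        linarith
      linarith
    have h2 : κ / ((j:ℝ) - 1) ≤ L / 2 := by
      rw [div_le_iff₀ hj1]; linarith
    nlinarith
  · push Not at hκ1
    have h2 : κ / ((j:ℝ) - 1) ≤ 1 := by
      rw [div_le_one hj1]; linarith
    by_cases hj5 : 5 ≤ j
    · have hj5' : (5:ℝ) ≤ j := by exact_mod_cast hj5
      have h3 := hjmin (j - 1) (by omega) (by omega)
      have h4 : ((j - 1 : ℕ) : ℝ) = (j:ℝ) - 1 := by rw [Nat.cast_sub (by omega)]; simp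
      rw [h4, hκ, h4] at h3
      have h5 : 1 ≤ Real.exp (l - ((j:ℝ) - 1) * L) := by
        refine le_trans ?_ h3
        nlinarith
      have h6 : ((j:ℝ) - 1) * L ≤ l := by
        by_contra hcon
        push Not at hcon
        have := Real.exp_lt_exp.2 (show l - ((j:ℝ) - 1) * L < 0 by linarith)
        rw [Real.exp_zero] at this
        linarith
      nlinarith
    · have hj4'' : (j:ℝ) = 4 := by
        have : j = 4 := by omega
        exact_mod_cast this
      rw [hj4''] at h2 ⊢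
      nlinarith

end Pool.Agent.H1.CC
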