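import Mathlib

/-!
Random subsets of a finite set: expectation functional `Ex p S f` (every element of `S` is
present with probability `p`, independently), probability `Pr p S P`, independence, union bound,
Harris' inequality.
-/

set_option autoImplicit false

namespace Pool.Agent.H1.CC

open Finset

/-- indicator of a proposition, as a real number -/
noncomputable def ind (P : Prop) : ℝ := by
  classical exact if P then 1 else 0

lemma ind_of {P : Prop} (h : P) : ind P = 1 := by unfold ind; simp [h]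

lemma ind_not_of {P : Prop} (h : ¬ P) : ind P = 0 := by unfold ind; simp [h]

lemma ind_nonneg (P : Prop) : 0 ≤ ind P := by
  by_cases h : P
  · rw [ind_of h]; norm_num
  · rw [ind_not_of h]

lemma ind_le_one (P : Prop) : ind P ≤ 1 := by
  by_cases h : P
  · rw [ind_of h]
  · rw [ind_not_of h]; norm_num

lemma ind_mono {P Q : Prop} (h : P → Q) : ind P ≤ ind Q := by
  by_cases hP : P
  · rw [ind_of hP, ind_of (h hP)]
  · rw [ind_not_of hP]; exact ind_nonneg Q

lemma ind_congr {P Q : Prop} (h : P ↔ Q) : ind P = ind Q :=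
  le_antisymm (ind_mono h.1) (ind_mono h.2)

lemma ind_and (P Q : Prop) : ind (P ∧ Q) = ind P * ind Q := by
  by_cases hP : P <;> by_cases hQ : Q
  · rw [ind_of hP, ind_of hQ, ind_of ⟨hP, hQ⟩]; norm_num
  · rw [ind_of hP, ind_not_of hQ, ind_not_of fun h => hQ h.2]; norm_num
  · rw [ind_not_of hP, ind_not_of fun h => hP h.1]; norm_num
  · rw [ind_not_of hP, ind_not_of fun h => hP h.1]; norm_num

lemma ind_not (P : Prop) : ind (¬ P) = 1 - ind P := by
  by_cases hP : P
  · rw [ind_of hP, ind_not_of fun h => h hP]; norm_num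
  · rw [ind_of hP, ind_not_of hP]; norm_num

lemma ind_or_le (P Q : Prop) : ind (P ∨ Q) ≤ ind P + ind Q := by
  by_cases hP : P
  · rw [ind_of hP]; linarith [ind_le_one (P ∨ Q), ind_nonneg Q]
  · by_cases hQ : Q
    · rw [ind_of hQ]; linarith [ind_le_one (P ∨ Q), ind_nonneg P]
    · rw [ind_not_of fun h : P ∨ Q => h.elim hP hQ]
      linarith [ind_nonneg P, ind_nonneg Q]

lemma ind_exists_le {ι : Type*} (I : Finset ι) (P : ι → Prop) :
    ind (∃ i ∈ I, P i) ≤ ∑ i ∈ I, ind (P i) := by
  by_cases h : ∃ i ∈ I, P i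
  · obtain ⟨i, hi, hPi⟩ := h
    calc ind (∃ i ∈ I, P i) ≤ 1 := ind_le_one _
      _ = ind (P i) := (ind_of hPi).symm
      _ ≤ _ := Finset.single_le_sum (f := fun i => ind (P i)) (fun j _ => ind_nonneg _) hi
  · rw [ind_not_of h]
    exact Finset.sum_nonneg fun i _ => ind_nonneg _

lemma ind_forall {ι : Type*} (I : Finset ι) (P : ι → Prop) :
    ind (∀ i ∈ I, P i) = ∏ i ∈ I, ind (P i) := by
  by_cases h : ∀ i ∈ I, P i
  · rw [ind_of h]
    exact (Finset.prod_eq_one fun i hi => ind_of (h i hi)).symm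
  · rw [ind_not_of h]
    push Not at h
    obtain ⟨i, hi, hPi⟩ := h
    exact (Finset.prod_eq_zero hi (ind_not_of hPi)).symm

section

variable {E : Type*} [DecidableEq E]

/-- expectation of `f T` over the random subset `T` of `S` which contains every element of `S`
with probability `p`, independently -/
noncomputable def Ex (p : ℝ) (S : Finset E) (f : Finset E → ℝ) : ℝ :=
  ∑ T ∈ S.powerset, (∏ e ∈ S, if e ∈ T then p else 1 - p) * f T

/-- probability of `P T` for the random subset `T` of `S` -/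
noncomputable def Pr (p : ℝ) (S : Finset E) (P : Finset E → Prop) : ℝ :=
  Ex p S fun T => ind (P T)

variable {p : ℝ} {S : Finset E}

lemma Ex_congr {f g : Finset E → ℝ} (h : ∀ T ⊆ S, f T = g T) : Ex p S f = Ex p S g := by
  unfold Ex
  exact Finset.sum_congr rfl fun T hT => by rw [h T (Finset.mem_powerset.1 hT)]

lemma wt_nonneg (h0 : 0 ≤ p) (h1 : p ≤ 1) (T : Finset E) :
    0 ≤ ∏ e ∈ S, (if e ∈ T then p else 1 - p) := by
  apply Finset.prod_nonneg
  intro e _
  split_ifs
  · exact h0
  · linarith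

lemma Ex_mono (h0 : 0 ≤ p) (h1 : p ≤ 1) {f g : Finset E → ℝ} (h : ∀ T ⊆ S, f T ≤ g T) :
    Ex p S f ≤ Ex p S g := by
  unfold Ex
  exact Finset.sum_le_sum fun T hT =>
    mul_le_mul_of_nonneg_left (h T (Finset.mem_powerset.1 hT)) (wt_nonneg h0 h1 T)

lemma Ex_nonneg (h0 : 0 ≤ p) (h1 : p ≤ 1) {f : Finset E → ℝ} (h : ∀ T ⊆ S, 0 ≤ f T) :
    0 ≤ Ex p S f := by
  unfold Ex
  exact Finset.sum_nonneg fun T hT =>
    mul_nonneg (wt_nonneg h0 h1 T) (h T (Finset.mem_powerset.1 hT))

lemma Ex_add (f g : Finset E → ℝ) : Ex p S (fun T => f T + g T) = Ex p S f + Ex p S g := by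
  unfold Ex
  rw [← Finset.sum_add_distrib]
  exact Finset.sum_congr rfl fun T _ => by ring

lemma Ex_sub (f g : Finset E → ℝ) : Ex p S (fun T => f T - g T) = Ex p S f - Ex p S g := by
  unfold Ex
  rw [← Finset.sum_sub_distrib]
  exact Finset.sum_congr rfl fun T _ => by ring

lemma Ex_const_mul (c : ℝ) (f : Finset E → ℝ) : Ex p S (fun T => c * f T) = c * Ex p S f := by
  unfold Ex
  rw [Finset.mul_sum]
  exact Finset.sum_congr rfl fun T _ => by ring

lemma Ex_mul_const (c : ℝ) (f : Finset E → ℝ) : Ex p S (fun T => f T * c) = Ex p S f * c := by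
  unfold Ex
  rw [Finset.sum_mul]
  exact Finset.sum_congr rfl fun T _ => by ring

lemma Ex_sum {ι : Type*} (I : Finset ι) (f : ι → Finset E → ℝ) :
    Ex p S (fun T => ∑ i ∈ I, f i T) = ∑ i ∈ I, Ex p S (f i) := by
  unfold Ex
  rw [Finset.sum_comm]
  exact Finset.sum_congr rfl fun T _ => by rw [Finset.mul_sum]

@[simp] lemma Ex_empty (f : Finset E → ℝ) : Ex p ∅ f = f ∅ := by
  unfold Ex
  simp

lemma Ex_insert {e : E} (he : e ∉ S) (f : Finset E → ℝ) :
    Ex p (insert e S) f = (1 - p) * Ex p S f + p * Ex p S (fun T => f (insert e T)) := by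
  unfold Ex
  rw [Finset.sum_powerset_insert he, Finset.mul_sum, Finset.mul_sum]
  congr 1
  · apply Finset.sum_congr rfl
    intro T hT
    have heT : e ∉ T := fun h => he (Finset.mem_powerset.1 hT h)
    rw [Finset.prod_insert he, if_neg heT]
    ring
  · apply Finset.sum_congr rfl
    intro T hT
    rw [Finset.prod_insert he, if_pos (Finset.mem_insert_self e T)]
    have : ∏ x ∈ S, (if x ∈ insert e T then p else 1 - p) = ∏ x ∈ S, if x ∈ T then p else 1 - p := by
      apply Finset.prod_congr rfl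
      intro x hx
      have hxe : x ≠ e := fun h => he (h ▸ hx)
      simp [Finset.mem_insert, hxe]
    rw [this]
    ring

lemma Ex_const (c : ℝ) : Ex p S (fun _ => c) = c := by
  induction S using Finset.induction_on with
  | empty => simp
  | insert e S he ih => rw [Ex_insert he, ih]; ring

lemma Ex_union {A B : Finset E} (h : Disjoint A B) (f : Finset E → ℝ) :
    Ex p (A ∪ B) f = Ex p A (fun T₁ => Ex p B (fun T₂ => f (T₁ ∪ T₂))) := by
  induction A using Finset.induction_on generalizing f with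
  | empty => simp
  | insert e A he ih =>
    have hd : Disjoint A B := Finset.disjoint_of_subset_left (Finset.subset_insert e A) h
    have heB : e ∉ B := fun hb => (Finset.disjoint_left.1 h) (Finset.mem_insert_self e A) hb
    have he' : e ∉ A ∪ B := by simp [he, heB]
    rw [Finset.insert_union, Ex_insert he', Ex_insert he, ih hd, ih hd]
    simp only [Finset.insert_union]

/-- `f` depends only on the trace on `A` -/
def Dep (f : Finset E → ℝ) (A : Finset E) : Prop := ∀ T, f T = f (T ∩ A)

lemma Dep.mono {f : Finset E → ℝ} {A B : Finset E} (h : Dep f A) (hAB : A ⊆ B) : Dep f B := by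
  intro T
  rw [h T, h (T ∩ B), Finset.inter_assoc, Finset.inter_eq_right.2 hAB]

lemma Dep.mul {f g : Finset E → ℝ} {A : Finset E} (hf : Dep f A) (hg : Dep g A) :
    Dep (fun T => f T * g T) A := fun T => by
  show f T * g T = f (T ∩ A) * g (T ∩ A)
  rw [← hf T, ← hg T]

lemma Ex_dep {f : Finset E → ℝ} {A : Finset E} (h : Dep f A) (hA : A ⊆ S) :
    Ex p S f = Ex p A f := by
  have h1 : S = A ∪ (S \ A) := (Finset.union_sdiff_of_subset hA).symm
  rw [h1, Ex_union Finset.disjoint_sdiff]
  apply Ex_congr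
  intro T₁ hT₁
  have : ∀ T₂ ⊆ S \ A, f (T₁ ∪ T₂) = f T₁ := by
    intro T₂ hT₂
    rw [h (T₁ ∪ T₂), h T₁, Finset.union_inter_distrib_right]
    have : T₂ ∩ A = ∅ := by
      rw [← Finset.disjoint_iff_inter_eq_empty]
      exact Finset.disjoint_of_subset_left hT₂ Finset.sdiff_disjoint
    rw [this, Finset.union_empty]
  rw [Ex_congr this, Ex_const]

lemma Ex_mul_indep {f g : Finset E → ℝ} {A B : Finset E} (hf : Dep f A) (hg : Dep g B)
    (hAB : Disjoint A B) (hA : A ⊆ S) (hB : B ⊆ S) :
    Ex p S (fun T => f T * g T) = Ex p S f * Ex p S g := by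
  have h1 : Dep (fun T => f T * g T) (A ∪ B) :=
    (hf.mono Finset.subset_union_left).mul (hg.mono Finset.subset_union_right)
  rw [Ex_dep h1 (Finset.union_subset hA hB), Ex_dep hf hA, Ex_dep hg hB, Ex_union hAB]
  have h2 : ∀ T₁ ⊆ A, Ex p B (fun T₂ => f (T₁ ∪ T₂) * g (T₁ ∪ T₂)) = f T₁ * Ex p B g := by
    intro T₁ hT₁
    rw [← Ex_const_mul]
    apply Ex_congr
    intro T₂ hT₂
    have e1 : T₁ ∩ B = ∅ := by
      rw [← Finset.disjoint_iff_inter_eq_empty]
      exact Finset.disjoint_of_subset_left hT₁ hAB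
    have e2 : T₂ ∩ A = ∅ := by
      rw [← Finset.disjoint_iff_inter_eq_empty]
      exact Finset.disjoint_of_subset_left hT₂ hAB.symm
    rw [hf (T₁ ∪ T₂), hg (T₁ ∪ T₂), Finset.union_inter_distrib_right,
      Finset.union_inter_distrib_right, e1, e2, Finset.union_empty, Finset.empty_union, ← hf T₁,
      ← hg T₂]
  rw [Ex_congr h2, Ex_mul_const]

lemma Ex_prod_indep {ι : Type*} [DecidableEq ι] (H : Finset ι) (B : ι → Finset E)
    (g : ι → Finset E → ℝ)
    (hdep : ∀ i ∈ H, Dep (g i) (B i)) (hB : ∀ i ∈ H, B i ⊆ S)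
    (hd : ∀ i ∈ H, ∀ j ∈ H, i ≠ j → Disjoint (B i) (B j)) :
    Ex p S (fun T => ∏ i ∈ H, g i T) = ∏ i ∈ H, Ex p S (g i) := by
  induction H using Finset.induction_on with
  | empty => simp [Ex_const]
  | insert a H ha ih =>
    have ih' := ih (fun i hi => hdep i (Finset.mem_insert_of_mem hi))
      (fun i hi => hB i (Finset.mem_insert_of_mem hi))
      (fun i hi j hj => hd i (Finset.mem_insert_of_mem hi) j (Finset.mem_insert_of_mem hj))
    rw [Finset.prod_insert ha, ← ih']
    simp only [Finset.prod_insert ha]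
    apply Ex_mul_indep (A := B a) (B := H.biUnion B)
    · exact hdep a (Finset.mem_insert_self a H)
    · intro T
      apply Finset.prod_congr rfl
      intro i hi
      exact (hdep i (Finset.mem_insert_of_mem hi)).mono (Finset.subset_biUnion_of_mem B hi) T
    · rw [Finset.disjoint_biUnion_right]
      intro i hi
      exact hd a (Finset.mem_insert_self a H) i (Finset.mem_insert_of_mem hi)
        (fun h => ha (h ▸ hi))
    · exact hB a (Finset.mem_insert_self a H)
    · exact Finset.biUnion_subset.2 fun i hi => hB i (Finset.mem_insert_of_mem hi)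

/-- Harris' inequality: an increasing and a decreasing function are negatively correlated -/
lemma harris (h0 : 0 ≤ p) (h1 : p ≤ 1) {f g : Finset E → ℝ}
    (hf : ∀ T T', T ⊆ T' → f T ≤ f T') (hg : ∀ T T', T ⊆ T' → g T' ≤ g T) :
    Ex p S (fun T => f T * g T) ≤ Ex p S f * Ex p S g := by
  induction S using Finset.induction_on generalizing f g with
  | empty => simp
  | insert e S he ih =>
    rw [Ex_insert he, Ex_insert he, Ex_insert he]
    have i1 := ih hf hg
    have i2 := ih (f := fun T => f (insert e T)) (g := fun T => g (insert e T))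
      (fun T T' h => hf _ _ (Finset.insert_subset_insert e h))
      (fun T T' h => hg _ _ (Finset.insert_subset_insert e h))
    have m1 : Ex p S f ≤ Ex p S (fun T => f (insert e T)) :=
      Ex_mono h0 h1 fun T _ => hf _ _ (Finset.subset_insert e T)
    have m2 : Ex p S (fun T => g (insert e T)) ≤ Ex p S g :=
      Ex_mono h0 h1 fun T _ => hg _ _ (Finset.subset_insert e T)
    set a0 := Ex p S f
    set a1 := Ex p S (fun T => f (insert e T))
    set b0 := Ex p S g
    set b1 := Ex p S (fun T => g (insert e T))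
    have k1 : (1 - p) * Ex p S (fun T => f T * g T) ≤ (1 - p) * (a0 * b0) :=
      mul_le_mul_of_nonneg_left i1 (by linarith)
    have k2 : p * Ex p S (fun T => f (insert e T) * g (insert e T)) ≤ p * (a1 * b1) :=
      mul_le_mul_of_nonneg_left i2 h0
    have k3 : 0 ≤ p * (1 - p) * ((a1 - a0) * (b0 - b1)) :=
      mul_nonneg (mul_nonneg h0 (by linarith)) (mul_nonneg (by linarith) (by linarith))
    nlinarith

lemma Pr_nonneg (h0 : 0 ≤ p) (h1 : p ≤ 1) (P : Finset E → Prop) : 0 ≤ Pr p S P :=
  Ex_nonneg h0 h1 fun _ _ => ind_nonneg _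

lemma Pr_mono (h0 : 0 ≤ p) (h1 : p ≤ 1) {P Q : Finset E → Prop} (h : ∀ T ⊆ S, P T → Q T) :
    Pr p S P ≤ Pr p S Q :=
  Ex_mono h0 h1 fun T hT => ind_mono (h T hT)

lemma Pr_le_one (h0 : 0 ≤ p) (h1 : p ≤ 1) (P : Finset E → Prop) : Pr p S P ≤ 1 := by
  have := Ex_mono (S := S) h0 h1 (f := fun T => ind (P T)) (g := fun _ => 1)
    fun T _ => ind_le_one _
  rw [Ex_const] at this
  exact this

lemma Pr_compl (P : Finset E → Prop) : Pr p S (fun T => ¬ P T) = 1 - Pr p S P := by
  unfold Pr
  simp only [ind_not]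
  rw [Ex_sub, Ex_const]

lemma Pr_or_le (h0 : 0 ≤ p) (h1 : p ≤ 1) (P Q : Finset E → Prop) :
    Pr p S (fun T => P T ∨ Q T) ≤ Pr p S P + Pr p S Q := by
  unfold Pr
  rw [← Ex_add]
  exact Ex_mono h0 h1 fun T _ => ind_or_le _ _

lemma Pr_exists_le (h0 : 0 ≤ p) (h1 : p ≤ 1) {ι : Type*} (I : Finset ι)
    (P : ι → Finset E → Prop) :
    Pr p S (fun T => ∃ i ∈ I, P i T) ≤ ∑ i ∈ I, Pr p S (P i) := by
  unfold Pr
  rw [← Ex_sum]
  exact Ex_mono h0 h1 fun T _ => ind_exists_le _ _

/-- Markov's inequality -/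
lemma markov (h0 : 0 ≤ p) (h1 : p ≤ 1) {f : Finset E → ℝ} (hf : ∀ T ⊆ S, 0 ≤ f T) {c : ℝ}
    (hc : 0 < c) : Pr p S (fun T => c ≤ f T) ≤ Ex p S f / c := by
  rw [le_div_iff₀ hc]
  unfold Pr
  rw [← Ex_mul_const]
  apply Ex_mono h0 h1
  intro T hT
  by_cases h : c ≤ f T
  · rw [ind_of h, one_mul]; exact h
  · rw [ind_not_of h, zero_mul]; exact hf T hT

lemma Ex_subset {F : Finset E} (hF : F ⊆ S) :
    Ex p S (fun T => ind (F ⊆ T)) = p ^ F.card := by
  have hd : Dep (fun T => ind (F ⊆ T)) F := by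
    intro T
    apply ind_congr
    constructor
    · intro h
      exact Finset.subset_inter h (Finset.Subset.refl F)
    · intro h
      exact h.trans Finset.inter_subset_left
  rw [Ex_dep hd hF]
  unfold Ex
  rw [Finset.sum_eq_single F]
  · beta_reduce
    rw [ind_of (Finset.Subset.refl F), mul_one]
    rw [Finset.prod_congr rfl (fun e he => if_pos he), Finset.prod_const]
  · intro T hT hTF
    beta_reduce
    rw [ind_not_of, mul_zero]
    intro h
    exact hTF (Finset.Subset.antisymm (Finset.mem_powerset.1 hT) h)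
  · intro h
    exact absurd (Finset.mem_powerset.2 (Finset.Subset.refl F)) h

lemma Ex_disjoint {F : Finset E} (hF : F ⊆ S) :
    Ex p S (fun T => ind (Disjoint T F)) = (1 - p) ^ F.card := by
  have hd : Dep (fun T => ind (Disjoint T F)) F := by
    intro T
    apply ind_congr
    rw [Finset.disjoint_iff_inter_eq_empty, Finset.disjoint_iff_inter_eq_empty,
      Finset.inter_assoc, Finset.inter_self]
  rw [Ex_dep hd hF]
  unfold Ex
  rw [Finset.sum_eq_single ∅]
  · beta_reduce
    rw [ind_of (Finset.disjoint_empty_left F), mul_one]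
    rw [Finset.prod_congr rfl (fun e he => if_neg (Finset.notMem_empty e)), Finset.prod_const]
  · intro T hT hT0
    beta_reduce
    rw [ind_not_of, mul_zero]
    intro h
    apply hT0
    have := Finset.disjoint_iff_inter_eq_empty.1 h
    rwa [Finset.inter_eq_left.2 (Finset.mem_powerset.1 hT)] at this
  · intro h
    exact absurd (Finset.mem_powerset.2 (Finset.empty_subset F)) h

/-- passing to the complement -/
lemma Ex_compl (f : Finset E → ℝ) :
    Ex p S f = Ex (1 - p) S (fun T => f (S \ T)) := by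
  unfold Ex
  apply Finset.sum_nbij' (fun T => S \ T) (fun T => S \ T)
  · intro T _
    exact Finset.mem_powerset.2 Finset.sdiff_subset
  · intro T _
    exact Finset.mem_powerset.2 Finset.sdiff_subset
  · intro T hT
    exact Finset.sdiff_sdiff_eq_self (Finset.mem_powerset.1 hT)
  · intro T hT
    exact Finset.sdiff_sdiff_eq_self (Finset.mem_powerset.1 hT)
  · intro T hT
    beta_reduce
    rw [Finset.sdiff_sdiff_eq_self (Finset.mem_powerset.1 hT)]
    congr 1
    apply Finset.prod_congr rfl
    intro e he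
    by_cases h : e ∈ T
    · rw [if_pos h, if_neg]
      · ring
      · simp [h]
    · rw [if_neg h, if_pos]
      exact Finset.mem_sdiff.2 ⟨he, h⟩

end

end Pool.Agent.H1.CC
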