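import Pool.Agent.H1.CC.GFour

/-!
The deterministic part of the lower bound.
-/

set_option autoImplicit false
set_option linter.unusedSectionVars false

namespace Pool.Agent.H1.CC

open Finset

variable {V : Type*} [DecidableEq V] [Fintype V]

/-- neighbours of `v` in `A` -/
def nb (T : Finset (Sym2 V)) (v : V) (A : Finset V) : Finset V := A.filter fun y => s(v, y) ∈ T

lemma mem_nb {T : Finset (Sym2 V)} {v : V} {A : Finset V} {y : V} :
    y ∈ nb T v A ↔ y ∈ A ∧ s(v, y) ∈ T := by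
  unfold nb; exact Finset.mem_filter

lemma nb_subset (T : Finset (Sym2 V)) (v : V) (A : Finset V) : nb T v A ⊆ A :=
  Finset.filter_subset _ _

/-- clique colourable with `k` colours (the graph with edge set `T`) -/
def CCol (T : Finset (Sym2 V)) (k : ℕ) : Prop :=
  ∃ c : V → Fin k, ∀ K : Finset V, 2 ≤ K.card → ins K ⊆ T →
    (∀ w, w ∉ K → ∃ v ∈ K, s(w, v) ∉ T) → ∃ u ∈ K, ∃ v ∈ K, c u ≠ c v

/-- the sets produced by the iteration -/
lemma exists_parts [Nonempty V] {T : Finset (Sym2 V)} {A : Finset V} {j b m : ℕ} {γ : ℝ}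
    (hj : 1 ≤ j) (hγ : 0 < γ) (hγ1 : γ ≤ 1) (hb : 0 < b)
    (hA : ∀ v, j * b ≤ (A.filter fun u => s(v, u) ∉ T).card)
    (hG : ∀ Q : Finset V, Q.card = j → (cn T Q).card < m) (hm : (m : ℝ) ≤ γ ^ j * b) :
    ∃ X : ℕ → Finset V, (∀ i < j, X i ⊆ A ∧ γ ^ j * b ≤ ((X i).card : ℝ) ∧ (X i).card ≤ b) ∧
      (∀ i < j, ∀ i' < j, i ≠ i' → Disjoint (X i) (X i')) ∧
      ∀ v, ∃ i < j, ((nb T v (X i)).card : ℝ) < γ * ((X i).card : ℝ) := by
  classical
  have hAb : j * b ≤ A.card := by
    obtain ⟨v⟩ := ‹Nonempty V›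
    exact (hA v).trans (Finset.card_filter_le _ _)
  have hbj : b ≤ j * b := Nat.le_mul_of_pos_left b hj
  have hb' : (0:ℝ) < b := by exact_mod_cast hb
  set Good : Prop := ∃ r < j, ∃ X : ℕ → Finset V,
    (∀ i ≤ r, X i ⊆ A ∧ γ ^ r * b ≤ ((X i).card : ℝ) ∧ (X i).card ≤ b) ∧
      (∀ i ≤ r, ∀ i' ≤ r, i ≠ i' → Disjoint (X i) (X i')) ∧
      ∀ v, ∃ i ≤ r, ((nb T v (X i)).card : ℝ) < γ * ((X i).card : ℝ) with hGood
  set State : ℕ → Prop := fun r => ∃ X : ℕ → Finset V, ∃ Q : Finset V, Q.card = r ∧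
    (∀ i ≤ r, X i ⊆ A ∧ γ ^ r * b ≤ ((X i).card : ℝ) ∧ (X i).card ≤ b) ∧
      (∀ i ≤ r, ∀ i' ≤ r, i ≠ i' → Disjoint (X i) (X i')) ∧
      (∀ w ∈ Q, ∀ y ∈ X 0, s(w, y) ∈ T) ∧ (∀ w ∈ Q, ∃ i ≤ r, ∀ y ∈ X i, s(w, y) ∉ T) with hState
  have hind : ∀ r ≤ j, State r ∨ Good := by
    intro r
    induction r with
    | zero =>
      intro _
      left
      obtain ⟨Z, hZA, hZc⟩ := Finset.exists_subset_card_eq (hbj.trans hAb)
      refine ⟨fun _ => Z, ∅, rfl, ?_, ?_, ?_, ?_⟩
      · intro i _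
        refine ⟨hZA, ?_, hZc.le⟩
        rw [hZc]; simp
      · intro i hi i' hi' h
        exact absurd ((Nat.le_zero.1 hi).trans (Nat.le_zero.1 hi').symm) h
      · intro w hw; exact absurd hw (Finset.notMem_empty w)
      · intro w hw; exact absurd hw (Finset.notMem_empty w)
    | succ r ih =>
      intro hr
      rcases ih (by omega) with hs | hg
      · obtain ⟨X, Q, hQ, h1, h2, h3, h4⟩ := hs
        by_cases hdan : ∀ v, ∃ i ≤ r, ((nb T v (X i)).card : ℝ) < γ * ((X i).card : ℝ)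
        · right
          exact ⟨r, by omega, X, h1, h2, hdan⟩
        · left
          push Not at hdan
          obtain ⟨v, hv⟩ := hdan
          obtain ⟨Z, hZA, hZc⟩ := Finset.exists_subset_card_eq (hbj.trans (hA v))
          have hXpos : ∀ i ≤ r, 0 < ((X i).card : ℝ) := fun i hi =>
            lt_of_lt_of_le (by positivity) (h1 i hi).2.1
          have hvQ : v ∉ Q := by
            intro hvQ
            obtain ⟨i, hi, h5⟩ := h4 v hvQ
            have h6 := hv i hi
            have h7 : nb T v (X i) = ∅ := by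
              rw [Finset.eq_empty_iff_forall_notMem]
              intro y hy
              exact h5 y (mem_nb.1 hy).1 (mem_nb.1 hy).2
            rw [h7, Finset.card_empty, Nat.cast_zero] at h6
            have := mul_pos hγ (hXpos i hi)
            linarith
          refine ⟨fun i => if i ≤ r then nb T v (X i) else Z, insert v Q, ?_, ?_, ?_, ?_, ?_⟩
          · rw [Finset.card_insert_of_notMem hvQ, hQ]
          · intro i hi
            beta_reduce
            split_ifs with hir
            · refine ⟨(nb_subset _ _ _).trans (h1 i hir).1, ?_,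
                (Finset.card_le_card (nb_subset _ _ _)).trans (h1 i hir).2.2⟩
              have h5 := hv i hir
              have h6 := mul_le_mul_of_nonneg_left (h1 i hir).2.1 hγ.le
              calc γ ^ (r + 1) * b = γ * (γ ^ r * b) := by ring
                _ ≤ _ := h6.trans h5
            · refine ⟨hZA.trans (Finset.filter_subset _ _), ?_, hZc.le⟩
              rw [hZc]
              have : γ ^ (r + 1) ≤ 1 := pow_le_one₀ hγ.le hγ1
              nlinarith
          · intro i hi i' hi' hii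
            beta_reduce
            split_ifs with h5 h6 h6
            · exact Finset.disjoint_of_subset_left (nb_subset _ _ _)
                (Finset.disjoint_of_subset_right (nb_subset _ _ _) (h2 i h5 i' h6 hii))
            · rw [Finset.disjoint_left]
              intro y hy hy'
              exact (Finset.mem_filter.1 (hZA hy')).2 (mem_nb.1 hy).2
            · rw [Finset.disjoint_right]
              intro y hy hy'
              exact (Finset.mem_filter.1 (hZA hy')).2 (mem_nb.1 hy).2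
            · omega
          · intro w hw y hy
            simp only [Nat.zero_le, if_true] at hy
            rcases Finset.mem_insert.1 hw with rfl | hw
            · exact (mem_nb.1 hy).2
            · exact h3 w hw y (mem_nb.1 hy).1
          · intro w hw
            rcases Finset.mem_insert.1 hw with rfl | hw
            · refine ⟨r + 1, le_refl _, ?_⟩
              intro y hy
              beta_reduce at hy
              rw [if_neg (by omega)] at hy
              exact (Finset.mem_filter.1 (hZA hy)).2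
            · obtain ⟨i, hi, h5⟩ := h4 w hw
              refine ⟨i, by omega, ?_⟩
              intro y hy
              beta_reduce at hy
              rw [if_pos hi] at hy
              exact h5 y (mem_nb.1 hy).1
      · right; exact hg
  have hgood : Good := by
    rcases hind j (le_refl _) with hs | hg
    · exfalso
      obtain ⟨X, Q, hQ, h1, h2, h3, h4⟩ := hs
      have h5 := hG Q hQ
      have h6 : X 0 ⊆ cn T Q := by
        intro y hy
        rw [mem_cn]
        intro x hx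
        rw [Sym2.eq_swap]
        exact h3 x hx y hy
      have h7 : ((X 0).card : ℝ) ≤ ((cn T Q).card : ℝ) := by
        exact_mod_cast Finset.card_le_card h6
      have h8 : ((cn T Q).card : ℝ) < m := by exact_mod_cast h5
      have h9 := (h1 0 (Nat.zero_le _)).2.1
      linarith
    · exact hg
  obtain ⟨r, hr, X, h1, h2, h3⟩ := hgood
  have hext : ∀ t, r + t < j → ∃ X : ℕ → Finset V,
      (∀ i ≤ r + t, X i ⊆ A ∧ γ ^ j * b ≤ ((X i).card : ℝ) ∧ (X i).card ≤ b) ∧
      (∀ i ≤ r + t, ∀ i' ≤ r + t, i ≠ i' → Disjoint (X i) (X i')) ∧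
      ∀ v, ∃ i ≤ r + t, ((nb T v (X i)).card : ℝ) < γ * ((X i).card : ℝ) := by
    intro t
    induction t with
    | zero =>
      intro _
      refine ⟨X, ?_, h2, h3⟩
      intro i hi
      refine ⟨(h1 i hi).1, le_trans ?_ (h1 i hi).2.1, (h1 i hi).2.2⟩
      have : γ ^ j ≤ γ ^ r := pow_le_pow_of_le_one hγ.le hγ1 (by omega)
      exact mul_le_mul_of_nonneg_right this hb'.le
    | succ t ih =>
      intro ht
      obtain ⟨X, g1, g2, g3⟩ := ih (by omega)
      set U := (Finset.range (r + t + 1)).biUnion X with hU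
      have hUc : U.card ≤ (r + t + 1) * b := by
        calc U.card ≤ ∑ i ∈ Finset.range (r + t + 1), (X i).card := Finset.card_biUnion_le
          _ ≤ ∑ i ∈ Finset.range (r + t + 1), b := by
              apply Finset.sum_le_sum
              intro i hi
              exact (g1 i (by rw [Finset.mem_range] at hi; omega)).2.2
          _ = _ := by rw [Finset.sum_const, Finset.card_range, smul_eq_mul]
      have hAU : b ≤ (A \ U).card := by
        have e1 := Finset.le_card_sdiff U A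
        have e2 : (r + t + 1) * b + b ≤ j * b := by
          have : r + t + 1 + 1 ≤ j := by omega
          calc (r + t + 1) * b + b = (r + t + 1 + 1) * b := by ring
            _ ≤ j * b := Nat.mul_le_mul_right b this
        omega
      obtain ⟨Z, hZA, hZc⟩ := Finset.exists_subset_card_eq hAU
      refine ⟨fun i => if i ≤ r + t then X i else Z, ?_, ?_, ?_⟩
      · intro i hi
        beta_reduce
        split_ifs with h
        · exact g1 i h
        · refine ⟨hZA.trans Finset.sdiff_subset, ?_, hZc.le⟩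
          rw [hZc]
          have : γ ^ j ≤ 1 := pow_le_one₀ hγ.le hγ1
          nlinarith
      · have hdis : ∀ i ≤ r + t, Disjoint (X i) Z := by
          intro i hi
          rw [Finset.disjoint_left]
          intro y hy hy'
          apply (Finset.mem_sdiff.1 (hZA hy')).2
          rw [hU, Finset.mem_biUnion]
          exact ⟨i, Finset.mem_range.2 (by omega), hy⟩
        intro i hi i' hi' hii
        beta_reduce
        split_ifs with h5 h6 h6
        · exact g2 i h5 i' h6 hii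
        · exact hdis i h5
        · exact (hdis i' h6).symm
        · omega
      · intro v
        obtain ⟨i, hi, h⟩ := g3 v
        refine ⟨i, by omega, ?_⟩
        beta_reduce
        rw [if_pos hi]
        exact h
  obtain ⟨X, g1, g2, g3⟩ := hext (j - 1 - r) (by omega)
  have e : r + (j - 1 - r) = j - 1 := by omega
  rw [e] at g1 g2 g3
  refine ⟨X, fun i hi => g1 i (by omega), fun i hi i' hi' => g2 i (by omega) i' (by omega), ?_⟩
  intro v
  obtain ⟨i, hi, h⟩ := g3 v
  exact ⟨i, by omega, h⟩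

lemma eb_eq {T : Finset (Sym2 V)} {S Z : Finset V} (h : Disjoint S Z) :
    eb T S Z = ∑ v ∈ S, (nb T v Z).card := by
  classical
  unfold eb btw
  have h1 : (S.biUnion fun v => star v Z) ∩ T = S.biUnion fun v => star v (nb T v Z) := by
    ext e
    rw [Finset.mem_inter, Finset.mem_biUnion, Finset.mem_biUnion]
    constructor
    · rintro ⟨⟨v, hv, he⟩, heT⟩
      refine ⟨v, hv, ?_⟩
      obtain ⟨y, hy, rfl⟩ := Finset.mem_image.1 he
      exact Finset.mem_image_of_mem _ (mem_nb.2 ⟨hy, heT⟩)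
    · rintro ⟨v, hv, he⟩
      obtain ⟨y, hy, rfl⟩ := Finset.mem_image.1 he
      exact ⟨⟨v, hv, Finset.mem_image_of_mem _ (mem_nb.1 hy).1⟩, (mem_nb.1 hy).2⟩
  rw [h1, Finset.card_biUnion]
  · exact Finset.sum_congr rfl fun v _ => card_star
  · intro v hv w hw hvw
    exact star_disjoint_star hvw
      (Or.inl fun h' => Finset.disjoint_left.1 h hv (nb_subset _ _ _ h'))

/-- vertices outside the parts with unusually many neighbours in some part -/
noncomputable def bset {j : ℕ} (T : Finset (Sym2 V)) (Y : Fin j → Finset V) (θ : ℝ) : Finset V := by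
  classical
  exact Finset.univ.filter fun v => v ∉ uni Y ∧ ∃ l, θ * ((Y l).card : ℝ) < ((nb T v (Y l)).card : ℝ)

lemma mem_bset {j : ℕ} {T : Finset (Sym2 V)} {Y : Fin j → Finset V} {θ : ℝ} {v : V} :
    v ∈ bset T Y θ ↔ v ∉ uni Y ∧ ∃ l, θ * ((Y l).card : ℝ) < ((nb T v (Y l)).card : ℝ) := by
  unfold bset; simp

lemma bset_small {T : Finset (Sym2 V)} {j : ℕ} {Y : Fin j → Finset V}
    {α β θ a : ℝ} (hθ : 0 < θ) (ha : 0 < a)
    (haY : ∀ l, a ≤ ((Y l).card : ℝ))
    (hG : ∀ S Z : Finset V, Disjoint S Z →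
      ((eb T S Z : ℕ) : ℝ) ≤ α * S.card * Z.card + β * (S.card + Z.card))
    (h1 : α ≤ θ / 4) (h2 : β ≤ θ * a / 4) :
    ((bset T Y θ).card : ℝ) ≤ 2 * j * β / θ := by
  classical
  set Bl : Fin j → Finset V := fun l =>
    Finset.univ.filter fun v => v ∉ uni Y ∧ θ * ((Y l).card : ℝ) < ((nb T v (Y l)).card : ℝ) with hBl
  have hsub : bset T Y θ ⊆ Finset.univ.biUnion Bl := by
    intro v hv
    obtain ⟨h3, l, h4⟩ := mem_bset.1 hv
    rw [Finset.mem_biUnion]
    exact ⟨l, Finset.mem_univ l, Finset.mem_filter.2 ⟨Finset.mem_univ v, h3, h4⟩⟩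
  have hBlc : ∀ l, ((Bl l).card : ℝ) ≤ 2 * β / θ := by
    intro l
    have hd : Disjoint (Bl l) (Y l) := by
      rw [Finset.disjoint_left]
      intro v hv hv'
      exact (Finset.mem_filter.1 hv).2.1 (mem_uni.2 ⟨l, hv'⟩)
    have h3 := hG (Bl l) (Y l) hd
    rw [eb_eq hd] at h3
    have h4 : ((Bl l).card : ℝ) * (θ * ((Y l).card : ℝ)) ≤ ((∑ v ∈ Bl l, (nb T v (Y l)).card : ℕ) : ℝ) := by
      rw [← nsmul_eq_mul, ← Finset.sum_const, Nat.cast_sum]
      apply Finset.sum_le_sum
      intro v hv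
      exact (Finset.mem_filter.1 hv).2.2.le
    have hy := haY l
    have hy0 : 0 < ((Y l).card : ℝ) := lt_of_lt_of_le ha hy
    have hB0 : 0 ≤ ((Bl l).card : ℝ) := Nat.cast_nonneg _
    have h5 : β * ((Bl l).card : ℝ) ≤ θ * ((Y l).card : ℝ) / 4 * ((Bl l).card : ℝ) := by
      apply mul_le_mul_of_nonneg_right _ hB0
      have := mul_le_mul_of_nonneg_left hy hθ.le
      linarith
    have h6 : α * ((Bl l).card : ℝ) * ((Y l).card : ℝ) ≤
        θ / 4 * ((Bl l).card : ℝ) * ((Y l).card : ℝ) := by gcongr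
    have h7 : θ / 2 * ((Bl l).card : ℝ) * ((Y l).card : ℝ) ≤ β * ((Y l).card : ℝ) := by
      nlinarith
    have h8 : θ / 2 * ((Bl l).card : ℝ) ≤ β := le_of_mul_le_mul_right h7 hy0
    rw [le_div_iff₀ hθ]
    linarith
  calc ((bset T Y θ).card : ℝ) ≤ ((Finset.univ.biUnion Bl).card : ℝ) := by
        exact_mod_cast Finset.card_le_card hsub
    _ ≤ ((∑ l, (Bl l).card : ℕ) : ℝ) := by exact_mod_cast Finset.card_biUnion_le
    _ = ∑ l, ((Bl l).card : ℝ) := by push_cast; rfl
    _ ≤ ∑ l : Fin j, 2 * β / θ := Finset.sum_le_sum fun l _ => hBlc l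
    _ = _ := by
        rw [Finset.sum_const, Finset.card_univ, Fintype.card_fin, nsmul_eq_mul]; ring

lemma prod_ratio {j : ℕ} (hj : 2 ≤ j) {r : Fin j → ℝ} {γ : ℝ} (h0 : ∀ l, 0 ≤ r l)
    (h1 : ∀ l, r l ≤ 1) (hγ : ∃ l, r l ≤ γ) : ∏ l, r l ≤ γ * ∑ l, r l := by
  classical
  obtain ⟨l1, h2⟩ := hγ
  obtain ⟨l2, h3⟩ : ∃ l2 : Fin j, l2 ≠ l1 := by
    have : Nontrivial (Fin j) := Fin.nontrivial_iff_two_le.2 hj
    exact exists_ne l1
  rw [← Finset.mul_prod_erase Finset.univ r (Finset.mem_univ l1)]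
  have h4 : l2 ∈ Finset.univ.erase l1 := Finset.mem_erase.2 ⟨h3, Finset.mem_univ l2⟩
  rw [← Finset.mul_prod_erase (Finset.univ.erase l1) r h4]
  have h5 : ∏ l ∈ (Finset.univ.erase l1).erase l2, r l ≤ 1 :=
    Finset.prod_le_one (fun l _ => h0 l) (fun l _ => h1 l)
  have h6 : 0 ≤ ∏ l ∈ (Finset.univ.erase l1).erase l2, r l :=
    Finset.prod_nonneg fun l _ => h0 l
  have h7 : r l2 ≤ ∑ l, r l := Finset.single_le_sum (fun l _ => h0 l) (Finset.mem_univ l2)
  have hγ0 : 0 ≤ γ := (h0 l1).trans h2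
  calc r l1 * (r l2 * ∏ l ∈ (Finset.univ.erase l1).erase l2, r l) ≤ γ * (r l2 * 1) := by
        apply mul_le_mul h2 _ (mul_nonneg (h0 l2) h6) hγ0
        exact mul_le_mul_of_nonneg_left h5 (h0 l2)
    _ ≤ γ * ∑ l, r l := by
        rw [mul_one]; exact mul_le_mul_of_nonneg_left h7 hγ0

lemma tup_large {T : Finset (Sym2 V)} {j : ℕ} (hj : 2 ≤ j) {Y : Fin j → Finset V}
    {α β θ γ a : ℝ} (hθ : 0 < θ) (ha : 0 < a) (hγ : 0 ≤ γ)
    (haY : ∀ l, a ≤ ((Y l).card : ℝ))
    (hG : ∀ S Z : Finset V, Disjoint S Z →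
      ((eb T S Z : ℕ) : ℝ) ≤ α * S.card * Z.card + β * (S.card + Z.card))
    (h1 : α ≤ θ / 4) (h2 : β ≤ θ * a / 4) (h3 : γ * (j * (j + 1) * β) ≤ 1 / 2)
    (hdang : ∀ v, ∃ l, ((nb T v (Y l)).card : ℝ) ≤ γ * ((Y l).card : ℝ)) :
    1 / 2 * ∏ l, ((Y l).card : ℝ) ≤ ((tup T Y (bset T Y θ)).card : ℝ) := by
  classical
  set B := bset T Y θ with hB
  have hBs := bset_small hθ ha haY hG h1 h2
  rw [← hB] at hBs
  have hYpos : ∀ l, 0 < ((Y l).card : ℝ) := fun l => lt_of_lt_of_le ha (haY l)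
  set Pi : ℝ := ∏ l, ((Y l).card : ℝ) with hPi
  have hPi0 : 0 < Pi := Finset.prod_pos fun l _ => hYpos l
  set r : V → Fin j → ℝ := fun v l => ((nb T v (Y l)).card : ℝ) / ((Y l).card : ℝ) with hr
  have hr0 : ∀ v l, 0 ≤ r v l := fun v l => by rw [hr]; positivity
  have hr1 : ∀ v l, r v l ≤ 1 := by
    intro v l
    rw [hr]
    beta_reduce
    rw [div_le_one (hYpos l)]
    exact_mod_cast Finset.card_le_card (nb_subset T v (Y l))
  -- sum of ratios
  have hsum : ∀ l, ∑ v ∈ B, r v l ≤ β * (j + 1) := by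
    intro l
    have hd : Disjoint B (Y l) := by
      rw [Finset.disjoint_left]
      intro v hv hv'
      exact (mem_bset.1 hv).1 (mem_uni.2 ⟨l, hv'⟩)
    have h4 := hG B (Y l) hd
    rw [eb_eq hd] at h4
    have h5 : ∑ v ∈ B, r v l = ((∑ v ∈ B, (nb T v (Y l)).card : ℕ) : ℝ) / ((Y l).card : ℝ) := by
      rw [Nat.cast_sum, Finset.sum_div]
    rw [h5, div_le_iff₀ (hYpos l)]
    refine h4.trans ?_
    have hy := haY l
    have hy0 := hYpos l
    have hB0 : 0 ≤ (B.card : ℝ) := Nat.cast_nonneg _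
    rw [le_div_iff₀ hθ] at hBs
    have e1 : α * (B.card : ℝ) * ((Y l).card : ℝ) ≤ θ / 4 * (B.card : ℝ) * ((Y l).card : ℝ) := by
      gcongr
    have e2 : θ * (B.card : ℝ) * ((Y l).card : ℝ) ≤ 2 * j * β * ((Y l).card : ℝ) := by
      have := mul_le_mul_of_nonneg_right hBs hy0.le
      linarith
    have e3 : β * (B.card : ℝ) ≤ θ * ((Y l).card : ℝ) / 4 * (B.card : ℝ) := by
      apply mul_le_mul_of_nonneg_right _ hB0
      have := mul_le_mul_of_nonneg_left hy hθ.le
      linarith
    nlinarith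
  have hprodr : ∀ v, ((∏ l, (nb T v (Y l)).card : ℕ) : ℝ) ≤ γ * (∑ l, r v l) * Pi := by
    intro v
    have e1 : ((∏ l, (nb T v (Y l)).card : ℕ) : ℝ) = (∏ l, r v l) * Pi := by
      rw [hPi, ← Finset.prod_mul_distrib, Nat.cast_prod]
      apply Finset.prod_congr rfl
      intro l _
      rw [hr]
      beta_reduce
      rw [div_mul_cancel₀ _ (hYpos l).ne']
    rw [e1]
    apply mul_le_mul_of_nonneg_right _ hPi0.le
    apply prod_ratio hj (hr0 v) (hr1 v)
    obtain ⟨l, hl⟩ := hdang v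
    refine ⟨l, ?_⟩
    rw [hr]
    beta_reduce
    rw [div_le_iff₀ (hYpos l)]
    exact hl
  -- covered tuples
  have hcov : (((Fintype.piFinset Y).filter fun τ => ¬ ∀ b ∈ B, ∃ l, s(b, τ l) ∉ T).card : ℝ) ≤
      Pi / 2 := by
    have hsub : ((Fintype.piFinset Y).filter fun τ => ¬ ∀ b ∈ B, ∃ l, s(b, τ l) ∉ T) ⊆
        B.biUnion fun b => Fintype.piFinset fun l => nb T b (Y l) := by
      intro τ hτ
      rw [Finset.mem_filter] at hτ
      obtain ⟨hτY, hτ2⟩ := hτ
      push Not at hτ2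
      obtain ⟨b, hb, hbl⟩ := hτ2
      rw [Finset.mem_biUnion]
      refine ⟨b, hb, ?_⟩
      rw [Fintype.mem_piFinset]
      intro l
      exact mem_nb.2 ⟨(Fintype.mem_piFinset.1 hτY) l, hbl l⟩
    calc _ ≤ ((B.biUnion fun b => Fintype.piFinset fun l => nb T b (Y l)).card : ℝ) := by
          exact_mod_cast Finset.card_le_card hsub
      _ ≤ ((∑ b ∈ B, (Fintype.piFinset fun l => nb T b (Y l)).card : ℕ) : ℝ) := by
          exact_mod_cast Finset.card_biUnion_le
      _ = ∑ b ∈ B, ((∏ l, (nb T b (Y l)).card : ℕ) : ℝ) := by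
          rw [Nat.cast_sum]
          apply Finset.sum_congr rfl
          intro b _
          rw [Fintype.card_piFinset]
      _ ≤ ∑ b ∈ B, γ * (∑ l, r b l) * Pi := Finset.sum_le_sum fun b _ => hprodr b
      _ = γ * (∑ l, ∑ b ∈ B, r b l) * Pi := by
          rw [← Finset.sum_mul, ← Finset.mul_sum, Finset.sum_comm]
      _ ≤ γ * (∑ l : Fin j, β * (j + 1)) * Pi := by
          apply mul_le_mul_of_nonneg_right _ hPi0.le
          apply mul_le_mul_of_nonneg_left _ hγ
          exact Finset.sum_le_sum fun l _ => hsum l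
      _ = γ * (j * (j + 1) * β) * Pi := by
          rw [Finset.sum_const, Finset.card_univ, Fintype.card_fin, nsmul_eq_mul]; ring
      _ ≤ 1 / 2 * Pi := mul_le_mul_of_nonneg_right h3 hPi0.le
      _ = Pi / 2 := by ring
  have htot : ((tup T Y B).card : ℝ) +
      (((Fintype.piFinset Y).filter fun τ => ¬ ∀ b ∈ B, ∃ l, s(b, τ l) ∉ T).card : ℝ) = Pi := by
    rw [hPi, ← Nat.cast_add, ← Nat.cast_prod, ← Fintype.card_piFinset]
    congr 1
    exact Finset.card_filter_add_card_filter_not _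
  linarith

/-- a clique inside `X` not covered from outside `X` extends to a maximal clique inside `X` -/
lemma extend_clique {T : Finset (Sym2 V)} {X K : Finset V} (hKX : K ⊆ X)
    (hK : ins K ⊆ T)
    (hout : ∀ v, v ∉ X → ∃ u ∈ K, s(v, u) ∉ T) :
    ∃ K' : Finset V, K ⊆ K' ∧ K' ⊆ X ∧ ins K' ⊆ T ∧ ∀ w, w ∉ K' → ∃ v ∈ K', s(w, v) ∉ T := by
  classical
  set 𝒦 := (Finset.univ : Finset (Finset V)).filter fun K' => K ⊆ K' ∧ K' ⊆ X ∧ ins K' ⊆ T with h𝒦
  obtain ⟨K', hK', hmax⟩ := Finset.exists_max_image 𝒦 Finset.card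
    ⟨K, by rw [h𝒦, Finset.mem_filter]; exact ⟨Finset.mem_univ _, Finset.Subset.refl _, hKX, hK⟩⟩
  rw [h𝒦, Finset.mem_filter] at hK'
  obtain ⟨_, k1, k2, k3⟩ := hK'
  refine ⟨K', k1, k2, k3, ?_⟩
  intro w hw
  by_cases hwX : w ∈ X
  · by_contra hcon
    push Not at hcon
    have hins : insert w K' ∈ 𝒦 := by
      rw [h𝒦, Finset.mem_filter]
      refine ⟨Finset.mem_univ _, k1.trans (Finset.subset_insert _ _), ?_, ?_⟩
      · exact Finset.insert_subset hwX k2
      · intro e he
        obtain ⟨u, hu, v, hv, huv, rfl⟩ := mem_ins'.1 he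
        rcases Finset.mem_insert.1 hu with hu1 | hu1
        · rcases Finset.mem_insert.1 hv with hv1 | hv1
          · exact absurd (hu1.trans hv1.symm) huv
          · rw [hu1]; exact hcon v hv1
        · rcases Finset.mem_insert.1 hv with hv1 | hv1
          · rw [hv1, Sym2.eq_swap]; exact hcon u hu1
          · exact k3 (mem_ins.2 ⟨hu1, hv1, huv⟩)
    have := hmax _ hins
    rw [Finset.card_insert_of_notMem hw] at this
    omega
  · obtain ⟨u, hu, h⟩ := hout w hwX
    exact ⟨u, k1 hu, h⟩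

/-- the deterministic part of the lower bound -/
lemma not_CCol [Nonempty V] {T : Finset (Sym2 V)} {j b m k : ℕ} (hj : 2 ≤ j)
    (l0 : Fin j)
    {α β γ θ d a : ℝ} (hγ : 0 < γ) (hγ1 : γ ≤ 1) (hb : 0 < b) (hθ : 0 < θ)
    (hab : a = γ ^ j * b)
    (hG1 : ∀ Q : Finset V, Q.card = j → (cn T Q).card < m) (hm : (m : ℝ) ≤ a)
    (hG2 : ∀ S Z : Finset V, Disjoint S Z →
      ((eb T S Z : ℕ) : ℝ) ≤ α * S.card * Z.card + β * (S.card + Z.card))
    (h1 : α ≤ θ / 4) (h2 : β ≤ θ * a / 4) (h3 : γ * (j * (j + 1) * β) ≤ 1 / 2)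
    (hBb : 2 * j * β / θ ≤ b)
    (hG3 : ∀ Q : Finset V, Q.card = j - 1 → ((cn T Q).card : ℝ) ≤ d)
    (hG4 : ∀ (Y : Fin j → Finset V) (B : Finset V), (∀ l l', l ≠ l' → Disjoint (Y l) (Y l')) →
      Disjoint B (uni Y) → (∀ l, a ≤ ((Y l).card : ℝ)) → (∀ l, (Y l).card ≤ b) → B.card ≤ b →
      ¬ badG l0 Y B θ d T)
    (hG5 : ∀ W : Finset V, W.card ≤ k → k * (j * b) < (unc T W).card) : ¬ CCol T k := by
  classical
  rintro ⟨c, hc⟩
  have ha : 0 < a := by rw [hab]; positivity
  have key : ∀ i : Fin k, ∃ v, (Finset.univ.filter fun u => c u = i ∧ s(v, u) ∉ T).card < j * b := by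
    intro i
    by_contra hcon
    push Not at hcon
    set A := Finset.univ.filter fun u => c u = i with hA
    obtain ⟨X, x1, x2, x3⟩ := exists_parts (T := T) (A := A) (j := j) (b := b) (m := m) (γ := γ)
      (by omega) hγ hγ1 hb (fun v => by rw [hA, Finset.filter_filter]; exact hcon v) hG1
      (by rw [← hab]; exact hm)
    set Y : Fin j → Finset V := fun l => X l with hYdef
    have hYd : ∀ l l' : Fin j, l ≠ l' → Disjoint (Y l) (Y l') := fun l l' h =>
      x2 l l.2 l' l'.2 (fun h' => h (Fin.ext h'))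
    have hYa : ∀ l, a ≤ ((Y l).card : ℝ) := fun l => by rw [hab]; exact (x1 l l.2).2.1
    have hYb : ∀ l, (Y l).card ≤ b := fun l => (x1 l l.2).2.2
    have hdang : ∀ v, ∃ l : Fin j, ((nb T v (Y l)).card : ℝ) ≤ γ * ((Y l).card : ℝ) := by
      intro v
      obtain ⟨i, hi, h⟩ := x3 v
      exact ⟨⟨i, hi⟩, h.le⟩
    have hBd : Disjoint (bset T Y θ) (uni Y) := by
      rw [Finset.disjoint_left]
      intro v hv
      exact (mem_bset.1 hv).1
    have hBc : (bset T Y θ).card ≤ b := by
      have := (bset_small hθ ha hYa hG2 h1 h2).trans hBb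
      exact_mod_cast this
    have hnb := hG4 Y (bset T Y θ) hYd hBd hYa hYb hBc
    have hex : ∃ τ ∈ Fintype.piFinset Y, ins (vs τ) ⊆ T ∧ ∀ v, v ∉ uni Y → ∃ l, s(v, τ l) ∉ T := by
      by_contra hno
      push Not at hno
      apply hnb
      refine ⟨tup_large hj hθ ha hγ.le hYa hG2 h1 h2 h3 hdang, ?_, ?_, hno⟩
      · intro v hv l _
        rw [Finset.mem_sdiff, Finset.mem_union] at hv
        by_contra hlt
        push Not at hlt
        apply hv.2
        right
        rw [mem_bset]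
        exact ⟨fun h => hv.2 (Or.inl h), l, hlt⟩
      · intro τ hτ
        have hτY : τ ∈ Fintype.piFinset Y := (Finset.mem_filter.1 hτ).1
        have hQ : ((vs τ).erase (τ l0)).card = j - 1 := by
          rw [Finset.card_erase_of_mem (mem_vs.2 ⟨l0, rfl⟩), card_vs hYd hτY]
        refine le_trans ?_ (hG3 _ hQ)
        have : cl T (Finset.univ \ (uni Y ∪ bset T Y θ)) l0 τ ⊆ cn T ((vs τ).erase (τ l0)) := by
          intro v hv
          rw [mem_cn]
          intro x hx
          rw [Finset.mem_erase] at hx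
          obtain ⟨l, rfl⟩ := mem_vs.1 hx.2
          exact (Finset.mem_filter.1 hv).2 l (fun h => hx.1 (by rw [h]))
        exact_mod_cast Finset.card_le_card this
    obtain ⟨τ, hτ, hins, hout⟩ := hex
    have hvsX : vs τ ⊆ uni Y := by
      intro v hv
      obtain ⟨l, rfl⟩ := mem_vs.1 hv
      exact mem_uni.2 ⟨l, (Fintype.mem_piFinset.1 hτ) l⟩
    obtain ⟨K, k1, k2, k3, k4⟩ := extend_clique hvsX hins (fun v hv => by
      obtain ⟨l, hl⟩ := hout v hv
      exact ⟨τ l, mem_vs.2 ⟨l, rfl⟩, hl⟩)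
    have hKc : 2 ≤ K.card := by
      have := Finset.card_le_card k1
      rw [card_vs hYd hτ] at this
      omega
    obtain ⟨u, hu, v, hv, huv⟩ := hc K hKc k3 k4
    apply huv
    have hKA : ∀ w ∈ K, c w = i := by
      intro w hw
      obtain ⟨l, hl⟩ := mem_uni.1 (k2 hw)
      have := (x1 l l.2).1 hl
      rw [hA, Finset.mem_filter] at this
      exact this.2
    rw [hKA u hu, hKA v hv]
  choose v hv using key
  set W := Finset.univ.image v with hW
  have hWc : W.card ≤ k := by
    have := Finset.card_image_le (s := (Finset.univ : Finset (Fin k))) (f := v)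
    rwa [Finset.card_univ, Fintype.card_fin] at this
  have h5 := hG5 W hWc
  have h6 : unc T W ⊆ Finset.univ.biUnion fun i : Fin k =>
      Finset.univ.filter fun u => c u = i ∧ s(v i, u) ∉ T := by
    intro u hu
    rw [mem_unc] at hu
    rw [Finset.mem_biUnion]
    refine ⟨c u, Finset.mem_univ _, Finset.mem_filter.2 ⟨Finset.mem_univ u, rfl, ?_⟩⟩
    rw [Sym2.eq_swap]
    exact hu.2 _ (Finset.mem_image_of_mem v (Finset.mem_univ _))
  have h7 : (unc T W).card ≤ k * (j * b) := by
    calc (unc T W).card ≤ _ := Finset.card_le_card h6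
      _ ≤ ∑ i : Fin k, (Finset.univ.filter fun u => c u = i ∧ s(v i, u) ∉ T).card :=
          Finset.card_biUnion_le
      _ ≤ ∑ i : Fin k, j * b := Finset.sum_le_sum fun i _ => (hv i).le
      _ = k * (j * b) := by
          rw [Finset.sum_const, Finset.card_univ, Fintype.card_fin, smul_eq_mul]
  omega

end Pool.Agent.H1.CC
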