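import Pool.Agent.H1.CC.Asym

/-!
Both bounds in asymptotic form.
-/

set_option autoImplicit false
set_option linter.unusedSectionVars false

namespace Pool.Agent.H1.CC

open Finset Filter

lemma tendsto_l_exp {ε : ℝ} (hε : 0 < ε) :
    Tendsto (fun l : ℝ => l * Real.exp (-(ε * l))) atTop (nhds 0) := by
  have h1 := (Real.tendsto_pow_mul_exp_neg_atTop_nhds_zero 1).comp
    (tendsto_id.const_mul_atTop hε)
  have h2 := h1.const_mul (1 / ε)
  rw [mul_zero] at h2
  refine h2.congr ?_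
  intro l
  simp only [Function.comp, id, pow_one]
  field_simp

lemma log_small {c C : ℝ} (hc : 0 < c) : ∀ᶠ l : ℝ in atTop, C * Real.log (l + 1) ≤ c * l := by
  have h1 : Tendsto (fun l : ℝ => l + 1) atTop atTop := tendsto_atTop_add_const_right _ _ tendsto_id
  have h2 := (Real.isLittleO_log_id_atTop.comp_tendsto h1).bound
    (show 0 < c / (2 * (|C| + 1)) by positivity)
  filter_upwards [h2, eventually_ge_atTop 1] with l h3 h4
  simp only [Function.comp, id, Real.norm_eq_abs] at h3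
  have h5 : 0 ≤ Real.log (l + 1) := Real.log_nonneg (by linarith)
  rw [abs_of_nonneg h5, abs_of_nonneg (by linarith : 0 ≤ l + 1)] at h3
  have h6 : C * Real.log (l + 1) ≤ (|C| + 1) * Real.log (l + 1) :=
    mul_le_mul_of_nonneg_right (by linarith [le_abs_self C]) h5
  have h7 : (|C| + 1) * Real.log (l + 1) ≤ (|C| + 1) * (c / (2 * (|C| + 1)) * (l + 1)) :=
    mul_le_mul_of_nonneg_left h3 (by positivity)
  have h8 : (|C| + 1) * (c / (2 * (|C| + 1)) * (l + 1)) = c / 2 * (l + 1) := by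
    field_simp
  rw [h8] at h7
  nlinarith

theorem lower_final {ε δ : ℝ} (hε : 0 < ε) (hδ : 0 < δ) (hδ1 : δ < 1) :
    ∀ᶠ l : ℝ in atTop, ∀ (n k : ℕ) (p : ℝ), Real.log n = l → 0 < p →
      ε * l ≤ -Real.log p → -Real.log p ≤ (1 / 3 - ε) * l →
      (k:ℝ) ≤ (1 - δ) * FF n p / p →
      Pr p (allE (Fin n)) (fun T => CCol T k) ≤ 6 * Real.exp (-l) := by
  set J : ℕ := ⌈1 / ε⌉₊ + 4 with hJ
  obtain ⟨x0, hx0⟩ := lower_fixed J
  set c1 : ℝ := min (1 / 8) (3 * ε) with hc1
  have hc10 : 0 < c1 := lt_min (by norm_num) (by positivity)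
  have e3 := log_small (c := ε / 2) (C := 5 * (J:ℝ) + 20) (by positivity)
  have e4 := log_small (c := δ * c1 / 4) (C := 6 * (J:ℝ) + 25) (by positivity)
  have e5 : ∀ᶠ l : ℝ in atTop, ((J:ℝ) + 2) * (l * Real.exp (-(ε * l))) ≤ 1 := by
    have := (tendsto_l_exp hε).const_mul ((J:ℝ) + 2)
    rw [mul_zero] at this
    exact this.eventually_le_const (by norm_num)
  filter_upwards [exists_index hε, eventually_ge_atTop 1, eventually_ge_atTop x0, e3, e4, e5,
    eventually_ge_atTop (8 / (δ * c1)), eventually_ge_atTop (1 / ε)]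
    with l hidx b1 b2 b3 b4 b5 b6 b7
  intro n k p hnl hp0 hL1 hL2 hk
  obtain ⟨j, hj4, hjJ, hjκ, hjmin, hjt⟩ := hidx n p hnl hp0 hL1 hL2
  have hl0 : 0 < l := by linarith
  have hn0 : 0 < n := by
    rcases Nat.eq_zero_or_pos n with h0 | h0
    · rw [h0, Nat.cast_zero, Real.log_zero] at hnl; linarith
    · exact h0
  have hn0' : (0:ℝ) < n := by exact_mod_cast hn0
  have hnl' : (n:ℝ) = Real.exp l := by rw [← hnl, Real.exp_log hn0']
  have hεl : 1 ≤ ε * l := by
    rw [div_le_iff₀ hε] at b7; linarith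
  have hpε : p ≤ Real.exp (-(ε * l)) := by
    rw [← Real.log_le_iff_le_exp hp0]; linarith
  have hp2 : p ≤ 1 / 2 := by
    refine hpε.trans ?_
    rw [Real.exp_neg, inv_eq_one_div]
    apply one_div_le_one_div_of_le (by norm_num)
    have := Real.add_one_le_exp (ε * l)
    linarith
  have hp1 : p ≤ 1 := by linarith
  set x : ℝ := Real.log ((n:ℝ) + 1) with hx
  have hxl : l ≤ x := by
    rw [hx, ← hnl]
    exact Real.log_le_log hn0' (by linarith)
  have hxl1 : x ≤ l + 1 := by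
    rw [hx, Real.log_le_iff_le_exp (by linarith), Real.exp_add, ← hnl']
    have h1 := Real.add_one_le_exp (1:ℝ)
    have h2 : (1:ℝ) ≤ n := by exact_mod_cast hn0
    nlinarith
  have hlogx : Real.log x ≤ Real.log (l + 1) := Real.log_le_log (by linarith) hxl1
  have hLl : -Real.log p ≤ l := by nlinarith
  have hL0 : 0 < -Real.log p := by linarith
  set F := FF n p with hF
  have hFl : F ≤ l := by rw [hF, ← hnl]; exact FF_le_log hp0 hp1
  have hFt : F ≤ term n p j + j * (p * (-Real.log p)) / 2 :=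
    FF_le_term hp0 hp1 (by omega) hjκ hjmin
  have htF : term n p j ≤ F := term_le_FF hp0 hp1 (by omega)
  have hF0 : c1 * l - 1 ≤ F := hjt.trans htF
  have hδc : 8 ≤ δ * c1 * l := by
    rw [div_le_iff₀ (by positivity)] at b6; linarith
  have hplexp : p * l ≤ l * Real.exp (-(ε * l)) := by
    rw [mul_comm]; exact mul_le_mul_of_nonneg_left hpε hl0.le
  have hjJ' : (j:ℝ) ≤ J := by exact_mod_cast hjJ
  have hjpL : (j:ℝ) * (p * (-Real.log p)) / 2 ≤ J * (p * l) := by
    have h1 : p * (-Real.log p) ≤ p * l := mul_le_mul_of_nonneg_left hLl hp0.le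
    have h2 : 0 ≤ p * (-Real.log p) := by positivity
    have h3 : (j:ℝ) * (p * (-Real.log p)) ≤ J * (p * l) := mul_le_mul hjJ' h1 h2 (by linarith [Nat.cast_nonneg (α := ℝ) J])
    have h4 : 0 ≤ (j:ℝ) * (p * (-Real.log p)) := by positivity
    linarith
  have hJ0 : (0:ℝ) ≤ J := Nat.cast_nonneg J
  have hlogx0 : 0 ≤ Real.log x := Real.log_nonneg (by linarith)
  have hmain : Real.exp ((-Real.log p) * (1 + (j : ℝ) / 2) + (n : ℝ) * p ^ j / ((j : ℝ) - 1) +
      (6 * (J : ℝ) + 25) * Real.log x) ≤ (n : ℝ) * (1 - p) ^ k := by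
    have h1 : -(p + 2 * p ^ 2) ≤ Real.log (1 - p) := by
      have h2 := Real.one_sub_inv_le_log_of_pos (x := 1 - p) (by linarith)
      refine le_trans ?_ h2
      have h3 : (1 - p)⁻¹ ≤ 1 + p + 2 * p ^ 2 := by
        rw [inv_le_iff_one_le_mul₀ (by linarith)]
        nlinarith [sq_nonneg p, pow_pos hp0 2, pow_pos hp0 3]
      linarith
    have h4 : (1 - p) ^ k = Real.exp (k * Real.log (1 - p)) := by
      rw [Real.exp_nat_mul, Real.exp_log (by linarith)]
    rw [h4, hnl', ← Real.exp_add]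
    apply Real.exp_le_exp.2
    have h5 : (k:ℝ) * p ≤ (1 - δ) * F := by
      rw [le_div_iff₀ hp0] at hk; exact hk
    have h5' : (k:ℝ) * p ≤ l := by
      refine h5.trans ?_
      have : 0 ≤ δ * l := by positivity
      nlinarith
    have h6 : (k:ℝ) * (-(p + 2 * p ^ 2)) ≤ k * Real.log (1 - p) :=
      mul_le_mul_of_nonneg_left h1 (Nat.cast_nonneg k)
    have h7 : (k:ℝ) * (2 * p ^ 2) ≤ 2 * (p * l) := by
      have : (k:ℝ) * (2 * p ^ 2) = 2 * (p * (k * p)) := by ring
      rw [this]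
      have := mul_le_mul_of_nonneg_left h5' hp0.le
      linarith
    have hterm : term n p j = l + (1 + (j : ℝ) / 2) * Real.log p -
        (n : ℝ) * p ^ j / ((j : ℝ) - 1) := by rw [term, hnl]
    rw [hnl'] at hterm
    have h8 : δ * (c1 * l - 1) ≤ δ * F := mul_le_mul_of_nonneg_left hF0 hδ.le
    have h9 : (6 * (J:ℝ) + 25) * Real.log x ≤ δ * c1 / 4 * l := by
      refine le_trans ?_ b4
      exact mul_le_mul_of_nonneg_left hlogx (by positivity)
    have h10 : ((J:ℝ) + 2) * (p * l) ≤ 1 := by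
      refine le_trans ?_ b5
      exact mul_le_mul_of_nonneg_left hplexp (by positivity)
    nlinarith only [h5, h6, h7, hterm, h8, h9, h10, hFt, hjpL, hδc, hδ1, hδ]
  refine (hx0 x (b2.trans hxl) n j k p hj4 hjJ hp0 (by linarith) le_rfl hjκ ?_ hmain).trans ?_
  · have h1 : (5 * (J:ℝ) + 20) * Real.log x ≤ (5 * (J:ℝ) + 20) * Real.log (l + 1) :=
      mul_le_mul_of_nonneg_left hlogx (by positivity)
    linarith
  · have : Real.exp (-x) ≤ Real.exp (-l) := Real.exp_le_exp.2 (by linarith)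
    linarith

theorem upper_final {ε δ : ℝ} (hε : 0 < ε) (hε1 : ε ≤ 1) (hδ : 0 < δ) :
    ∃ η : ℝ, 0 < η ∧ ∀ᶠ l : ℝ in atTop, ∀ (n K : ℕ) (p : ℝ), Real.log n = l → 0 < p →
      ε * l ≤ -Real.log p → -Real.log p ≤ (1 / 3 - ε) * l →
      (1 + δ) * FF n p / p < (K:ℝ) + 1 →
      Pr p (allE (Fin n)) (fun T => ¬ CCol T K) ≤ Real.exp (-(η / 4 * l)) + Real.exp (-l) := by
  set c1 : ℝ := min (1 / 8) (3 * ε) with hc1
  have hc10 : 0 < c1 := lt_min (by norm_num) (by positivity)
  set η : ℝ := min ε (δ * c1 / 8) with hη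
  have hη0 : 0 < η := lt_min hε (by positivity)
  refine ⟨η, hη0, ?_⟩
  filter_upwards [exists_index hε, upper_fixed hε hη0 (min_le_left _ _) hε1,
    eventually_ge_atTop 1, eventually_ge_atTop (8 / (δ * c1)), eventually_ge_atTop (8 / c1)]
    with l hidx hup b1 b2 b3
  intro n K p hnl hp0 hL1 hL2 hK
  obtain ⟨j, hj4, hjJ, hjκ, hjmin, hjt⟩ := hidx n p hnl hp0 hL1 hL2
  have hl0 : 0 < l := by linarith
  have hεl : 0 < ε * l := by positivity
  have hL0 : 0 < -Real.log p := by linarith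
  have hp1 : p ≤ 1 := by
    by_contra hcon
    push Not at hcon
    have := Real.log_pos hcon
    linarith
  have htF : term n p j ≤ FF n p := term_le_FF hp0 hp1 (by omega)
  have hF0 : c1 * l - 1 ≤ FF n p := hjt.trans htF
  have hδc : 8 ≤ δ * c1 * l := by
    rw [div_le_iff₀ (by positivity)] at b2; linarith
  have hcl : 8 ≤ c1 * l := by
    rw [div_le_iff₀ hc10] at b3; linarith
  have hη2 : η ≤ δ * c1 / 8 := min_le_right _ _
  refine hup n K p (FF n p) hnl hp0 hL1 (by nlinarith) (by linarith)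
    (by rw [← hnl]; exact FF_le_log hp0 hp1) ?_ ?_
  · intro i hi
    have := term_le_FF (n := n) hp0 hp1 hi
    rw [term, hnl] at this
    exact this
  · rw [div_lt_iff₀ hp0] at hK
    rw [div_le_iff₀ hp0]
    have h1 : δ * (c1 * l - 1) ≤ δ * FF n p := mul_le_mul_of_nonneg_left hF0 hδ.le
    have h2 : η * l ≤ δ * c1 / 8 * l := mul_le_mul_of_nonneg_right hη2 hl0.le
    have h3 : (1 + δ) * FF n p = FF n p + δ * FF n p := by ring
    rw [h3] at hK
    -- δ ≤ δ c1 l
    have h4 : FF n p + 2 * η * l + p ≤ FF n p + δ * FF n p := by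
      have h5 : δ * 8 ≤ δ * (c1 * l) := mul_le_mul_of_nonneg_left hcl hδ.le
      nlinarith only [h1, h2, h5, hδc, hp1]
    linarith

end Pool.Agent.H1.CC
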