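import Pool.Agent.H1.CC.StageB

/-!
Stages B and C combined: for given parts `Y` and given bad vertices `B`, it is very unlikely that
every transversal clique of `Y` is covered from outside although at least half of the tuples
is not covered by `B` and all other vertices are typical.
-/

set_option autoImplicit false
set_option linter.unusedSectionVars false

namespace Pool.Agent.H1.CC

open Finset

variable {V : Type*} [DecidableEq V] [Fintype V]

/-- union of the parts -/
def uni {j : ℕ} (Y : Fin j → Finset V) : Finset V := Finset.univ.biUnion Y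

lemma mem_uni {j : ℕ} {Y : Fin j → Finset V} {v : V} : v ∈ uni Y ↔ ∃ l, v ∈ Y l := by
  unfold uni; simp

/-- tuples not covered by `B` -/
def tup {j : ℕ} (T : Finset (Sym2 V)) (Y : Fin j → Finset V) (B : Finset V) :
    Finset (Fin j → V) :=
  (Fintype.piFinset Y).filter fun τ => ∀ b ∈ B, ∃ l, s(b, τ l) ∉ T

/-- vertices of `R` adjacent to all entries of the tuple but the one at `l0` -/
def cl {j : ℕ} (T : Finset (Sym2 V)) (R : Finset V) (l0 : Fin j) (τ : Fin j → V) : Finset V :=
  R.filter fun v => ∀ l, l ≠ l0 → s(v, τ l) ∈ T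

/-- the bad event -/
def badG {j : ℕ} (l0 : Fin j) (Y : Fin j → Finset V) (B : Finset V) (θ d : ℝ)
    (T : Finset (Sym2 V)) : Prop :=
  (1 / 2 * ∏ l, ((Y l).card : ℝ) ≤ ((tup T Y B).card : ℝ)) ∧
  (∀ v ∈ Finset.univ \ (uni Y ∪ B), ∀ l, l ≠ l0 →
    (((Y l).filter fun y => s(v, y) ∈ T).card : ℝ) ≤ θ * ((Y l).card : ℝ)) ∧
  (∀ τ ∈ tup T Y B, ((cl T (Finset.univ \ (uni Y ∪ B)) l0 τ).card : ℝ) ≤ d) ∧
  (∀ τ ∈ Fintype.piFinset Y, ins (vs τ) ⊆ T → ∃ v, v ∉ uni Y ∧ ∀ l, s(v, τ l) ∈ T)

lemma prob_badG {p : ℝ} (h0 : 0 < p) (h1 : p ≤ 1) {j : ℕ} (hj : 2 ≤ j) (l0 : Fin j)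
    {Y : Fin j → Finset V} (hY : ∀ l l', l ≠ l' → Disjoint (Y l) (Y l')) {B : Finset V}
    (hB : Disjoint B (uni Y)) {θ d q a Φ A : ℝ} (hθ : 0 ≤ θ) (hd : 0 ≤ d) (hq : 0 < q)
    (hqd : ∀ c : ℕ, (c : ℝ) ≤ d → q ≤ (1 - p) ^ c) (ha : 0 < a) (haY : ∀ l, a ≤ ((Y l).card : ℝ))
    (hΦ : 8 ≤ Φ) (hΦ1 : 64 * Φ ≤ q * a ^ (j - 1)) (hΦ2 : 64 * Φ * (d * θ ^ (j - 1)) ≤ q)
    (hA : 0 < A) (hA2 : ∀ g : ℕ, 2 ≤ g → g ≤ j → A ≤ q / 128 * a ^ g * p ^ (g.choose 2)) :
    Pr p (allE V) (badG l0 Y B θ d) ≤
      Real.exp (-((Φ / 8 - 1) * a)) + Real.exp (-(A / (8 * 2 ^ j))) := by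
  classical
  set X := uni Y with hX
  set R := Finset.univ \ (X ∪ B) with hR
  have hYX : ∀ l, Y l ⊆ X := fun l y hy => mem_uni.2 ⟨l, hy⟩
  have hRX : Disjoint R X := by
    rw [Finset.disjoint_left]
    intro v hv hv'
    exact (Finset.mem_sdiff.1 hv).2 (Finset.mem_union_left _ hv')
  have hRB : Disjoint R B := by
    rw [Finset.disjoint_left]
    intro v hv hv'
    exact (Finset.mem_sdiff.1 hv).2 (Finset.mem_union_right _ hv')
  have hRY : Disjoint R (Y l0) := Finset.disjoint_of_subset_right (hYX l0) hRX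
  set SB := btw (Y l0) R with hSB
  set SC := ins X with hSC
  have hBC : Disjoint SB SC := by
    rw [Finset.disjoint_left]
    intro e he he'
    obtain ⟨u, hu, v, hv, rfl⟩ := mem_btw.1 he
    exact Finset.disjoint_left.1 hRX hv (mem_ins.1 he').2.1
  set SA := allE V \ (SB ∪ SC) with hSA
  have hsub : SB ∪ SC ⊆ allE V :=
    Finset.union_subset (btw_subset_allE hRY.symm) (ins_subset_allE _)
  have hall : allE V = SA ∪ (SB ∪ SC) := by
    rw [hSA]; exact (Finset.sdiff_union_of_subset hsub).symm
  have hAd : Disjoint SA (SB ∪ SC) := Finset.sdiff_disjoint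
  -- membership facts
  have mem1 : ∀ v, v ∉ X → v ∉ R → ∀ x ∈ X, s(v, x) ∉ SB ∪ SC := by
    intro v hv hvR x hx h
    rcases Finset.mem_union.1 h with h | h
    · obtain ⟨u, hu, w, hw, he⟩ := mem_btw.1 h
      rcases Sym2.eq_iff.1 he with ⟨h3, h4⟩ | ⟨h3, h4⟩
      · exact hv (h3 ▸ hYX l0 hu)
      · exact hvR (h3 ▸ hw)
    · exact hv (mem_ins.1 h).1
  have mem2 : ∀ v, v ∉ X → ∀ l, l ≠ l0 → ∀ y ∈ Y l, s(v, y) ∉ SB ∪ SC := by
    intro v hv l hl y hy h
    rcases Finset.mem_union.1 h with h | h
    · obtain ⟨u, hu, w, hw, he⟩ := mem_btw.1 h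
      rcases Sym2.eq_iff.1 he with ⟨h3, h4⟩ | ⟨h3, h4⟩
      · exact hv (h3 ▸ hYX l0 hu)
      · exact Finset.disjoint_left.1 (hY l l0 hl) hy (h4 ▸ hu)
    · exact hv (mem_ins.1 h).1
  rw [hall]
  unfold Pr
  rw [Ex_union hAd]
  have main : ∀ TA ⊆ SA, Ex p (SB ∪ SC) (fun T' => ind (badG l0 Y B θ d (TA ∪ T'))) ≤
      Real.exp (-((Φ / 8 - 1) * a)) + Real.exp (-(A / (8 * 2 ^ j))) := by
    intro TA hTA
    rw [Ex_union hBC]
    -- facts about membership for T = TA ∪ (TB ∪ TC)
    have hin : ∀ TB ⊆ SB, ∀ TC ⊆ SC, ∀ e, e ∉ SB ∪ SC → (e ∈ TA ∪ (TB ∪ TC) ↔ e ∈ TA) := by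
      intro TB hTB TC hTC e he
      constructor
      · intro h
        rcases Finset.mem_union.1 h with h | h
        · exact h
        · exact absurd (Finset.union_subset_union hTB hTC h) he
      · exact fun h => Finset.mem_union_left _ h
    have htup : ∀ TB ⊆ SB, ∀ TC ⊆ SC, tup (TA ∪ (TB ∪ TC)) Y B = tup TA Y B := by
      intro TB hTB TC hTC
      unfold tup
      apply Finset.filter_congr
      intro τ hτ
      apply forall₂_congr
      intro b hb
      apply exists_congr
      intro l
      rw [hin TB hTB TC hTC]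
      exact mem1 b (fun h => Finset.disjoint_left.1 hB hb h)
        (fun h => Finset.disjoint_left.1 hRB h hb) _ (hYX l ((Fintype.mem_piFinset.1 hτ) l))
    have hcl : ∀ TB ⊆ SB, ∀ TC ⊆ SC, ∀ τ ∈ Fintype.piFinset Y,
        cl (TA ∪ (TB ∪ TC)) R l0 τ = cl TA R l0 τ := by
      intro TB hTB TC hTC τ hτ
      unfold cl
      apply Finset.filter_congr
      intro v hv
      apply forall₂_congr
      intro l hl
      rw [hin TB hTB TC hTC]
      exact mem2 v (fun h => Finset.disjoint_left.1 hRX hv h) l hl _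
        ((Fintype.mem_piFinset.1 hτ) l)
    by_cases hcond : (1 / 2 * ∏ l, ((Y l).card : ℝ) ≤ ((tup TA Y B).card : ℝ)) ∧
        (∀ v ∈ R, ∀ l, l ≠ l0 →
          (((Y l).filter fun y => s(v, y) ∈ TA).card : ℝ) ≤ θ * ((Y l).card : ℝ)) ∧
        (∀ τ ∈ tup TA Y B, ((cl TA R l0 τ).card : ℝ) ≤ d)
    · obtain ⟨c1, c2, c3⟩ := hcond
      set T0 := tup TA Y B with hT0
      have hT0Y : T0 ⊆ Fintype.piFinset Y := Finset.filter_subset _ _
      set C : (Fin j → V) → Finset V := fun τ => cl TA R l0 τ with hC
      have hCR : ∀ τ, C τ ⊆ R := fun τ => Finset.filter_subset _ _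
      set w : ℝ := ∏ l ∈ Finset.univ.erase l0, ((Y l).card : ℝ) with hw
      have hYpos : ∀ l, 0 < ((Y l).card : ℝ) := fun l => lt_of_lt_of_le ha (haY l)
      have hw0 : 0 < w := Finset.prod_pos fun l _ => hYpos l
      have hwa : a ^ (j - 1) ≤ w := by
        have : (Finset.univ.erase l0).card = j - 1 := by
          rw [Finset.card_erase_of_mem (Finset.mem_univ _), Finset.card_univ, Fintype.card_fin]
        rw [← this, ← Finset.prod_const]
        exact Finset.prod_le_prod (fun _ _ => ha.le) (fun l _ => haY l)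
      have hprod : ∏ l, ((Y l).card : ℝ) = ((Y l0).card : ℝ) * w := by
        rw [hw, Finset.mul_prod_erase Finset.univ (fun l => ((Y l).card : ℝ)) (Finset.mem_univ l0)]
      set κ : ℝ := θ ^ (j - 1) * w with hκ
      have hκ0 : 0 ≤ κ := mul_nonneg (pow_nonneg hθ _) hw0.le
      have hκ' : ∀ x v, ((T0.filter fun τ => τ l0 = x ∧ v ∈ C τ).card : ℝ) ≤ κ := by
        intro x v
        by_cases hvR : v ∈ R
        · have hsub2 : (T0.filter fun τ => τ l0 = x ∧ v ∈ C τ) ⊆
              Fintype.piFinset (fun l => if l = l0 then {x} else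
                (Y l).filter fun y => s(v, y) ∈ TA) := by
            intro τ hτ
            rw [Finset.mem_filter] at hτ
            rw [Fintype.mem_piFinset]
            intro l
            by_cases hl : l = l0
            · subst hl
              rw [if_pos rfl, Finset.mem_singleton]; exact hτ.2.1
            · rw [if_neg hl, Finset.mem_filter]
              refine ⟨(Fintype.mem_piFinset.1 (hT0Y hτ.1)) l, ?_⟩
              exact (Finset.mem_filter.1 hτ.2.2).2 l hl
          have h3 := Finset.card_le_card hsub2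
          rw [Fintype.card_piFinset] at h3
          have h4 : ((∏ l, (if l = l0 then {x} else
                (Y l).filter fun y => s(v, y) ∈ TA).card : ℕ) : ℝ) ≤ κ := by
            rw [Nat.cast_prod, ← Finset.mul_prod_erase Finset.univ _ (Finset.mem_univ l0)]
            simp only [if_true, Finset.card_singleton, Nat.cast_one, one_mul]
            have h5 : ∏ l ∈ Finset.univ.erase l0, (((if l = l0 then {x} else
                (Y l).filter fun y => s(v, y) ∈ TA).card : ℕ) : ℝ) ≤
                ∏ l ∈ Finset.univ.erase l0, (θ * ((Y l).card : ℝ)) := by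
              apply Finset.prod_le_prod
              · intro l _; exact Nat.cast_nonneg _
              · intro l hl
                rw [if_neg (Finset.ne_of_mem_erase hl)]
                exact c2 v hvR l (Finset.ne_of_mem_erase hl)
            refine h5.trans (le_of_eq ?_)
            rw [Finset.prod_mul_distrib, Finset.prod_const,
              Finset.card_erase_of_mem (Finset.mem_univ _), Finset.card_univ, Fintype.card_fin]
          refine le_trans ?_ h4
          exact_mod_cast h3
        · have : (T0.filter fun τ => τ l0 = x ∧ v ∈ C τ) = ∅ := by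
            rw [Finset.filter_eq_empty_iff]
            intro τ _ h
            exact hvR (hCR τ h.2)
          rw [this]
          simpa using hκ0
      set F : Finset (Sym2 V) → Finset (Fin j → V) := fun TB =>
        T0.filter fun τ => Disjoint TB (star (τ l0) (C τ)) with hF
      -- stage B
      have hstB := stageB (S := SB) h0.le h1 l0 (Y := Y) (R := R) hRY hT0Y C
        (fun τ _ => hCR τ) (fun x hx => Finset.subset_biUnion_of_mem (fun v => star v R) hx) hq hd hκ0
        (fun τ hτ => hqd _ (c3 τ hτ)) (fun τ hτ => c3 τ hτ) hκ' hw hw0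
        (hprod ▸ c1)
      have hΦw : Φ ≤ q * w / (32 * (1 + d * κ)) := by
        have hdκ := mul_nonneg hd hκ0
        rw [le_div_iff₀ (by linarith)]
        have e1 : 64 * Φ ≤ q * w := hΦ1.trans (mul_le_mul_of_nonneg_left hwa hq.le)
        have e2 : 64 * Φ * (d * κ) ≤ q * w := by
          have := mul_le_mul_of_nonneg_right hΦ2 hw0.le
          rw [hκ]
          calc 64 * Φ * (d * (θ ^ (j - 1) * w)) = 64 * Φ * (d * θ ^ (j - 1)) * w := by ring
            _ ≤ q * w := this
        nlinarith
      have hstB' : Real.exp (((Y l0).card : ℝ) - q * w / (32 * (1 + d * κ)) *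
          ((Y l0).card : ℝ) / 8) ≤ Real.exp (-((Φ / 8 - 1) * a)) := by
        apply Real.exp_le_exp.2
        have e1 := haY l0
        have e2 : Φ * ((Y l0).card : ℝ) ≤ q * w / (32 * (1 + d * κ)) * ((Y l0).card : ℝ) :=
          mul_le_mul_of_nonneg_right hΦw (hYpos l0).le
        have e3 : (Φ / 8 - 1) * a ≤ (Φ / 8 - 1) * ((Y l0).card : ℝ) :=
          mul_le_mul_of_nonneg_left e1 (by linarith)
        linarith
      -- pointwise
      have hpt : ∀ TB ⊆ SB, Ex p SC (fun TC => ind (badG l0 Y B θ d (TA ∪ (TB ∪ TC)))) ≤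
          ind (((F TB).card : ℝ) < q / 128 * (((Y l0).card : ℝ) * w)) +
            Real.exp (-(A / (8 * 2 ^ j))) := by
        intro TB hTB
        by_cases hsm : ((F TB).card : ℝ) < q / 128 * (((Y l0).card : ℝ) * w)
        · rw [ind_of hsm]
          have : Ex p SC (fun TC => ind (badG l0 Y B θ d (TA ∪ (TB ∪ TC)))) ≤ 1 :=
            Pr_le_one h0.le h1 _
          linarith [Real.exp_pos (-(A / (8 * 2 ^ j)))]
        · rw [ind_not_of hsm, zero_add]
          push Not at hsm
          have hFY : F TB ⊆ Fintype.piFinset Y := (Finset.filter_subset _ _).trans hT0Y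
          have hC2 := stageC (S := SC) h0 h1 hj hY hFY
            (fun τ hτ => ins_mono (fun v hv => by
              obtain ⟨l, rfl⟩ := mem_vs.1 hv
              exact hYX l ((Fintype.mem_piFinset.1 (hFY hτ)) l)))
            (ρ := q / 128) (by positivity) ha haY (by rw [hprod]; exact hsm) hA hA2
          refine le_trans ?_ hC2
          apply Pr_mono h0.le h1
          intro TC hTC hbad τ hτ hins
          obtain ⟨_, _, _, b4⟩ := hbad
          have hτT : τ ∈ T0 := (Finset.mem_filter.1 hτ).1
          obtain ⟨v, hvX, hv⟩ := b4 τ (hFY hτ)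
            (hins.trans (Finset.subset_union_right.trans Finset.subset_union_right))
          by_cases hvB : v ∈ B
          · obtain ⟨l, hl⟩ := (Finset.mem_filter.1 hτT).2 v hvB
            apply hl
            rw [← hin TB hTB TC hTC]
            · exact hv l
            · exact mem1 v hvX (fun h => Finset.disjoint_left.1 hRB h hvB) _
                (hYX l ((Fintype.mem_piFinset.1 (hFY hτ)) l))
          · have hvR : v ∈ R := by
              rw [hR, Finset.mem_sdiff, Finset.mem_union]
              exact ⟨Finset.mem_univ v, fun h => h.elim hvX hvB⟩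
            have hvC : v ∈ C τ := by
              rw [hC]
              beta_reduce
              rw [← hcl TB hTB TC hTC τ (hFY hτ)]
              exact Finset.mem_filter.2 ⟨hvR, fun l _ => hv l⟩
            have hdis := (Finset.mem_filter.1 hτ).2
            rw [star_disjoint_iff] at hdis
            apply hdis v hvC
            have h5 := hv l0
            have hx0 : τ l0 ∈ Y l0 := (Fintype.mem_piFinset.1 (hFY hτ)) l0
            have h6 : s(v, τ l0) ∈ SB := mem_btw.2 ⟨τ l0, hx0, v, hvR, Sym2.eq_swap⟩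
            rw [Sym2.eq_swap]
            rcases Finset.mem_union.1 h5 with h7 | h7
            · exact absurd (Finset.mem_union_left _ h6) (Finset.disjoint_left.1 hAd (hTA h7))
            · rcases Finset.mem_union.1 h7 with h8 | h8
              · exact h8
              · exact absurd (hTC h8) (Finset.disjoint_left.1 hBC h6)
      refine (Ex_mono h0.le h1 hpt).trans ?_
      rw [Ex_add, Ex_const]
      have := hstB.trans hstB'
      unfold Pr at this
      linarith
    · have : ∀ TB ⊆ SB, Ex p SC (fun TC => ind (badG l0 Y B θ d (TA ∪ (TB ∪ TC)))) ≤ 0 := by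
        intro TB hTB
        have h2 : ∀ TC ⊆ SC, ind (badG l0 Y B θ d (TA ∪ (TB ∪ TC))) ≤ 0 := by
          intro TC hTC
          rw [ind_not_of]
          rintro ⟨b1, b2, b3, _⟩
          apply hcond
          rw [htup TB hTB TC hTC] at b1 b3
          refine ⟨b1, ?_, ?_⟩
          · intro v hv l hl
            have := b2 v hv l hl
            have e : (Y l).filter (fun y => s(v, y) ∈ TA ∪ (TB ∪ TC)) =
                (Y l).filter (fun y => s(v, y) ∈ TA) := by
              apply Finset.filter_congr
              intro y hy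
              rw [hin TB hTB TC hTC]
              exact mem2 v (fun h => Finset.disjoint_left.1 hRX hv h) l hl y hy
            rw [e] at this
            exact this
          · intro τ hτ
            have := b3 τ hτ
            rw [hcl TB hTB TC hTC τ (Finset.mem_filter.1 hτ).1] at this
            exact this
        refine (Ex_mono h0.le h1 h2).trans (le_of_eq (Ex_const 0))
      refine (Ex_mono h0.le h1 this).trans ?_
      rw [Ex_const]
      positivity
  refine (Ex_mono h0.le h1 main).trans ?_
  rw [Ex_const]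

end Pool.Agent.H1.CC
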