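import Pool.Agent.H1.CC.Janson

/-!
Edge sets as finsets of `Sym2 V`; blocks of edges; elementary probabilities.
-/

set_option autoImplicit false
set_option linter.unusedSectionVars false

namespace Pool.Agent.H1.CC

open Finset

variable {V : Type*} [DecidableEq V]

/-- all pairs inside `K` -/
def ins (K : Finset V) : Finset (Sym2 V) := K.offDiag.image Sym2.mk.uncurry

/-- all pairs between `v` and `A` -/
def star (v : V) (A : Finset V) : Finset (Sym2 V) := A.image fun x => s(v, x)

lemma mem_ins {K : Finset V} {u v : V} : s(u, v) ∈ ins K ↔ u ∈ K ∧ v ∈ K ∧ u ≠ v := by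
  unfold ins
  rw [Finset.mem_image]
  constructor
  · rintro ⟨⟨a, b⟩, hab, h⟩
    rw [Finset.mem_offDiag] at hab
    have h' : s(a, b) = s(u, v) := h
    rcases Sym2.eq_iff.1 h' with ⟨rfl, rfl⟩ | ⟨rfl, rfl⟩
    · exact hab
    · exact ⟨hab.2.1, hab.1, hab.2.2.symm⟩
  · intro h
    exact ⟨(u, v), Finset.mem_offDiag.2 h, rfl⟩

lemma mem_ins' {K : Finset V} {e : Sym2 V} : e ∈ ins K ↔ ∃ u ∈ K, ∃ v ∈ K, u ≠ v ∧ e = s(u, v) := by
  constructor
  · intro h
    induction e using Sym2.ind with
    | _ u v =>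
      have := mem_ins.1 h
      exact ⟨u, this.1, v, this.2.1, this.2.2, rfl⟩
  · rintro ⟨u, hu, v, hv, huv, rfl⟩
    exact mem_ins.2 ⟨hu, hv, huv⟩

lemma card_ins (K : Finset V) : (ins K).card = K.card.choose 2 := Sym2.card_image_offDiag K

lemma ins_mono {K L : Finset V} (h : K ⊆ L) : ins K ⊆ ins L := by
  intro e he
  obtain ⟨u, hu, v, hv, huv, rfl⟩ := mem_ins'.1 he
  exact mem_ins.2 ⟨h hu, h hv, huv⟩

lemma ins_inter (K L : Finset V) : ins K ∩ ins L = ins (K ∩ L) := by
  ext e
  induction e using Sym2.ind with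
  | _ u v =>
    rw [Finset.mem_inter, mem_ins, mem_ins, mem_ins, Finset.mem_inter, Finset.mem_inter]
    tauto

lemma card_ins_union (K L : Finset V) :
    (ins K ∪ ins L).card + (K ∩ L).card.choose 2 = K.card.choose 2 + L.card.choose 2 := by
  rw [← card_ins (K ∩ L), ← ins_inter, Finset.card_union_add_card_inter, card_ins, card_ins]

lemma mem_star {v : V} {A : Finset V} {u w : V} :
    s(u, w) ∈ star v A ↔ (v = u ∧ w ∈ A) ∨ (v = w ∧ u ∈ A) := by
  unfold star
  rw [Finset.mem_image]
  constructor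
  · rintro ⟨x, hx, h⟩
    rcases Sym2.eq_iff.1 h with ⟨h1, h2⟩ | ⟨h1, h2⟩
    · left; exact ⟨h1, h2 ▸ hx⟩
    · right; exact ⟨h1, h2 ▸ hx⟩
  · rintro (⟨rfl, h⟩ | ⟨rfl, h⟩)
    · exact ⟨w, h, rfl⟩
    · exact ⟨u, h, Sym2.eq_swap⟩

lemma card_star {v : V} {A : Finset V} : (star v A).card = A.card := by
  unfold star
  apply Finset.card_image_of_injective
  intro x y h
  rcases Sym2.eq_iff.1 h with ⟨_, h2⟩ | ⟨h1, h2⟩
  · exact h2
  · exact h2.trans h1

lemma star_mono {v : V} {A B : Finset V} (h : A ⊆ B) : star v A ⊆ star v B :=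
  Finset.image_subset_image h

lemma star_subset_iff {v : V} {A : Finset V} {T : Finset (Sym2 V)} :
    star v A ⊆ T ↔ ∀ x ∈ A, s(v, x) ∈ T := by
  unfold star
  rw [Finset.image_subset_iff]

lemma star_disjoint_iff {v : V} {A : Finset V} {T : Finset (Sym2 V)} :
    Disjoint T (star v A) ↔ ∀ x ∈ A, s(v, x) ∉ T := by
  rw [Finset.disjoint_right]
  unfold star
  constructor
  · intro h x hx
    exact h (Finset.mem_image_of_mem _ hx)
  · intro h e he
    obtain ⟨x, hx, rfl⟩ := Finset.mem_image.1 he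
    exact h x hx

/-- stars of different centres outside `A` are disjoint -/
lemma star_disjoint_star {v w : V} {A B : Finset V} (hvw : v ≠ w) (hv : v ∉ B ∨ w ∉ A) :
    Disjoint (star v A) (star w B) := by
  rw [star_disjoint_iff]
  intro x hx h
  rw [mem_star] at h
  rcases h with ⟨h1, _⟩ | ⟨h1, h2⟩
  · exact hvw h1
  · rcases hv with h3 | h3
    · subst h1; exact h3 (by simpa using hx)
    · exact h3 h2

lemma star_disjoint_ins {v : V} {A K : Finset V} (hv : v ∉ K) : Disjoint (star v A) (ins K) := by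
  rw [Finset.disjoint_left]
  intro e he he'
  obtain ⟨x, _, rfl⟩ := Finset.mem_image.1 he
  exact hv (mem_ins.1 he').1

/-- all pairs between the disjoint sets `A` and `B` -/
def btw (A B : Finset V) : Finset (Sym2 V) := A.biUnion fun v => star v B

lemma mem_btw {A B : Finset V} {e : Sym2 V} : e ∈ btw A B ↔ ∃ u ∈ A, ∃ v ∈ B, e = s(u, v) := by
  unfold btw
  rw [Finset.mem_biUnion]
  constructor
  · rintro ⟨u, hu, h⟩
    obtain ⟨x, hx, rfl⟩ := Finset.mem_image.1 h
    exact ⟨u, hu, x, hx, rfl⟩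
  · rintro ⟨u, hu, v, hv, rfl⟩
    exact ⟨u, hu, Finset.mem_image_of_mem _ hv⟩

lemma card_btw {A B : Finset V} (h : Disjoint A B) : (btw A B).card = A.card * B.card := by
  unfold btw
  rw [Finset.card_biUnion]
  · rw [Finset.sum_congr rfl fun v _ => card_star, Finset.sum_const, smul_eq_mul]
  · intro v hv w hw hvw
    exact star_disjoint_star hvw (Or.inl (Finset.disjoint_left.1 h hv))

section

variable [Fintype V]

/-- all pairs of distinct vertices -/
def allE (V : Type*) [DecidableEq V] [Fintype V] : Finset (Sym2 V) := ins (Finset.univ : Finset V)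

lemma mem_allE {u v : V} : s(u, v) ∈ allE V ↔ u ≠ v := by
  unfold allE
  rw [mem_ins]
  simp

lemma ins_subset_allE (K : Finset V) : ins K ⊆ allE V := ins_mono (Finset.subset_univ K)

lemma star_subset_allE {v : V} {A : Finset V} (h : v ∉ A) : star v A ⊆ allE V := by
  rw [star_subset_iff]
  intro x hx
  rw [mem_allE]
  exact fun h' => h (h' ▸ hx)

lemma btw_subset_allE {A B : Finset V} (h : Disjoint A B) : btw A B ⊆ allE V := by
  apply Finset.biUnion_subset.2
  intro v hv
  exact star_subset_allE (Finset.disjoint_left.1 h hv)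

/-- common neighbours of `Q` in the graph with edge set `T` -/
def cn (T : Finset (Sym2 V)) (Q : Finset V) : Finset V :=
  Finset.univ.filter fun v => ∀ x ∈ Q, s(v, x) ∈ T

lemma mem_cn {T : Finset (Sym2 V)} {Q : Finset V} {v : V} :
    v ∈ cn T Q ↔ ∀ x ∈ Q, s(v, x) ∈ T := by
  unfold cn; simp

lemma cn_disjoint {T : Finset (Sym2 V)} (hT : T ⊆ allE V) (Q : Finset V) : Disjoint (cn T Q) Q := by
  rw [Finset.disjoint_left]
  intro v hv hvQ
  exact (mem_allE.1 (hT (mem_cn.1 hv v hvQ))) rfl

/-- G1: no `j` vertices have `m` common neighbours -/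
lemma prob_codegree {p : ℝ} (h0 : 0 ≤ p) (h1 : p ≤ 1) (j m : ℕ) :
    Pr p (allE V) (fun T => ∃ Q : Finset V, Q.card = j ∧ m ≤ (cn T Q).card) ≤
      (Fintype.card V : ℝ) ^ j * ((Fintype.card V : ℝ) ^ m / m.factorial * p ^ (j * m)) := by
  classical
  set n := Fintype.card V with hn
  have step1 : Pr p (allE V) (fun T => ∃ Q : Finset V, Q.card = j ∧ m ≤ (cn T Q).card) ≤
      Pr p (allE V) (fun T => ∃ x ∈ (Finset.univ.powersetCard j ×ˢ Finset.univ.powersetCard m :
        Finset (Finset V × Finset V)), Disjoint x.2 x.1 ∧ btw x.2 x.1 ⊆ T) := by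
    apply Pr_mono h0 h1
    rintro T hT ⟨Q, hQ, hm⟩
    obtain ⟨M, hM1, hM2⟩ := Finset.exists_subset_card_eq hm
    refine ⟨(Q, M), ?_, ?_, ?_⟩
    · rw [Finset.mem_product, Finset.mem_powersetCard, Finset.mem_powersetCard]
      exact ⟨⟨Finset.subset_univ _, hQ⟩, ⟨Finset.subset_univ _, hM2⟩⟩
    · exact Finset.disjoint_of_subset_left hM1 (cn_disjoint hT Q)
    · intro e he
      obtain ⟨u, hu, v, hv, rfl⟩ := mem_btw.1 he
      exact mem_cn.1 (hM1 hu) v hv
  refine step1.trans ((Pr_exists_le h0 h1 _ _).trans ?_)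
  have step2 : ∀ x ∈ (Finset.univ.powersetCard j ×ˢ Finset.univ.powersetCard m :
        Finset (Finset V × Finset V)),
      Pr p (allE V) (fun T => Disjoint x.2 x.1 ∧ btw x.2 x.1 ⊆ T) ≤ p ^ (j * m) := by
    intro x hx
    rw [Finset.mem_product, Finset.mem_powersetCard, Finset.mem_powersetCard] at hx
    by_cases hd : Disjoint x.2 x.1
    · have : Pr p (allE V) (fun T => Disjoint x.2 x.1 ∧ btw x.2 x.1 ⊆ T) ≤
          Pr p (allE V) (fun T => btw x.2 x.1 ⊆ T) := Pr_mono h0 h1 fun T _ h => h.2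
      refine this.trans (le_of_eq ?_)
      unfold Pr
      rw [Ex_subset (btw_subset_allE hd), card_btw hd, hx.1.2, hx.2.2, mul_comm]
    · have : Pr p (allE V) (fun T => Disjoint x.2 x.1 ∧ btw x.2 x.1 ⊆ T) ≤
          Pr p (allE V) (fun _ => False) := Pr_mono h0 h1 fun T _ h => hd h.1
      refine this.trans ?_
      unfold Pr
      simp only [ind_not_of (fun h : False => h)]
      rw [Ex_const]
      exact pow_nonneg h0 _
  refine (Finset.sum_le_sum step2).trans ?_
  rw [Finset.sum_const, nsmul_eq_mul, Finset.card_product, Finset.card_powersetCard,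
    Finset.card_powersetCard, Finset.card_univ, ← hn, Nat.cast_mul]
  have c1 : ((n.choose j : ℕ) : ℝ) ≤ (n : ℝ) ^ j := by
    exact_mod_cast Nat.choose_le_pow n j
  have c2 : ((n.choose m : ℕ) : ℝ) ≤ (n : ℝ) ^ m / m.factorial := Nat.choose_le_pow_div m n
  have hp : 0 ≤ p ^ (j * m) := pow_nonneg h0 _
  calc ((n.choose j : ℕ) : ℝ) * (n.choose m : ℕ) * p ^ (j * m) ≤
      (n : ℝ) ^ j * ((n : ℝ) ^ m / m.factorial) * p ^ (j * m) := by gcongr
    _ = _ := by ring

/-- number of edges of `T` between disjoint sets -/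
def eb (T : Finset (Sym2 V)) (A B : Finset V) : ℕ := (btw A B ∩ T).card

lemma prob_edges {p : ℝ} (h0 : 0 ≤ p) (h1 : p ≤ 1) {A B : Finset V} (hAB : Disjoint A B) (t : ℕ) :
    Pr p (allE V) (fun T => t ≤ eb T A B) ≤
      ((A.card * B.card : ℕ) : ℝ) ^ t / t.factorial * p ^ t := by
  classical
  have step1 : Pr p (allE V) (fun T => t ≤ eb T A B) ≤
      Pr p (allE V) (fun T => ∃ F ∈ (btw A B).powersetCard t, F ⊆ T) := by
    apply Pr_mono h0 h1
    intro T hT h
    obtain ⟨M, hM1, hM2⟩ := Finset.exists_subset_card_eq (s := btw A B ∩ T) h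
    exact ⟨M, Finset.mem_powersetCard.2 ⟨hM1.trans Finset.inter_subset_left, hM2⟩,
      hM1.trans Finset.inter_subset_right⟩
  refine step1.trans ((Pr_exists_le h0 h1 _ _).trans ?_)
  have step2 : ∀ F ∈ (btw A B).powersetCard t, Pr p (allE V) (fun T => F ⊆ T) ≤ p ^ t := by
    intro F hF
    rw [Finset.mem_powersetCard] at hF
    unfold Pr
    rw [Ex_subset (hF.1.trans (btw_subset_allE hAB)), hF.2]
  refine (Finset.sum_le_sum step2).trans ?_
  rw [Finset.sum_const, nsmul_eq_mul, Finset.card_powersetCard, card_btw hAB]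
  have c2 : (((A.card * B.card).choose t : ℕ) : ℝ) ≤ ((A.card * B.card : ℕ) : ℝ) ^ t / t.factorial :=
    Nat.choose_le_pow_div t _
  exact mul_le_mul_of_nonneg_right c2 (pow_nonneg h0 _)

/-- exponential moment of the number of common neighbours, then Markov -/
lemma prob_cn_large {p : ℝ} (h0 : 0 ≤ p) (h1 : p ≤ 1) (Q : Finset V) {u : ℝ} (hu : 0 ≤ u)
    (hu1 : u ≤ 1) (d : ℝ) :
    Pr p (allE V) (fun T => d ≤ ((cn T Q).card : ℝ)) ≤
      Real.exp (-(u * d) + (Fintype.card V : ℝ) * p ^ Q.card * (u + u ^ 2)) := by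
  classical
  set c : ℝ := Real.exp u - 1 with hc
  have hc0 : 0 ≤ c := by
    have := Real.add_one_le_exp u
    rw [hc]; linarith
  have hc1 : c ≤ u + u ^ 2 := by
    have := Real.exp_bound_div_one_sub_of_interval hu
    by_cases h : u < 1
    · have h2 := Real.exp_bound' hu hu1 (n := 2) (by norm_num)
      norm_num [Finset.sum_range_succ, Nat.factorial] at h2
      rw [hc]; nlinarith
    · have : u = 1 := by linarith
      subst this
      rw [hc]
      have := Real.exp_one_lt_d9
      norm_num at this ⊢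
      linarith
  -- Markov for exp (u |cn|)
  have step1 : Pr p (allE V) (fun T => d ≤ ((cn T Q).card : ℝ)) ≤
      Pr p (allE V) (fun T => Real.exp (u * d) ≤ Real.exp (u * ((cn T Q).card : ℝ))) := by
    apply Pr_mono h0 h1
    intro T _ h
    exact Real.exp_le_exp.2 (mul_le_mul_of_nonneg_left h hu)
  refine step1.trans ((markov h0 h1 (fun T _ => (Real.exp_pos _).le) (Real.exp_pos _)).trans ?_)
  have hexp : ∀ T ⊆ allE V, Real.exp (u * ((cn T Q).card : ℝ)) =
      ∏ v ∈ Finset.univ \ Q, (1 + c * ind (star v Q ⊆ T)) := by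
    intro T hT
    have e1 : cn T Q = (Finset.univ \ Q).filter fun v => star v Q ⊆ T := by
      ext v
      rw [mem_cn, Finset.mem_filter, Finset.mem_sdiff, star_subset_iff]
      constructor
      · intro h
        exact ⟨⟨Finset.mem_univ v, fun hv => (mem_allE.1 (hT (h v hv))) rfl⟩, h⟩
      · exact fun h => h.2
    rw [← Finset.prod_filter_mul_prod_filter_not (Finset.univ \ Q) (fun v => star v Q ⊆ T), ← e1]
    rw [Finset.prod_congr rfl (g := fun _ => Real.exp u), Finset.prod_const,
      Finset.prod_congr rfl (g := fun _ => (1:ℝ)), Finset.prod_const_one, mul_one,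
      ← Real.exp_nat_mul, mul_comm]
    · intro v hv
      rw [ind_not_of (Finset.mem_filter.1 hv).2]; ring
    · intro v hv
      rw [e1] at hv
      rw [ind_of (Finset.mem_filter.1 hv).2, hc]; ring
  rw [Ex_congr hexp]
  rw [Ex_prod_indep (Finset.univ \ Q) (fun v => star v Q)]
  · have e2 : ∀ v ∈ Finset.univ \ Q, Ex p (allE V) (fun T => 1 + c * ind (star v Q ⊆ T)) =
        1 + c * p ^ Q.card := by
      intro v hv
      rw [Ex_add, Ex_const, Ex_const_mul, Ex_subset (star_subset_allE (Finset.mem_sdiff.1 hv).2),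
        card_star]
    rw [Finset.prod_congr rfl e2, Finset.prod_const]
    have e3 : (1 + c * p ^ Q.card) ≤ Real.exp (c * p ^ Q.card) := by
      have := Real.add_one_le_exp (c * p ^ Q.card)
      linarith
    have hpq : 0 ≤ p ^ Q.card := pow_nonneg h0 _
    have e4 : (1 + c * p ^ Q.card) ^ (Finset.univ \ Q).card ≤
        Real.exp ((Fintype.card V : ℝ) * (c * p ^ Q.card)) := by
      calc (1 + c * p ^ Q.card) ^ (Finset.univ \ Q).card ≤
          (1 + c * p ^ Q.card) ^ Fintype.card V := by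
            apply pow_le_pow_right₀
            · have := mul_nonneg hc0 hpq; linarith
            · exact Finset.card_le_univ _
        _ ≤ (Real.exp (c * p ^ Q.card)) ^ Fintype.card V := by
            apply pow_le_pow_left₀ _ e3
            have := mul_nonneg hc0 hpq; linarith
        _ = _ := by rw [← Real.exp_nat_mul]
    rw [div_le_iff₀ (Real.exp_pos _), ← Real.exp_add]
    refine e4.trans (Real.exp_le_exp.2 ?_)
    have e5 : (Fintype.card V : ℝ) * (c * p ^ Q.card) ≤
        (Fintype.card V : ℝ) * ((u + u ^ 2) * p ^ Q.card) := by gcongr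
    nlinarith
  · intro v _ T
    beta_reduce
    congr 2
    apply ind_congr
    constructor
    · intro h; exact Finset.subset_inter h (Finset.Subset.refl _)
    · intro h; exact h.trans Finset.inter_subset_left
  · intro v hv
    exact star_subset_allE (Finset.mem_sdiff.1 hv).2
  · intro v hv w hw hvw
    exact star_disjoint_star hvw (Or.inl (Finset.mem_sdiff.1 hv).2)

end

end Pool.Agent.H1.CC
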