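import Pool.Agent.H1.CC.Basic

/-!
Janson's inequality (lower tail) for random subsets of a finite set, Boppana-Spencer style.
-/

set_option autoImplicit false
set_option linter.unusedSectionVars false

namespace Pool.Agent.H1.CC

open Finset

lemma one_sub_sum_le_prod {ι : Type*} (I : Finset ι) (a : ι → ℝ) (h0 : ∀ i ∈ I, 0 ≤ a i)
    (h1 : ∀ i ∈ I, a i ≤ 1) : 1 - ∑ i ∈ I, a i ≤ ∏ i ∈ I, (1 - a i) := by
  classical
  induction I using Finset.induction_on with
  | empty => simp
  | insert k I hk ih =>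
    have ih' := ih (fun i hi => h0 i (Finset.mem_insert_of_mem hi))
      (fun i hi => h1 i (Finset.mem_insert_of_mem hi))
    rw [Finset.sum_insert hk, Finset.prod_insert hk]
    have hk0 := h0 k (Finset.mem_insert_self k I)
    have hk1 := h1 k (Finset.mem_insert_self k I)
    have hs : 0 ≤ ∑ i ∈ I, a i := Finset.sum_nonneg fun i hi => h0 i (Finset.mem_insert_of_mem hi)
    have : (1 - a k) * (1 - ∑ i ∈ I, a i) ≤ (1 - a k) * ∏ i ∈ I, (1 - a i) :=
      mul_le_mul_of_nonneg_left ih' (by linarith)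
    nlinarith

section

variable {E : Type*} [DecidableEq E] {p : ℝ} {S : Finset E}
variable {ι : Type*} [DecidableEq ι]

/-- `∏ (1 - r 1[T ∩ F i = ∅])` -/
noncomputable def gg (r : ℝ) (F : ι → Finset E) (I : Finset ι) (T : Finset E) : ℝ :=
  ∏ i ∈ I, (1 - r * ind (Disjoint T (F i)))

lemma gg_factor_nonneg {r : ℝ} (hr0 : 0 ≤ r) (hr1 : r ≤ 1) (P : Prop) :
    0 ≤ 1 - r * ind P := by
  have h1 := ind_le_one P
  have h2 := ind_nonneg P
  nlinarith

lemma gg_nonneg {r : ℝ} (hr0 : 0 ≤ r) (hr1 : r ≤ 1) (F : ι → Finset E) (I : Finset ι)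
    (T : Finset E) : 0 ≤ gg r F I T :=
  Finset.prod_nonneg fun _ _ => gg_factor_nonneg hr0 hr1 _

lemma gg_mono {r : ℝ} (hr0 : 0 ≤ r) (hr1 : r ≤ 1) (F : ι → Finset E) (I : Finset ι)
    {T T' : Finset E} (h : T ⊆ T') : gg r F I T ≤ gg r F I T' := by
  apply Finset.prod_le_prod
  · intro i _
    exact gg_factor_nonneg hr0 hr1 _
  · intro i _
    have : ind (Disjoint T' (F i)) ≤ ind (Disjoint T (F i)) :=
      ind_mono fun hd => Finset.disjoint_of_subset_left h hd
    nlinarith

lemma gg_dep (r : ℝ) (F : ι → Finset E) (I : Finset ι) : Dep (gg r F I) (I.biUnion F) := by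
  intro T
  apply Finset.prod_congr rfl
  intro i hi
  congr 2
  apply ind_congr
  rw [Finset.disjoint_iff_inter_eq_empty, Finset.disjoint_iff_inter_eq_empty, Finset.inter_assoc,
    Finset.inter_eq_right.2 (Finset.subset_biUnion_of_mem F hi)]

lemma gg_anti {r : ℝ} (hr0 : 0 ≤ r) (hr1 : r ≤ 1) (F : ι → Finset E) {I J : Finset ι}
    (h : I ⊆ J) (T : Finset E) : gg r F J T ≤ gg r F I T := by
  unfold gg
  rw [← Finset.prod_sdiff h]
  have h1 : ∏ i ∈ J \ I, (1 - r * ind (Disjoint T (F i))) ≤ 1 := by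
    apply Finset.prod_le_one
    · intro i _
      exact gg_factor_nonneg hr0 hr1 _
    · intro i _
      have := ind_nonneg (Disjoint T (F i))
      nlinarith
  have h2 := gg_nonneg hr0 hr1 F I T
  unfold gg at h2
  nlinarith

lemma janson_gen (h0 : 0 ≤ p) (h1 : p ≤ 1) (I : Finset ι) (F : ι → Finset E)
    (hF : ∀ i ∈ I, F i ⊆ S) {r : ℝ} (hr0 : 0 ≤ r) (hr1 : r ≤ 1) :
    Ex p S (gg r F I) ≤ Real.exp (-(r * ∑ i ∈ I, (1 - p) ^ (F i).card) + r ^ 2 / 2 *
      ∑ i ∈ I, ∑ j ∈ I,
        (1 - p) ^ (F i ∪ F j).card * ind (i ≠ j ∧ ¬ Disjoint (F i) (F j))) := by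
  induction I using Finset.induction_on with
  | empty =>
    have : gg r F ∅ = fun _ => 1 := by funext T; simp [gg]
    rw [this, Ex_const]
    simp
  | insert k I hk ih =>
    have hFk : F k ⊆ S := hF k (Finset.mem_insert_self k I)
    have hFI : ∀ i ∈ I, F i ⊆ S := fun i hi => hF i (Finset.mem_insert_of_mem hi)
    have ih' := ih hFI
    classical
    set N := I.filter fun j => Disjoint (F k) (F j) with hN
    set D := I.filter fun j => ¬ Disjoint (F k) (F j) with hD
    set Q : ℝ := (1 - p) ^ (F k).card with hQ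
    set δ : ℝ := ∑ j ∈ D, (1 - p) ^ (F k ∪ F j).card with hδ
    have hS0 : 0 ≤ Ex p S (gg r F I) := Ex_nonneg h0 h1 fun T _ => gg_nonneg hr0 hr1 F I T
    have hN0 : 0 ≤ Ex p S (gg r F N) := Ex_nonneg h0 h1 fun T _ => gg_nonneg hr0 hr1 F N T
    have hSN : Ex p S (gg r F I) ≤ Ex p S (gg r F N) :=
      Ex_mono h0 h1 fun T _ => gg_anti hr0 hr1 F (Finset.filter_subset _ _) T
    have e1 : Ex p S (gg r F (insert k I)) = Ex p S (gg r F I) -
        r * Ex p S (fun T => gg r F I T * ind (Disjoint T (F k))) := by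
      rw [← Ex_const_mul, ← Ex_sub]
      congr 1
      funext T
      unfold gg
      rw [Finset.prod_insert hk]
      ring
    have e2 : Ex p S (fun T => gg r F N T * ind (Disjoint T (F k))) = Ex p S (gg r F N) * Q := by
      rw [Ex_mul_indep (gg_dep r F N) (B := F k), Ex_disjoint hFk]
      · intro T
        apply ind_congr
        rw [Finset.disjoint_iff_inter_eq_empty, Finset.disjoint_iff_inter_eq_empty,
          Finset.inter_assoc, Finset.inter_self]
      · rw [Finset.disjoint_biUnion_left]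
        intro i hi
        exact (Finset.mem_filter.1 hi).2.symm
      · exact Finset.biUnion_subset.2 fun i hi => hFI i (Finset.mem_filter.1 hi).1
      · exact hFk
    have e3 : ∀ j ∈ D, Ex p S (fun T => gg r F N T * ind (Disjoint T (F k ∪ F j))) ≤
        Ex p S (gg r F N) * (1 - p) ^ (F k ∪ F j).card := by
      intro j hj
      rw [← Ex_disjoint (S := S) (Finset.union_subset hFk (hFI j (Finset.mem_filter.1 hj).1))]
      apply harris h0 h1
      · intro T T' h
        exact gg_mono hr0 hr1 F N h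
      · intro T T' h
        exact ind_mono fun hd => Finset.disjoint_of_subset_left h hd
    have step : ∀ T, gg r F N T * ind (Disjoint T (F k)) -
        r * ∑ j ∈ D, gg r F N T * ind (Disjoint T (F k ∪ F j)) ≤
        gg r F I T * ind (Disjoint T (F k)) := by
      intro T
      have hsplit : gg r F I T = gg r F N T * gg r F D T := by
        unfold gg
        rw [hN, hD]
        exact (Finset.prod_filter_mul_prod_filter_not I _ _).symm
      have hD1 : 1 - ∑ j ∈ D, r * ind (Disjoint T (F j)) ≤ gg r F D T := by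
        unfold gg
        apply one_sub_sum_le_prod
        · intro i _
          exact mul_nonneg hr0 (ind_nonneg _)
        · intro i _
          have := gg_factor_nonneg hr0 hr1 (Disjoint T (F i))
          linarith
      have hkj : ∀ j, ind (Disjoint T (F k ∪ F j)) =
          ind (Disjoint T (F k)) * ind (Disjoint T (F j)) := by
        intro j
        rw [← ind_and]
        exact ind_congr Finset.disjoint_union_right
      simp only [hkj]
      have hnn := gg_nonneg hr0 hr1 F N T
      have hik := ind_nonneg (Disjoint T (F k))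
      have e : gg r F N T * ind (Disjoint T (F k)) -
          r * ∑ j ∈ D, gg r F N T * (ind (Disjoint T (F k)) * ind (Disjoint T (F j))) =
          gg r F N T * ind (Disjoint T (F k)) * (1 - ∑ j ∈ D, r * ind (Disjoint T (F j))) := by
        rw [mul_sub, mul_one, Finset.mul_sum, Finset.mul_sum]
        congr 1
        exact Finset.sum_congr rfl fun j _ => by ring
      rw [e, hsplit]
      have := mul_le_mul_of_nonneg_left hD1 (mul_nonneg hnn hik)
      linarith
    have e4 : Ex p S (gg r F N) * (Q - r * δ) ≤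
        Ex p S (fun T => gg r F I T * ind (Disjoint T (F k))) := by
      have h3 := Ex_mono (p := p) (S := S) h0 h1 (fun T _ => step T)
      rw [Ex_sub, Ex_const_mul, Ex_sum, e2] at h3
      have h4 : ∑ j ∈ D, Ex p S (fun T => gg r F N T * ind (Disjoint T (F k ∪ F j))) ≤
          Ex p S (gg r F N) * δ := by
        rw [hδ, Finset.mul_sum]
        exact Finset.sum_le_sum e3
      have h5 := mul_le_mul_of_nonneg_left h4 hr0
      linarith
    have e5 : 0 ≤ Ex p S (fun T => gg r F I T * ind (Disjoint T (F k))) :=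
      Ex_nonneg h0 h1 fun T _ => mul_nonneg (gg_nonneg hr0 hr1 F I T) (ind_nonneg _)
    have hstep : Ex p S (gg r F (insert k I)) ≤
        Ex p S (gg r F I) * (1 - r * Q + r ^ 2 * δ) := by
      rw [e1]
      by_cases h5 : 0 ≤ Q - r * δ
      · have h6 : Ex p S (gg r F I) * (Q - r * δ) ≤ Ex p S (gg r F N) * (Q - r * δ) :=
          mul_le_mul_of_nonneg_right hSN h5
        have h7 := mul_le_mul_of_nonneg_left (h6.trans e4) hr0
        nlinarith
      · push Not at h5
        have h6 := mul_nonneg hr0 e5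
        have h7 : Ex p S (gg r F I) * (r * (Q - r * δ)) ≤ 0 :=
          mul_nonpos_of_nonneg_of_nonpos hS0 (mul_nonpos_of_nonneg_of_nonpos hr0 h5.le)
        nlinarith
    have h3 : 1 - r * Q + r ^ 2 * δ ≤ Real.exp (-(r * Q) + r ^ 2 * δ) := by
      have := Real.add_one_le_exp (-(r * Q) + r ^ 2 * δ)
      linarith
    have h4 : Ex p S (gg r F (insert k I)) ≤
        Ex p S (gg r F I) * Real.exp (-(r * Q) + r ^ 2 * δ) :=
      hstep.trans (mul_le_mul_of_nonneg_left h3 hS0)
    refine h4.trans ((mul_le_mul_of_nonneg_right ih' (Real.exp_pos _).le).trans (le_of_eq ?_))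
    rw [← Real.exp_add]
    congr 1
    set G : ι → ι → ℝ := fun i j =>
      (1 - p) ^ (F i ∪ F j).card * ind (i ≠ j ∧ ¬ Disjoint (F i) (F j)) with hG
    have hsymm : ∀ i j, G i j = G j i := by
      intro i j
      simp only [hG]
      rw [Finset.union_comm (F i) (F j)]
      congr 1
      apply ind_congr
      constructor
      · exact fun h => ⟨h.1.symm, fun h' => h.2 h'.symm⟩
      · exact fun h => ⟨h.1.symm, fun h' => h.2 h'.symm⟩
    have hkk : G k k = 0 := by
      simp only [hG]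
      rw [ind_not_of (fun h => h.1 rfl), mul_zero]
    have hδ2 : δ = ∑ j ∈ I, G k j := by
      rw [hδ, hD, Finset.sum_filter]
      apply Finset.sum_congr rfl
      intro j hj
      have hkj : k ≠ j := fun h => hk (h ▸ hj)
      simp only [hG]
      by_cases h : Disjoint (F k) (F j)
      · rw [ind_not_of (fun h' => h'.2 h)]
        simp [h]
      · rw [ind_of ⟨hkj, h⟩]
        simp [h]
    have e6 : ∑ i ∈ insert k I, ∑ j ∈ insert k I, G i j =
        (∑ i ∈ I, ∑ j ∈ I, G i j) + 2 * δ := by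
      rw [Finset.sum_insert hk, Finset.sum_insert hk, hkk]
      have e7 : ∑ i ∈ I, ∑ j ∈ insert k I, G i j = ∑ i ∈ I, (G i k + ∑ j ∈ I, G i j) :=
        Finset.sum_congr rfl fun i _ => Finset.sum_insert hk
      rw [e7, Finset.sum_add_distrib]
      have e8 : ∑ i ∈ I, G i k = δ := by
        rw [hδ2]
        exact Finset.sum_congr rfl fun i _ => hsymm i k
      rw [e8, ← hδ2]
      ring
    change -(r * ∑ i ∈ I, (1 - p) ^ (F i).card) + r ^ 2 / 2 * ∑ i ∈ I, ∑ j ∈ I, G i j +
      (-(r * Q) + r ^ 2 * δ) = -(r * ∑ i ∈ insert k I, (1 - p) ^ (F i).card) + r ^ 2 / 2 *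
      ∑ i ∈ insert k I, ∑ j ∈ insert k I, G i j
    rw [e6, Finset.sum_insert hk]
    ring

lemma gg_eq (r : ℝ) (F : ι → Finset E) (I : Finset ι) (T : Finset E) [DecidablePred fun i => Disjoint T (F i)] :
    gg r F I T = (1 - r) ^ (I.filter fun i => Disjoint T (F i)).card := by
  unfold gg
  rw [← Finset.prod_filter_mul_prod_filter_not I (fun i => Disjoint T (F i))]
  rw [Finset.prod_congr rfl (g := fun _ => 1 - r), Finset.prod_const]
  · rw [Finset.prod_congr rfl (g := fun _ => (1 : ℝ)), Finset.prod_const_one, mul_one]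
    intro i hi
    rw [ind_not_of (Finset.mem_filter.1 hi).2]
    ring
  · intro i hi
    rw [ind_of (Finset.mem_filter.1 hi).2]
    ring

/-- Janson's inequality, lower tail for the number of sets `F i` avoided by the random set -/
lemma janson_avoid (h0 : 0 ≤ p) (h1 : p ≤ 1) (I : Finset ι) (F : ι → Finset E)
    (hF : ∀ i ∈ I, F i ⊆ S) {μ D : ℝ} (hμ : μ ≤ ∑ i ∈ I, (1 - p) ^ (F i).card) (hμ0 : 0 < μ)
    (hD1 : μ ≤ D)
    (hD2 : ∑ i ∈ I, ∑ j ∈ I,
        (1 - p) ^ (F i ∪ F j).card * ind (i ≠ j ∧ ¬ Disjoint (F i) (F j)) ≤ D) :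
    Pr p S (fun T => (((I.filter fun i => Disjoint T (F i)).card : ℕ) : ℝ) ≤ μ / 4) ≤
      Real.exp (-(μ ^ 2 / (8 * D))) := by
  have hD0 : 0 < D := lt_of_lt_of_le hμ0 hD1
  set r : ℝ := μ / (2 * D) with hr
  have hr0 : 0 < r := by positivity
  have hr2 : r ≤ 1 / 2 := by
    rw [hr, div_le_iff₀ (by positivity)]
    linarith
  have h3 := janson_gen (S := S) h0 h1 I F hF hr0.le (by linarith)
  have h4 : Ex p S (gg r F I) ≤ Real.exp (-(r * μ) + r ^ 2 / 2 * D) := by
    refine h3.trans (Real.exp_le_exp.2 ?_)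
    have h5 := mul_le_mul_of_nonneg_left hμ hr0.le
    have h6 := mul_le_mul_of_nonneg_left hD2 (by positivity : (0:ℝ) ≤ r ^ 2 / 2)
    linarith
  -- lower bound of `gg` on the event
  have h5 : ∀ T ⊆ S, ind ((((I.filter fun i => Disjoint T (F i)).card : ℕ) : ℝ) ≤ μ / 4) *
      Real.exp (-(μ / 4 * (r + r ^ 2))) ≤ gg r F I T := by
    intro T _
    by_cases h : (((I.filter fun i => Disjoint T (F i)).card : ℕ) : ℝ) ≤ μ / 4
    · rw [ind_of h, one_mul, gg_eq]
      set m := (I.filter fun i => Disjoint T (F i)).card with hm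
      have h6 : Real.exp (-(r + r ^ 2)) ≤ 1 - r := by
        have h7 : 1 ≤ (1 - r) * (1 + (r + r ^ 2) + (r + r ^ 2) ^ 2 / 2) := by
          have k1 : (1 - r) * (1 + (r + r ^ 2) + (r + r ^ 2) ^ 2 / 2) - 1 =
              r ^ 2 / 2 * (1 - r - r ^ 2 - r ^ 3) := by ring
          have k2 : 0 ≤ 1 - r - r ^ 2 - r ^ 3 := by
            have : r ^ 2 ≤ 1 / 4 := by nlinarith
            have : r ^ 3 ≤ 1 / 8 := by nlinarith [sq_nonneg r]
            linarith
          have k3 := mul_nonneg (by positivity : (0:ℝ) ≤ r ^ 2 / 2) k2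
          linarith
        have h8 : 1 + (r + r ^ 2) + (r + r ^ 2) ^ 2 / 2 ≤ Real.exp (r + r ^ 2) :=
          Real.quadratic_le_exp_of_nonneg (by positivity)
        rw [Real.exp_neg, inv_le_comm₀ (Real.exp_pos _) (by linarith)]
        rw [inv_le_iff_one_le_mul₀ (by linarith)]
        have h9 : (1 - r) * (1 + (r + r ^ 2) + (r + r ^ 2) ^ 2 / 2) ≤
            (1 - r) * Real.exp (r + r ^ 2) :=
          mul_le_mul_of_nonneg_left h8 (by linarith)
        linarith
      calc Real.exp (-(μ / 4 * (r + r ^ 2))) ≤ Real.exp (-(m * (r + r ^ 2))) := by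
            apply Real.exp_le_exp.2
            have : (m : ℝ) * (r + r ^ 2) ≤ μ / 4 * (r + r ^ 2) :=
              mul_le_mul_of_nonneg_right h (by positivity)
            linarith
        _ = (Real.exp (-(r + r ^ 2))) ^ m := by
            rw [← Real.exp_nat_mul]
            congr 1
            ring
        _ ≤ (1 - r) ^ m := pow_le_pow_left₀ (Real.exp_pos _).le h6 m
    · rw [ind_not_of h, zero_mul]
      exact gg_nonneg hr0.le (by linarith) F I T
  have h6 := Ex_mono (S := S) h0 h1 h5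
  rw [Ex_mul_const] at h6
  have h7 : Pr p S (fun T => (((I.filter fun i => Disjoint T (F i)).card : ℕ) : ℝ) ≤ μ / 4) *
      Real.exp (-(μ / 4 * (r + r ^ 2))) ≤ Real.exp (-(r * μ) + r ^ 2 / 2 * D) := h6.trans h4
  have h8 : Pr p S (fun T => (((I.filter fun i => Disjoint T (F i)).card : ℕ) : ℝ) ≤ μ / 4) ≤
      Real.exp (-(r * μ) + r ^ 2 / 2 * D + μ / 4 * (r + r ^ 2)) := by
    rw [Real.exp_add _ (μ / 4 * (r + r ^ 2))]
    rw [Real.exp_neg, ← div_eq_mul_inv, div_le_iff₀ (Real.exp_pos _)] at h7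
    exact h7
  refine h8.trans (Real.exp_le_exp.2 ?_)
  have h9 : r * D = μ / 2 := by
    rw [hr]; field_simp
  have h10 : μ ^ 2 / (8 * D) = r * μ / 4 := by
    rw [hr]; field_simp; ring
  rw [h10]
  have h11 : r ^ 2 / 2 * D = r * μ / 4 := by
    have : r ^ 2 / 2 * D = r / 2 * (r * D) := by ring
    rw [this, h9]; ring
  rw [h11]
  nlinarith [mul_pos hr0 hμ0]

/-- Janson's inequality, lower tail for the number of sets `F i` contained in the random set -/
lemma janson_contain (h0 : 0 ≤ p) (h1 : p ≤ 1) (I : Finset ι) (F : ι → Finset E)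
    (hF : ∀ i ∈ I, F i ⊆ S) {μ D : ℝ} (hμ : μ ≤ ∑ i ∈ I, p ^ (F i).card) (hμ0 : 0 < μ)
    (hD1 : μ ≤ D)
    (hD2 : ∑ i ∈ I, ∑ j ∈ I,
        p ^ (F i ∪ F j).card * ind (i ≠ j ∧ ¬ Disjoint (F i) (F j)) ≤ D) :
    Pr p S (fun T => ∀ i ∈ I, ¬ F i ⊆ T) ≤ Real.exp (-(μ ^ 2 / (8 * D))) := by
  unfold Pr
  rw [Ex_compl]
  have h2 := janson_avoid (p := 1 - p) (S := S) (by linarith) (by linarith) I F hF
    (μ := μ) (D := D) (by simpa using hμ) hμ0 hD1 (by simpa using hD2)
  refine le_trans ?_ h2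
  apply Ex_mono (by linarith) (by linarith)
  intro T hT
  apply ind_mono
  intro h
  have : (I.filter fun i => Disjoint T (F i)) = ∅ := by
    rw [Finset.filter_eq_empty_iff]
    intro i hi hd
    apply h i hi
    intro e he
    exact Finset.mem_sdiff.2 ⟨hF i hi he, fun h' => Finset.disjoint_left.1 hd h' he⟩
  beta_reduce
  rw [this]
  simp
  positivity

end

end Pool.Agent.H1.CC
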