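import Pool.Agent.H1.CC.Det

/-!
Union bounds of the lower bound.
-/

set_option autoImplicit false
set_option linter.unusedSectionVars false

namespace Pool.Agent.H1.CC

open Finset

lemma pow_fact_le {z : ℝ} {t : ℕ} (hz : 0 ≤ z) (h : Real.exp 2 * z ≤ t) :
    z ^ t / t.factorial ≤ Real.exp (-(t : ℝ)) := by
  rcases Nat.eq_zero_or_pos t with rfl | ht
  · simp
  have ht' : (0:ℝ) < t := by exact_mod_cast ht
  have h1 : (t:ℝ) ^ t / t.factorial ≤ Real.exp t := Real.pow_div_factorial_le_exp _ ht'.le t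
  have h2 : z ≤ Real.exp (-2) * t := by
    rw [Real.exp_neg, inv_mul_eq_div, le_div_iff₀ (Real.exp_pos _)]
    linarith
  calc z ^ t / t.factorial ≤ (Real.exp (-2) * t) ^ t / t.factorial := by gcongr
    _ = (Real.exp (-2)) ^ t * ((t:ℝ) ^ t / t.factorial) := by rw [mul_pow]; ring
    _ ≤ (Real.exp (-2)) ^ t * Real.exp t := by gcongr
    _ = Real.exp (-(t : ℝ)) := by
        rw [← Real.exp_nat_mul, ← Real.exp_add]; congr 1; ring

variable {V : Type*} [DecidableEq V] [Fintype V]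

lemma prob_G2 {p : ℝ} (h0 : 0 < p) (h1 : p ≤ 1) {β : ℝ} (hβ : 0 ≤ β) :
    Pr p (allE V) (fun T => ∃ S Z : Finset V, Disjoint S Z ∧
      Real.exp 2 * p * S.card * Z.card + β * (S.card + Z.card) < ((eb T S Z : ℕ) : ℝ)) ≤
    ((1 + Real.exp (-β)) ^ Fintype.card V - 1) ^ 2 := by
  classical
  set c : ℝ := Real.exp (-β) with hc
  have hc0 : 0 < c := Real.exp_pos _
  set NE : Finset (Finset V) := Finset.univ.filter fun S => S.Nonempty with hNE
  have hsum : ∑ S ∈ NE, c ^ S.card = (1 + c) ^ Fintype.card V - 1 := by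
    have e1 := Fintype.sum_pow_mul_eq_add_pow V c (1:ℝ)
    simp only [one_pow, mul_one] at e1
    rw [add_comm, ← e1, ← Finset.sum_filter_add_sum_filter_not Finset.univ
      (fun S : Finset V => S.Nonempty), ← hNE]
    have e2 : (Finset.univ.filter fun S : Finset V => ¬ S.Nonempty) = {∅} := by
      ext S
      simp
    rw [e2]
    simp
  have step1 : Pr p (allE V) (fun T => ∃ S Z : Finset V, Disjoint S Z ∧
      Real.exp 2 * p * S.card * Z.card + β * (S.card + Z.card) < ((eb T S Z : ℕ) : ℝ)) ≤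
      Pr p (allE V) (fun T => ∃ x ∈ NE ×ˢ NE, Disjoint x.1 x.2 ∧
      Real.exp 2 * p * x.1.card * x.2.card + β * (x.1.card + x.2.card) <
        ((eb T x.1 x.2 : ℕ) : ℝ)) := by
    apply Pr_mono h0.le h1
    rintro T _ ⟨S, Z, hd, h⟩
    have hpos : 0 < eb T S Z := by
      have : (0:ℝ) < ((eb T S Z : ℕ) : ℝ) := lt_of_le_of_lt (by positivity) h
      exact_mod_cast this
    refine ⟨(S, Z), ?_, hd, h⟩
    rw [Finset.mem_product, hNE, Finset.mem_filter, Finset.mem_filter]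
    unfold eb at hpos
    obtain ⟨e, he⟩ := Finset.card_pos.1 hpos
    obtain ⟨u, hu, v, hv, _⟩ := mem_btw.1 (Finset.mem_inter.1 he).1
    exact ⟨⟨Finset.mem_univ _, ⟨u, hu⟩⟩, ⟨Finset.mem_univ _, ⟨v, hv⟩⟩⟩
  refine step1.trans ((Pr_exists_le h0.le h1 _ _).trans ?_)
  have step2 : ∀ x ∈ NE ×ˢ NE, Pr p (allE V) (fun T => Disjoint x.1 x.2 ∧
      Real.exp 2 * p * x.1.card * x.2.card + β * (x.1.card + x.2.card) <
        ((eb T x.1 x.2 : ℕ) : ℝ)) ≤ c ^ x.1.card * c ^ x.2.card := by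
    rintro ⟨S, Z⟩ _
    by_cases hd : Disjoint S Z
    · set y : ℝ := Real.exp 2 * p * S.card * Z.card + β * (S.card + Z.card) with hy
      have hy0 : 0 ≤ y := by positivity
      set t := ⌊y⌋₊ + 1 with ht
      have hyt : y < t := by rw [ht]; push_cast; exact Nat.lt_floor_add_one y
      have e1 : Pr p (allE V) (fun T => Disjoint S Z ∧ y < ((eb T S Z : ℕ) : ℝ)) ≤
          Pr p (allE V) (fun T => t ≤ eb T S Z) := by
        apply Pr_mono h0.le h1
        rintro T _ ⟨_, h⟩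
        rw [ht, Nat.succ_le_iff]
        have h2 : ((⌊y⌋₊ : ℕ) : ℝ) < ((eb T S Z : ℕ) : ℝ) := (Nat.floor_le hy0).trans_lt h
        exact_mod_cast h2
      refine e1.trans ((prob_edges h0.le h1 hd t).trans ?_)
      have e2 : (((S.card * Z.card : ℕ) : ℝ) ^ t / t.factorial * p ^ t) =
          (((S.card * Z.card : ℕ) : ℝ) * p) ^ t / t.factorial := by
        rw [mul_pow]; ring
      rw [e2]
      have e3 := pow_fact_le (z := ((S.card * Z.card : ℕ) : ℝ) * p) (t := t) (by positivity)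
        (by
          push_cast
          have : β * ((S.card : ℝ) + Z.card) ≥ 0 := by positivity
          have h5 : Real.exp 2 * ((S.card : ℝ) * Z.card * p) =
            Real.exp 2 * p * S.card * Z.card := by ring
          rw [h5]
          have h6 : y < (t:ℝ) := hyt
          linarith)
      refine e3.trans ?_
      rw [hc, ← Real.exp_nat_mul, ← Real.exp_nat_mul, ← Real.exp_add]
      apply Real.exp_le_exp.2
      have h7 : 0 ≤ Real.exp 2 * p * S.card * Z.card := by positivity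
      have h8 : β * ((S.card : ℝ) + Z.card) ≤ t := by linarith
      show -(t:ℝ) ≤ (S.card : ℝ) * -β + (Z.card : ℝ) * -β
      linarith
    · have : Pr p (allE V) (fun T => Disjoint S Z ∧
        Real.exp 2 * p * S.card * Z.card + β * (S.card + Z.card) < ((eb T S Z : ℕ) : ℝ)) ≤
          Pr p (allE V) (fun _ => False) := Pr_mono h0.le h1 fun T _ h => hd h.1
      refine this.trans ?_
      unfold Pr
      simp only [ind_not_of (fun h : False => h)]
      rw [Ex_const]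
      positivity
  refine (Finset.sum_le_sum step2).trans (le_of_eq ?_)
  rw [Finset.sum_product, sq, ← hsum, Finset.sum_mul_sum]

lemma pow_le_exp_log {N : ℕ} {x : ℝ} (hx : Real.log ((N:ℝ) + 1) ≤ x) (t : ℕ) :
    ((N:ℝ) + 1) ^ t ≤ Real.exp (x * t) := by
  have h1 : (N:ℝ) + 1 ≤ Real.exp x := by
    rw [← Real.log_le_iff_le_exp (by positivity)]; exact hx
  calc ((N:ℝ) + 1) ^ t ≤ (Real.exp x) ^ t := by gcongr
    _ = _ := by rw [← Real.exp_nat_mul]; congr 1; ring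

lemma prob_G5 {p : ℝ} (h0 : 0 < p) (h1 : p ≤ 1) {x : ℝ}
    (hx : Real.log ((Fintype.card V : ℝ) + 1) ≤ x) {k M : ℕ}
    (hkM : 2 * (k + M) ≤ Fintype.card V) :
    Pr p (allE V) (fun T => ∃ W : Finset V, W.card ≤ k ∧ (unc T W).card ≤ M) ≤
      Real.exp (x * (k + M) - (1 - p) ^ k * Fintype.card V / 2) := by
  classical
  set N := Fintype.card V with hN
  have hp1 : 0 ≤ 1 - p := by linarith
  have step1 : Pr p (allE V) (fun T => ∃ W : Finset V, W.card ≤ k ∧ (unc T W).card ≤ M) ≤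
      Pr p (allE V) (fun T => ∃ W ∈ Finset.univ.filter (fun Z : Finset V => Z.card ≤ k),
        (unc T W).card ≤ M) := by
    apply Pr_mono h0.le h1
    rintro T _ ⟨W, hW, h⟩
    exact ⟨W, Finset.mem_filter.2 ⟨Finset.mem_univ _, hW⟩, h⟩
  refine step1.trans ((Pr_exists_le h0.le h1 _ _).trans ?_)
  have step2 : ∀ W ∈ Finset.univ.filter (fun Z : Finset V => Z.card ≤ k),
      Pr p (allE V) (fun T => (unc T W).card ≤ M) ≤
        Real.exp (x * M - (1 - p) ^ k * N / 2) := by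
    intro W hW
    have hWk : W.card ≤ k := (Finset.mem_filter.1 hW).2
    refine (prob_unc h0.le h1 W M (by omega)).trans ?_
    rw [← hN]
    set z : ℝ := (1 - p) ^ k with hz
    have hz0 : 0 ≤ z := pow_nonneg hp1 _
    have hzW : z ≤ (1 - p) ^ W.card := pow_le_pow_of_le_one hp1 (by linarith) hWk
    have hle1 : (1 - p) ^ W.card ≤ 1 := pow_le_one₀ hp1 (by linarith)
    have h2 : 1 - (1 - p) ^ W.card ≤ Real.exp (-z) := by
      have := Real.add_one_le_exp (-z)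
      linarith
    have h3 : (1 - (1 - p) ^ W.card) ^ (N - W.card - M) ≤ Real.exp (-(z * N / 2)) := by
      calc (1 - (1 - p) ^ W.card) ^ (N - W.card - M) ≤ (Real.exp (-z)) ^ (N - W.card - M) :=
            pow_le_pow_left₀ (by linarith) h2 _
        _ = Real.exp (-(z * ((N - W.card - M : ℕ) : ℝ))) := by
            rw [← Real.exp_nat_mul]; congr 1; ring
        _ ≤ _ := by
            apply Real.exp_le_exp.2
            have : (N:ℝ) / 2 ≤ ((N - W.card - M : ℕ) : ℝ) := by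
              have h4 : N ≤ 2 * (N - W.card - M) := by omega
              have h5 : (N:ℝ) ≤ 2 * ((N - W.card - M : ℕ) : ℝ) := by exact_mod_cast h4
              linarith
            have := mul_le_mul_of_nonneg_left this hz0
            linarith
    calc ((N:ℝ) + 1) ^ M * (1 - (1 - p) ^ W.card) ^ (N - W.card - M) ≤
        Real.exp (x * M) * Real.exp (-(z * N / 2)) := by
          apply mul_le_mul (pow_le_exp_log hx M) h3 (pow_nonneg (by linarith) _)
            (Real.exp_pos _).le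
      _ = _ := by rw [← Real.exp_add]; congr 1
  refine (Finset.sum_le_sum step2).trans ?_
  rw [Finset.sum_const, nsmul_eq_mul]
  have h6 : (((Finset.univ.filter fun Z : Finset V => Z.card ≤ k).card : ℕ) : ℝ) ≤
      Real.exp (x * k) := by
    refine le_trans ?_ (pow_le_exp_log hx k)
    exact_mod_cast card_small (V := V) k
  calc _ ≤ Real.exp (x * k) * Real.exp (x * M - (1 - p) ^ k * N / 2) := by gcongr
    _ = _ := by rw [← Real.exp_add]; congr 1; ring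

lemma prob_G3 {p : ℝ} (h0 : 0 < p) (h1 : p ≤ 1) {x : ℝ} {J : ℕ}
    (hx : Real.log ((Fintype.card V : ℝ) + 1) ≤ x) {u d : ℝ} (hu : 0 ≤ u) (hu1 : u ≤ 1) :
    Pr p (allE V) (fun T => ∃ Q : Finset V, Q.card = J ∧ d < ((cn T Q).card : ℝ)) ≤
      Real.exp (x * J + (-(u * d) + (Fintype.card V : ℝ) * p ^ J * (u + u ^ 2))) := by
  classical
  set N := Fintype.card V with hN
  have step1 : Pr p (allE V) (fun T => ∃ Q : Finset V, Q.card = J ∧ d < ((cn T Q).card : ℝ)) ≤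
      Pr p (allE V) (fun T => ∃ Q ∈ Finset.univ.powersetCard J, d ≤ ((cn T Q).card : ℝ)) := by
    apply Pr_mono h0.le h1
    rintro T _ ⟨Q, hQ, h⟩
    exact ⟨Q, Finset.mem_powersetCard.2 ⟨Finset.subset_univ _, hQ⟩, h.le⟩
  refine step1.trans ((Pr_exists_le h0.le h1 _ _).trans ?_)
  have step2 : ∀ Q ∈ (Finset.univ : Finset V).powersetCard J,
      Pr p (allE V) (fun T => d ≤ ((cn T Q).card : ℝ)) ≤
      Real.exp (-(u * d) + (N : ℝ) * p ^ J * (u + u ^ 2)) := by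
    intro Q hQ
    have := prob_cn_large h0.le h1 Q hu hu1 d
    rw [(Finset.mem_powersetCard.1 hQ).2] at this
    exact this
  refine (Finset.sum_le_sum step2).trans ?_
  rw [Finset.sum_const, nsmul_eq_mul, Finset.card_powersetCard, Finset.card_univ, ← hN,
    Real.exp_add (x * J)]
  apply mul_le_mul_of_nonneg_right _ (Real.exp_pos _).le
  refine le_trans ?_ (pow_le_exp_log hx J)
  calc ((N.choose J : ℕ) : ℝ) ≤ (N:ℝ) ^ J := by exact_mod_cast Nat.choose_le_pow N J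
    _ ≤ ((N:ℝ) + 1) ^ J := by gcongr; linarith

lemma prob_G1 {p : ℝ} (h0 : 0 < p) (h1 : p ≤ 1) {x : ℝ} {j m : ℕ}
    (hx : Real.log ((Fintype.card V : ℝ) + 1) ≤ x)
    (hm : Real.exp 2 * ((Fintype.card V : ℝ) * p ^ j) ≤ m) :
    Pr p (allE V) (fun T => ∃ Q : Finset V, Q.card = j ∧ m ≤ (cn T Q).card) ≤
      Real.exp (x * j - m) := by
  refine (prob_codegree h0.le h1 j m).trans ?_
  set N := Fintype.card V with hN
  have e1 : (N:ℝ) ^ m / m.factorial * p ^ (j * m) = ((N:ℝ) * p ^ j) ^ m / m.factorial := by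
    rw [mul_pow, ← pow_mul]; ring
  rw [e1, sub_eq_add_neg, Real.exp_add]
  apply mul_le_mul _ (pow_fact_le (by positivity) hm) (by positivity) (Real.exp_pos _).le
  refine le_trans ?_ (pow_le_exp_log hx j)
  gcongr
  linarith

lemma prob_G4 {p : ℝ} (h0 : 0 < p) (h1 : p ≤ 1) {j : ℕ} (hj : 2 ≤ j) (l0 : Fin j) {x : ℝ}
    (hx : Real.log ((Fintype.card V : ℝ) + 1) ≤ x) {b : ℕ}
    {θ d q a Φ A : ℝ} (hθ : 0 ≤ θ) (hd : 0 ≤ d) (hq : 0 < q)
    (hqd : ∀ c : ℕ, (c : ℝ) ≤ d → q ≤ (1 - p) ^ c) (ha : 0 < a)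
    (hΦ : 8 ≤ Φ) (hΦ1 : 64 * Φ ≤ q * a ^ (j - 1)) (hΦ2 : 64 * Φ * (d * θ ^ (j - 1)) ≤ q)
    (hA : 0 < A) (hA2 : ∀ g : ℕ, 2 ≤ g → g ≤ j → A ≤ q / 128 * a ^ g * p ^ (g.choose 2)) :
    Pr p (allE V) (fun T => ∃ (Y : Fin j → Finset V) (B : Finset V),
      (∀ l l', l ≠ l' → Disjoint (Y l) (Y l')) ∧ Disjoint B (uni Y) ∧
      (∀ l, a ≤ ((Y l).card : ℝ)) ∧ (∀ l, (Y l).card ≤ b) ∧ B.card ≤ b ∧ badG l0 Y B θ d T) ≤
      Real.exp (x * ((j + 1) * b) - (Φ / 8 - 1) * a) +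
      Real.exp (x * ((j + 1) * b) - A / (8 * 2 ^ j)) := by
  classical
  set N := Fintype.card V with hN
  set sm : Finset (Finset V) := Finset.univ.filter fun Z => Z.card ≤ b with hsm
  have hsmc : (sm.card : ℝ) ≤ Real.exp (x * b) := by
    refine le_trans ?_ (pow_le_exp_log hx b)
    exact_mod_cast card_small (V := V) b
  set e0 : ℝ := Real.exp (-((Φ / 8 - 1) * a)) + Real.exp (-(A / (8 * 2 ^ j))) with he0
  have he0' : 0 ≤ e0 := by positivity
  have step1 : Pr p (allE V) (fun T => ∃ (Y : Fin j → Finset V) (B : Finset V),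
      (∀ l l', l ≠ l' → Disjoint (Y l) (Y l')) ∧ Disjoint B (uni Y) ∧
      (∀ l, a ≤ ((Y l).card : ℝ)) ∧ (∀ l, (Y l).card ≤ b) ∧ B.card ≤ b ∧ badG l0 Y B θ d T) ≤
      Pr p (allE V) (fun T => ∃ z ∈ (Fintype.piFinset fun _ : Fin j => sm) ×ˢ sm,
        (∀ l l', l ≠ l' → Disjoint (z.1 l) (z.1 l')) ∧ Disjoint z.2 (uni z.1) ∧
      (∀ l, a ≤ ((z.1 l).card : ℝ)) ∧ badG l0 z.1 z.2 θ d T) := by
    apply Pr_mono h0.le h1
    rintro T _ ⟨Y, B, c1, c2, c3, c4, c5, c6⟩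
    refine ⟨(Y, B), ?_, c1, c2, c3, c6⟩
    rw [Finset.mem_product, Fintype.mem_piFinset]
    exact ⟨fun l => Finset.mem_filter.2 ⟨Finset.mem_univ _, c4 l⟩,
      Finset.mem_filter.2 ⟨Finset.mem_univ _, c5⟩⟩
  refine step1.trans ((Pr_exists_le h0.le h1 _ _).trans ?_)
  have step2 : ∀ z ∈ (Fintype.piFinset fun _ : Fin j => sm) ×ˢ sm,
      Pr p (allE V) (fun T => (∀ l l', l ≠ l' → Disjoint (z.1 l) (z.1 l')) ∧
        Disjoint z.2 (uni z.1) ∧ (∀ l, a ≤ ((z.1 l).card : ℝ)) ∧ badG l0 z.1 z.2 θ d T) ≤ e0 := by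
    rintro ⟨Y, B⟩ _
    by_cases hc : (∀ l l', l ≠ l' → Disjoint (Y l) (Y l')) ∧
        Disjoint B (uni Y) ∧ (∀ l, a ≤ ((Y l).card : ℝ))
    · obtain ⟨c1, c2, c3⟩ := hc
      refine le_trans (Pr_mono h0.le h1 (Q := badG l0 Y B θ d) fun T _ h => h.2.2.2) ?_
      exact prob_badG h0 h1 hj l0 c1 c2 hθ hd hq hqd ha c3 hΦ hΦ1 hΦ2 hA hA2
    · refine le_trans (Pr_mono h0.le h1 (Q := fun _ => False)
        fun T _ h => hc ⟨h.1, h.2.1, h.2.2.1⟩) ?_
      unfold Pr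
      simp only [ind_not_of (fun h : False => h)]
      rw [Ex_const]
      exact he0'
  refine (Finset.sum_le_sum step2).trans ?_
  rw [Finset.sum_const, nsmul_eq_mul, Finset.card_product, Fintype.card_piFinset,
    Finset.prod_const, Finset.card_univ, Fintype.card_fin]
  have h3 : (((sm.card ^ j * sm.card : ℕ)) : ℝ) ≤ Real.exp (x * ((j + 1) * b)) := by
    push_cast
    calc (sm.card : ℝ) ^ j * sm.card = (sm.card : ℝ) ^ (j + 1) := by ring
      _ ≤ (Real.exp (x * b)) ^ (j + 1) := by gcongr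
      _ = _ := by rw [← Real.exp_nat_mul]; congr 1; push_cast; ring
  calc _ ≤ Real.exp (x * ((j + 1) * b)) * e0 := mul_le_mul_of_nonneg_right h3 he0'
    _ = _ := by
        rw [he0, mul_add, ← Real.exp_add, ← Real.exp_add]
        congr 1

/-- the lower bound for fixed parameters -/
lemma prob_CCol [Nonempty V] {p : ℝ} (h0 : 0 < p) (h1 : p ≤ 1) {j b m k : ℕ} (hj : 2 ≤ j)
    {x β γ θ d a q Φ A u : ℝ}
    (hx : Real.log ((Fintype.card V : ℝ) + 1) ≤ x)
    (hγ : 0 < γ) (hγ1 : γ ≤ 1) (hb : 0 < b) (hβ : 0 ≤ β) (hθ : 0 < θ)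
    (hab : a = γ ^ j * b)
    (hm1 : Real.exp 2 * ((Fintype.card V : ℝ) * p ^ j) ≤ m) (hm : (m : ℝ) ≤ a)
    (hn1 : Real.exp 2 * p ≤ θ / 4) (hn2 : β ≤ θ * a / 4) (hn3 : γ * (j * (j + 1) * β) ≤ 1 / 2)
    (hBb : 2 * j * β / θ ≤ b) (hu : 0 ≤ u) (hu1 : u ≤ 1)
    (hd : 0 ≤ d) (hq : 0 < q)
    (hqd : ∀ c : ℕ, (c : ℝ) ≤ d → q ≤ (1 - p) ^ c)
    (hΦ : 8 ≤ Φ) (hΦ1 : 64 * Φ ≤ q * a ^ (j - 1)) (hΦ2 : 64 * Φ * (d * θ ^ (j - 1)) ≤ q)
    (hA : 0 < A) (hA2 : ∀ g : ℕ, 2 ≤ g → g ≤ j → A ≤ q / 128 * a ^ g * p ^ (g.choose 2))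
    (hkM : 2 * (k + k * (j * b)) ≤ Fintype.card V) :
    Pr p (allE V) (fun T => CCol T k) ≤
      Real.exp (x * j - m) + (((1 + Real.exp (-β)) ^ Fintype.card V - 1) ^ 2 +
      (Real.exp (x * (j - 1 : ℕ) + (-(u * d) + (Fintype.card V : ℝ) * p ^ (j - 1) * (u + u ^ 2))) +
      ((Real.exp (x * ((j + 1) * b) - (Φ / 8 - 1) * a) +
        Real.exp (x * ((j + 1) * b) - A / (8 * 2 ^ j))) +
      Real.exp (x * (k + (k * (j * b) : ℕ)) - (1 - p) ^ k * Fintype.card V / 2)))) := by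
  classical
  have ha : 0 < a := by rw [hab]; positivity
  have l0 : Fin j := ⟨0, by omega⟩
  have main : Pr p (allE V) (fun T => CCol T k) ≤ Pr p (allE V) (fun T =>
      (∃ Q : Finset V, Q.card = j ∧ m ≤ (cn T Q).card) ∨
      ((∃ S Z : Finset V, Disjoint S Z ∧
      Real.exp 2 * p * S.card * Z.card + β * (S.card + Z.card) < ((eb T S Z : ℕ) : ℝ)) ∨
      ((∃ Q : Finset V, Q.card = j - 1 ∧ d < ((cn T Q).card : ℝ)) ∨
      ((∃ (Y : Fin j → Finset V) (B : Finset V),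
      (∀ l l', l ≠ l' → Disjoint (Y l) (Y l')) ∧ Disjoint B (uni Y) ∧
      (∀ l, a ≤ ((Y l).card : ℝ)) ∧ (∀ l, (Y l).card ≤ b) ∧ B.card ≤ b ∧ badG l0 Y B θ d T) ∨
      (∃ W : Finset V, W.card ≤ k ∧ (unc T W).card ≤ k * (j * b)))))) := by
    apply Pr_mono h0.le h1
    intro T _ hCC
    by_contra hcon
    push Not at hcon
    obtain ⟨g1, g2, g3, g4, g5⟩ := hcon
    exact not_CCol hj l0 hγ hγ1 hb hθ hab g1 hm g2 hn1 hn2 hn3 hBb g3
      (fun Y B c1 c2 c3 c4 c5 c6 => g4 Y B c1 c2 c3 c4 c5 c6) g5 hCC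
  refine main.trans ?_
  refine (Pr_or_le h0.le h1 _ _).trans (add_le_add (prob_G1 h0 h1 hx hm1) ?_)
  refine (Pr_or_le h0.le h1 _ _).trans (add_le_add (prob_G2 h0 h1 hβ) ?_)
  refine (Pr_or_le h0.le h1 _ _).trans (add_le_add (prob_G3 h0 h1 hx hu hu1) ?_)
  refine (Pr_or_le h0.le h1 _ _).trans (add_le_add
    (prob_G4 h0 h1 hj l0 hx hθ.le hd hq hqd ha hΦ hΦ1 hΦ2 hA hA2) ?_)
  exact prob_G5 h0 h1 hx hkM

end Pool.Agent.H1.CC
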