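import Pool.Agent.H1.CC.LowerA

/-!
Numerical part of the lower bound.
-/

set_option autoImplicit false
set_option linter.unusedSectionVars false

namespace Pool.Agent.H1.CC

open Finset

/-- the lower bound for fixed `n`, `p`, `j`, `k` -/
theorem lower_fixed (J : ℕ) : ∃ x0 : ℝ, ∀ x ≥ x0, ∀ (n j k : ℕ) (p : ℝ), 4 ≤ j → j ≤ J →
    0 < p → p < 1 → Real.log ((n : ℝ) + 1) ≤ x →
    (n : ℝ) * p ^ j ≤ ((j : ℝ) - 1) / 2 * (-Real.log p) →
    (5 * (J : ℝ) + 20) * Real.log x ≤ (-Real.log p) / 2 →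
    Real.exp ((-Real.log p) * (1 + (j : ℝ) / 2) + (n : ℝ) * p ^ j / ((j : ℝ) - 1) +
      (6 * (J : ℝ) + 25) * Real.log x) ≤ (n : ℝ) * (1 - p) ^ k →
    Pr p (allE (Fin n)) (fun T => CCol T k) ≤ 6 * Real.exp (-x) := by
  refine ⟨8 * 2 ^ J * ((J : ℝ) + 2) + Real.exp ((J : ℝ) + 2) + 100 * ((J : ℝ) + 1) ^ 2, ?_⟩
  intro x hx n j k p hj hjJ hp0 hp1 hnx hκ0 hLy0 hmain
  have hJ0 : (4:ℝ) ≤ J := by exact_mod_cast hj.trans hjJ
  have hj4 : (4:ℝ) ≤ j := by exact_mod_cast hj
  have hjJ' : (j:ℝ) ≤ J := by exact_mod_cast hjJ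
  have hxa : 0 ≤ 8 * 2 ^ J * ((J : ℝ) + 2) := by positivity
  have hxb := Real.exp_pos ((J : ℝ) + 2)
  have hxc : 0 ≤ 100 * ((J : ℝ) + 1) ^ 2 := by positivity
  have hx1 : 8 * 2 ^ J * ((J : ℝ) + 2) ≤ x := by linarith only [hx, hxa, hxb, hxc]
  have hx2 : Real.exp ((J : ℝ) + 2) ≤ x := by linarith only [hx, hxa, hxb, hxc]
  have hx3 : 100 * ((J : ℝ) + 1) ^ 2 ≤ x := by linarith only [hx, hxa, hxb, hxc]
  have hx4 : 2500 ≤ x := by nlinarith only [hx3, hJ0]
  have hxpos : 0 < x := by linarith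
  set L : ℝ := -Real.log p with hL
  clear_value L
  set y : ℝ := Real.log x with hy
  clear_value y
  have hxy : x = Real.exp y := by rw [hy]; exact (Real.exp_log hxpos).symm
  have hyJ : (J:ℝ) + 2 ≤ y := by
    rw [hy, Real.le_log_iff_exp_le hxpos]; exact hx2
  have hy6 : 6 ≤ y := by linarith
  have hpL : p = Real.exp (-L) := by rw [hL, neg_neg, Real.exp_log hp0]
  have hpinv : Real.exp L * p = 1 := by rw [hpL, ← Real.exp_add]; simp
  set κ : ℝ := (n : ℝ) * p ^ j with hκ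
  clear_value κ
  have hκnn : 0 ≤ κ := by rw [hκ]; positivity
  set lam : ℝ := κ / ((j : ℝ) - 1) with hlam
  clear_value lam
  have hlam0 : 0 ≤ lam := by rw [hlam]; exact div_nonneg hκnn (by linarith)
  have hκlam : κ = ((j:ℝ) - 1) * lam := by
    rw [hlam, mul_div_cancel₀]; linarith
  have hlamL : lam ≤ L / 2 := by
    rw [hlam, div_le_iff₀ (by linarith)]
    calc κ ≤ ((j : ℝ) - 1) / 2 * L := hκ0
      _ = L / 2 * ((j : ℝ) - 1) := by ring
  have hJy0 : 0 ≤ (J:ℝ) * y := by positivity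
  have hLy : (5 * (J : ℝ) + 20) * y ≤ L / 2 := hLy0
  have hL0 : 0 < L := by
    have : 0 < (5 * (J : ℝ) + 20) * y := by positivity
    linarith only [this, hLy]
  have hjy : (j:ℝ) * y ≤ J * y := mul_le_mul_of_nonneg_right hjJ' (by linarith)
  have hjy4 : 4 * y ≤ (j:ℝ) * y := mul_le_mul_of_nonneg_right hj4 (by linarith)
  have hjL4 : 4 * L ≤ (j:ℝ) * L := mul_le_mul_of_nonneg_right hj4 hL0.le
  have hp1' : 0 ≤ 1 - p := by linarith
  have hn1 : (n:ℝ) ≤ Real.exp x := by
    have : (n:ℝ) + 1 ≤ Real.exp x := by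
      rw [← Real.log_le_iff_le_exp (by positivity)]; exact hnx
    linarith
  have hpow1 : (1 - p) ^ k ≤ 1 := pow_le_one₀ hp1' (by linarith)
  have hnpow : (n:ℝ) * (1 - p) ^ k ≤ n := by
    have : (0:ℝ) ≤ n := Nat.cast_nonneg n
    exact mul_le_of_le_one_right this hpow1
  -- the exponent of the main hypothesis
  set E : ℝ := L * (1 + (j : ℝ) / 2) + lam + (6 * (J : ℝ) + 25) * y with hE
  clear_value E
  have hE0 : 0 ≤ E := by
    rw [hE]; positivity
  have hEx : E ≤ x := by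
    have : Real.exp E ≤ Real.exp x := hmain.trans (hnpow.trans hn1)
    exact Real.exp_le_exp.1 this
  have hLx : 3 * L ≤ x := by
    rw [hE] at hEx; nlinarith only [hEx, hjL4, hlam0, hJy0, hy6]
  have hkp : (k:ℝ) * p ≤ x := by
    have h1 : (1 - p) ^ k ≤ Real.exp (-(k * p)) := by
      calc (1 - p) ^ k ≤ (Real.exp (-p)) ^ k := by
            apply pow_le_pow_left₀ hp1'
            have := Real.add_one_le_exp (-p)
            linarith
        _ = _ := by rw [← Real.exp_nat_mul]; congr 1; ring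
    have h2 : Real.exp E ≤ Real.exp (x - k * p) := by
      calc Real.exp E ≤ (n:ℝ) * (1 - p) ^ k := hmain
        _ ≤ Real.exp x * Real.exp (-(k * p)) := by
            apply mul_le_mul hn1 h1 (pow_nonneg hp1' _) (Real.exp_pos _).le
        _ = _ := by rw [← Real.exp_add]; congr 1
    have := Real.exp_le_exp.1 h2
    linarith
  have hkx : (k:ℝ) ≤ x * Real.exp L := by
    calc (k:ℝ) = (k * p) * Real.exp L := by
          rw [mul_assoc, mul_comm p, hpinv, mul_one]
      _ ≤ x * Real.exp L := mul_le_mul_of_nonneg_right hkp (Real.exp_pos _).le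
  -- nonempty
  have hn0 : 0 < n := by
    rcases Nat.eq_zero_or_pos n with h | h
    · exfalso
      rw [h] at hmain
      have := Real.exp_pos E
      simp at hmain
      linarith only [this, hmain]
    · exact h
  have : Nonempty (Fin n) := ⟨⟨0, hn0⟩⟩
  -- parameters
  set s : ℝ := Real.exp ((j:ℝ) * L / 2 + lam + (6 * (J:ℝ) + 20) * y) with hs
  clear_value s
  have hs1 : 1 ≤ s := by
    rw [hs]
    apply Real.one_le_exp
    positivity
  set b : ℕ := ⌈s⌉₊ with hb
  have hsb : s ≤ b := Nat.le_ceil s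
  have hb2s : (b:ℝ) ≤ 2 * s := by
    have := Nat.ceil_lt_add_one (by linarith : 0 ≤ s)
    rw [← hb] at this
    linarith
  clear_value b
  have hbpos : (0:ℝ) < b := by linarith
  have hb0 : 0 < b := by exact_mod_cast hbpos
  set γ : ℝ := Real.exp (-(3 * y)) with hγ
  clear_value γ
  have hγ0 : 0 < γ := by rw [hγ]; exact Real.exp_pos _
  have hγ1 : γ ≤ 1 := by rw [hγ]; apply Real.exp_le_one_iff.2; linarith
  have hγj : γ ^ j = Real.exp (-(3 * (j:ℝ) * y)) := by
    rw [hγ, ← Real.exp_nat_mul]; congr 1; ring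
  set a : ℝ := γ ^ j * b with ha
  clear_value a
  set α0 : ℝ := (j:ℝ) * L / 2 + lam + (6 * (J:ℝ) + 20 - 3 * j) * y with hα0
  clear_value α0
  have haα : Real.exp α0 ≤ a := by
    calc Real.exp α0 = Real.exp (-(3 * (j:ℝ) * y)) * s := by
          rw [hs, ← Real.exp_add, hα0]; congr 1; ring
      _ ≤ a := by rw [ha, hγj]; exact mul_le_mul_of_nonneg_left hsb (Real.exp_pos _).le
  have ha0 : 0 < a := lt_of_lt_of_le (Real.exp_pos _) haα
  have hα1 : 2 * L + 20 * y ≤ α0 - lam := by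
    rw [hα0]; nlinarith only [hjL4, hjy, hJy0]
  have hα2 : 2 * L + 20 * y ≤ α0 := by linarith only [hα1, hlam0]
  have hJy4 : 4 * y ≤ (J:ℝ) * y := mul_le_mul_of_nonneg_right hJ0 (by linarith only [hy6])
  have hLe : 50 * y ≤ L := by linarith only [hLy, hJy4, hy6]
  -- exponential size facts
  have e128 : (128:ℝ) ≤ Real.exp y := by rw [← hxy]; linarith
  have hpsmall : p ≤ 1 / 8 := by
    rw [hpL, Real.exp_neg, inv_eq_one_div]
    apply one_div_le_one_div_of_le (by norm_num)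
    have : Real.exp y ≤ Real.exp L := Real.exp_le_exp.2 (by linarith)
    linarith
  have hpLle : p * L ≤ 1 := by
    have h1 := Real.add_one_le_exp L
    calc p * L ≤ p * Real.exp L := by
          apply mul_le_mul_of_nonneg_left _ hp0.le; linarith
      _ = 1 := by rw [mul_comm]; exact hpinv
  have hx2y : x ^ 2 = Real.exp (2 * y) := by
    rw [hxy, ← Real.exp_nat_mul]; norm_num
  have hκJ : κ ≤ (J:ℝ) / 2 * L := by
    calc κ ≤ ((j : ℝ) - 1) / 2 * L := hκ0
      _ ≤ (J:ℝ) / 2 * L := by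
          apply mul_le_mul_of_nonneg_right _ hL0.le
          linarith
  have hyx : y + 1 ≤ x := by rw [hxy]; exact Real.add_one_le_exp y
  have hJx : (J:ℝ) ≤ x / 100 := by nlinarith only [hx3, hJ0]
  have hκx : κ ≤ (J:ℝ) / 6 * x := by
    have h1 : (J:ℝ) / 2 * L ≤ (J:ℝ) / 6 * x := by
      have : (J:ℝ) / 6 * (3 * L) ≤ (J:ℝ) / 6 * x := mul_le_mul_of_nonneg_left hLx (by positivity)
      linarith
    linarith
  have hκy : κ + y ≤ Real.exp (2 * y) := by
    rw [← hx2y]
    have h1 : (J:ℝ) / 6 * x ≤ (x / 100) / 6 * x := by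
      apply mul_le_mul_of_nonneg_right _ hxpos.le
      linarith
    have h2 : x * 2500 ≤ x * x := mul_le_mul_of_nonneg_left hx4 hxpos.le
    nlinarith only [h1, h2, hκx, hyx]
  set d : ℝ := (κ + y) * Real.exp L with hd
  have hd0 : 0 ≤ d := by rw [hd]; exact mul_nonneg (by linarith) (Real.exp_pos _).le
  set q : ℝ := Real.exp (-(κ + 2 * y)) with hq
  set θ : ℝ := Real.exp (2 * y - L) with hθ
  have hq0 : 0 < q := by rw [hq]; exact Real.exp_pos _
  have hθ0 : 0 < θ := by rw [hθ]; exact Real.exp_pos _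
  set Φ : ℝ := Real.exp ((3 * (J:ℝ) + 4) * y) with hΦ
  set A : ℝ := b * x ^ 2 with hA
  set u : ℝ := y / (2 * J * x) with hu
  set m : ℕ := ⌈x ^ 3⌉₊ with hm
  have hm1 : x ^ 3 ≤ m := Nat.le_ceil _
  have hm2 : (m:ℝ) ≤ x ^ 3 + 1 := by
    have := Nat.ceil_lt_add_one (by positivity : 0 ≤ x ^ 3)
    exact this.le
  clear_value m
  have hcard : Fintype.card (Fin n) = n := Fintype.card_fin n
  -- (1)
  have c1 : Real.exp 2 * ((Fintype.card (Fin n) : ℝ) * p ^ j) ≤ m := by
    rw [hcard, ← hκ]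
    refine le_trans ?_ hm1
    have h1 : Real.exp 2 ≤ 8 := by
      have h2 : Real.exp 2 = Real.exp 1 * Real.exp 1 := by rw [← Real.exp_add]; norm_num
      have h3 := Real.exp_one_lt_d9
      have h4 := Real.exp_pos 1
      rw [h2]; nlinarith only [h3, h4]
    calc Real.exp 2 * κ ≤ 8 * ((J:ℝ) / 6 * x) := by
          apply mul_le_mul h1 hκx hκnn (by norm_num)
      _ ≤ x ^ 3 := by
          have h5 : 8 * ((J:ℝ) / 6 * x) ≤ x * x := by nlinarith only [hJx, hx4]
          have h6 : x * x ≤ x ^ 3 := by nlinarith only [hx4, mul_pos hxpos hxpos]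
          linarith only [h5, h6]
  -- (2)
  have c2 : (m:ℝ) ≤ a := by
    refine hm2.trans (le_trans ?_ haα)
    have h1 : x ^ 3 + 1 ≤ Real.exp (4 * y) := by
      have : Real.exp (4 * y) = x ^ 4 := by
        rw [hxy, ← Real.exp_nat_mul]; norm_num
      rw [this]
      have h3 : (1:ℝ) ≤ x ^ 3 := one_le_pow₀ (by linarith)
      have h4 : x ^ 4 = x ^ 3 * x := by ring
      rw [h4]; nlinarith only [h3, hx4]
    refine h1.trans (Real.exp_le_exp.2 ?_)
    linarith only [hα2, hL0, hy6]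
  -- (3)
  have hθx : θ = x ^ 2 * p := by
    rw [hθ, hx2y, hpL, ← Real.exp_add]; congr 1
  have c3 : Real.exp 2 * p ≤ θ / 4 := by
    rw [hθx]
    have h1 : Real.exp 2 ≤ 8 := by
      have h2 : Real.exp 2 = Real.exp 1 * Real.exp 1 := by rw [← Real.exp_add]; norm_num
      have h3 := Real.exp_one_lt_d9
      have h4 := Real.exp_pos 1
      rw [h2]; nlinarith only [h3, h4]
    have h2 : (8:ℝ) ≤ x ^ 2 / 4 := by nlinarith only [hx4]
    calc Real.exp 2 * p ≤ x ^ 2 / 4 * p := by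
          apply mul_le_mul_of_nonneg_right _ hp0.le; linarith
      _ = _ := by ring
  -- (4)
  have c4 : 3 * x ≤ θ * a / 4 := by
    have h1 : Real.exp (2 * y - L + α0) ≤ θ * a := by
      rw [Real.exp_add]; exact mul_le_mul_of_nonneg_left haα (Real.exp_pos _).le
    have h2 : Real.exp (2 * y) ≤ Real.exp (2 * y - L + α0) := Real.exp_le_exp.2 (by linarith)
    rw [← hx2y] at h2
    nlinarith only [h1, h2, hx4]
  -- (5)
  have c5 : γ * (j * (j + 1) * (3 * x)) ≤ 1 / 2 := by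
    have h1 : γ * x ^ 3 = 1 := by
      rw [hγ, hxy, ← Real.exp_nat_mul, ← Real.exp_add]; norm_num
    have h2 : (j:ℝ) * (j + 1) ≤ (J:ℝ) * (J + 1) := by gcongr
    have h3 : (j:ℝ) * (j + 1) * (3 * x) ≤ 1 / 2 * x ^ 3 := by
      have h4 : (j:ℝ) * (j + 1) * 3 ≤ 1 / 2 * x ^ 2 := by
        have h5 : (J:ℝ) * (J + 1) ≤ x := by nlinarith only [hx3, hJ0]
        nlinarith only [h2, h5, hx4]
      calc (j:ℝ) * (j + 1) * (3 * x) = ((j:ℝ) * (j + 1) * 3) * x := by ring
        _ ≤ (1 / 2 * x ^ 2) * x := mul_le_mul_of_nonneg_right h4 hxpos.le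
        _ = _ := by ring
    calc γ * (j * (j + 1) * (3 * x)) ≤ γ * (1 / 2 * x ^ 3) :=
          mul_le_mul_of_nonneg_left h3 hγ0.le
      _ = 1 / 2 * (γ * x ^ 3) := by ring
      _ = 1 / 2 := by rw [h1]; norm_num
  -- (6)
  have c6 : 2 * (j:ℝ) * (3 * x) / θ ≤ b := by
    have h1 : Real.exp L ≤ b := by
      refine le_trans ?_ hsb
      rw [hs]
      apply Real.exp_le_exp.2
      nlinarith only [hjL4, hlam0, hJy0, hy6, hL0]
    rw [div_le_iff₀ (Real.exp_pos _)]
    have h2 : 2 * (j:ℝ) * (3 * x) ≤ x ^ 2 := by nlinarith only [hjJ', hJx, hxpos]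
    calc 2 * (j:ℝ) * (3 * x) ≤ x ^ 2 := h2
      _ = Real.exp L * θ := by rw [hx2y, hθ, ← Real.exp_add]; congr 1; ring
      _ ≤ b * θ := mul_le_mul_of_nonneg_right h1 (Real.exp_pos _).le
  -- (7)
  have hJx0 : 0 < 2 * (J:ℝ) * x := by positivity
  have c7 : 0 ≤ u := by rw [hu]; positivity
  have c7' : u ≤ 1 := by
    rw [hu, div_le_one hJx0]; nlinarith only [hyx, hJ0, hxpos]
  -- (8)
  have c8 : ∀ c : ℕ, (c : ℝ) ≤ d → q ≤ (1 - p) ^ c := by
    intro c hc
    have h1 : -(p / (1 - p)) ≤ Real.log (1 - p) := by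
      have h2 := Real.one_sub_inv_le_log_of_pos (x := 1 - p) (by linarith)
      have h3 : 1 - (1 - p)⁻¹ = -(p / (1 - p)) := by
        have h4 : 1 - p ≠ 0 := by linarith only [hp1]
        field_simp
        ring
      rw [h3] at h2
      exact h2
    have h4 : (1 - p) ^ c = Real.exp (c * Real.log (1 - p)) := by
      rw [Real.exp_nat_mul, Real.exp_log (by linarith)]
    rw [h4]
    apply Real.exp_le_exp.2
    have h5 : (c:ℝ) * (-(p / (1 - p))) ≤ c * Real.log (1 - p) :=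
      mul_le_mul_of_nonneg_left h1 (Nat.cast_nonneg c)
    refine le_trans ?_ h5
    have h6 : (c:ℝ) * p ≤ κ + y := by
      calc (c:ℝ) * p ≤ d * p := mul_le_mul_of_nonneg_right hc hp0.le
        _ = (κ + y) * (Real.exp L * p) := by rw [hd]; ring
        _ = κ + y := by rw [hpinv, mul_one]
    have h7 : (c:ℝ) * (p / (1 - p)) ≤ κ + 2 * y := by
      rw [← mul_div_assoc, div_le_iff₀ (by linarith)]
      have h8 : p * κ ≤ (J:ℝ) / 2 := by
        calc p * κ ≤ p * ((J:ℝ) / 2 * L) := mul_le_mul_of_nonneg_left hκJ hp0.le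
          _ = (J:ℝ) / 2 * (p * L) := by ring
          _ ≤ (J:ℝ) / 2 * 1 := mul_le_mul_of_nonneg_left hpLle (by positivity)
          _ = _ := by ring
      have h9 : p * y ≤ 1 / 8 * y := mul_le_mul_of_nonneg_right hpsmall (by linarith)
      nlinarith only [h6, h8, h9, hyJ]
    linarith only [h7]
  -- (9)
  have c9 : 8 ≤ Φ := by
    have : Real.exp y ≤ Φ := Real.exp_le_exp.2 (by nlinarith only [hJy0, hy6])
    linarith only [this, e128]
  -- (10)
  have c10 : 64 * Φ ≤ q * a ^ (j - 1) := by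
    have h1 : 64 * Φ ≤ Real.exp (y + (3 * (J:ℝ) + 4) * y) := by
      rw [Real.exp_add]
      apply mul_le_mul_of_nonneg_right _ (Real.exp_pos _).le
      linarith
    refine h1.trans ?_
    have h2 : (Real.exp α0) ^ (j - 1) ≤ a ^ (j - 1) :=
      pow_le_pow_left₀ (Real.exp_pos _).le haα _
    have h3 : (Real.exp α0) ^ (j - 1) = Real.exp (((j:ℝ) - 1) * α0) := by
      rw [← Real.exp_nat_mul]
      congr 2
      rw [Nat.cast_sub (by omega)]; norm_num
    rw [h3] at h2
    refine le_trans ?_ (mul_le_mul_of_nonneg_left h2 (Real.exp_pos _).le)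
    rw [hq, ← Real.exp_add]
    apply Real.exp_le_exp.2
    have h4 : 3 * (2 * L + 20 * y) ≤ ((j:ℝ) - 1) * (α0 - lam) := by
      have h6 : 0 ≤ 2 * L + 20 * y := by linarith only [hL0, hy6]
      exact mul_le_mul (by linarith only [hj4]) hα1 h6 (by linarith only [hj4])
    rw [hκlam]
    nlinarith only [h4, hLy, hL0, hy6, hJy0]
  -- (11)
  have c11 : 64 * Φ * (d * θ ^ (j - 1)) ≤ q := by
    have h1 : 64 * Φ ≤ Real.exp (y + (3 * (J:ℝ) + 4) * y) := by
      rw [Real.exp_add]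
      apply mul_le_mul_of_nonneg_right _ (Real.exp_pos _).le
      linarith
    have h2 : d ≤ Real.exp (2 * y + L) := by
      rw [Real.exp_add, hd]
      exact mul_le_mul_of_nonneg_right hκy (Real.exp_pos _).le
    have h3 : θ ^ (j - 1) = Real.exp (((j:ℝ) - 1) * (2 * y - L)) := by
      rw [hθ, ← Real.exp_nat_mul]
      congr 2
      rw [Nat.cast_sub (by omega)]; norm_num
    rw [h3]
    calc 64 * Φ * (d * Real.exp (((j:ℝ) - 1) * (2 * y - L))) ≤
        Real.exp (y + (3 * (J:ℝ) + 4) * y) * (Real.exp (2 * y + L) *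
          Real.exp (((j:ℝ) - 1) * (2 * y - L))) := by
            apply mul_le_mul h1 _ (by positivity) (Real.exp_pos _).le
            exact mul_le_mul_of_nonneg_right h2 (Real.exp_pos _).le
      _ = Real.exp (y + (3 * (J:ℝ) + 4) * y + (2 * y + L + ((j:ℝ) - 1) * (2 * y - L))) := by
            rw [← Real.exp_add, ← Real.exp_add]
      _ ≤ q := by
            rw [hq]
            apply Real.exp_le_exp.2
            have h5 : κ ≤ ((j : ℝ) - 1) / 2 * L := hκ0
            nlinarith only [h5, hLy, hjL4, hjy, hJy0, hy6, hL0]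
  -- (12)
  have hA0 : 0 < A := by positivity
  have c12 : ∀ g : ℕ, 2 ≤ g → g ≤ j → A ≤ q / 128 * a ^ g * p ^ (g.choose 2) := by
    intro g hg hgj
    have hG2 : (2:ℝ) ≤ g := by exact_mod_cast hg
    have hGj : (g:ℝ) ≤ j := by exact_mod_cast hgj
    have h1 : a ^ g = a * a ^ (g - 1) := by
      rw [← pow_succ']; congr 1; omega
    have h2 : (Real.exp α0) ^ (g - 1) ≤ a ^ (g - 1) :=
      pow_le_pow_left₀ (Real.exp_pos _).le haα _
    have h3 : (Real.exp α0) ^ (g - 1) = Real.exp (((g:ℝ) - 1) * α0) := by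
      rw [← Real.exp_nat_mul]
      congr 2
      rw [Nat.cast_sub (by omega)]; norm_num
    rw [h3] at h2
    have h4 : p ^ (g.choose 2) = Real.exp (-((g:ℝ) * ((g:ℝ) - 1) / 2 * L)) := by
      rw [hpL, ← Real.exp_nat_mul, Nat.cast_choose_two]
      congr 1; ring
    have h5 : A ≤ b * (Real.exp (2 * y)) := by rw [hA, hx2y]
    have h6 : Real.exp (2 * y) ≤ q / 128 * Real.exp (-(3 * (j:ℝ) * y)) *
        Real.exp (((g:ℝ) - 1) * α0) * Real.exp (-((g:ℝ) * ((g:ℝ) - 1) / 2 * L)) := by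
      have h7 : Real.exp (3 * y) ≤ q * Real.exp (-(3 * (j:ℝ) * y)) *
        Real.exp (((g:ℝ) - 1) * α0) * Real.exp (-((g:ℝ) * ((g:ℝ) - 1) / 2 * L)) := by
        rw [hq, ← Real.exp_add, ← Real.exp_add, ← Real.exp_add]
        apply Real.exp_le_exp.2
        have k1 : 0 ≤ ((g:ℝ) - 1) * ((j:ℝ) - g) * (L / 2 - lam) :=
          mul_nonneg (mul_nonneg (by linarith) (by linarith)) (by linarith)
        have k2 : 0 ≤ ((g:ℝ) - 2) * ((j:ℝ) - g) * lam :=
          mul_nonneg (mul_nonneg (by linarith) (by linarith)) hlam0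
        have k3 : 0 ≤ ((g:ℝ) - 2) * ((6 * (J:ℝ) + 20 - 3 * j) * y) :=
          mul_nonneg (by linarith) (mul_nonneg (by linarith) (by linarith))
        have k4 : ((g:ℝ) - 1) * α0 - (g:ℝ) * ((g:ℝ) - 1) / 2 * L =
            ((g:ℝ) - 1) * ((j:ℝ) - g) * (L / 2 - lam) + ((g:ℝ) - 2) * ((j:ℝ) - g) * lam +
            ((j:ℝ) - 1) * lam + ((g:ℝ) - 2) * ((6 * (J:ℝ) + 20 - 3 * j) * y) +
            (6 * (J:ℝ) + 20 - 3 * j) * y := by
          rw [hα0]; ring
        rw [hκlam]
        nlinarith only [k1, k2, k3, k4, hjy, hJy0, hy6]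
      have h8 : Real.exp (3 * y) = Real.exp y * Real.exp (2 * y) := by
        rw [← Real.exp_add]; congr 1; ring
      rw [h8] at h7
      have h9 : 128 * Real.exp (2 * y) ≤ Real.exp y * Real.exp (2 * y) :=
        mul_le_mul_of_nonneg_right e128 (Real.exp_pos _).le
      have h10 := h9.trans h7
      have h11 : q / 128 * Real.exp (-(3 * (j:ℝ) * y)) *
        Real.exp (((g:ℝ) - 1) * α0) * Real.exp (-((g:ℝ) * ((g:ℝ) - 1) / 2 * L)) =
        (q * Real.exp (-(3 * (j:ℝ) * y)) *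
        Real.exp (((g:ℝ) - 1) * α0) * Real.exp (-((g:ℝ) * ((g:ℝ) - 1) / 2 * L))) / 128 := by ring
      rw [h11, le_div_iff₀ (by norm_num)]
      linarith
    calc A ≤ b * (Real.exp (2 * y)) := h5
      _ ≤ b * (q / 128 * Real.exp (-(3 * (j:ℝ) * y)) *
        Real.exp (((g:ℝ) - 1) * α0) * Real.exp (-((g:ℝ) * ((g:ℝ) - 1) / 2 * L))) :=
          mul_le_mul_of_nonneg_left h6 hbpos.le
      _ = q / 128 * ((Real.exp (-(3 * (j:ℝ) * y)) * b) * Real.exp (((g:ℝ) - 1) * α0)) *
          Real.exp (-((g:ℝ) * ((g:ℝ) - 1) / 2 * L)) := by ring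
      _ ≤ q / 128 * (a * a ^ (g - 1)) * Real.exp (-((g:ℝ) * ((g:ℝ) - 1) / 2 * L)) := by
          have haeq : Real.exp (-(3 * (j:ℝ) * y)) * b = a := by rw [ha, hγj]
          rw [haeq]
          gcongr
      _ = _ := by rw [h1, h4]
  -- (13)
  have hEs : Real.exp E = Real.exp L * s * x ^ 5 := by
    have : x ^ 5 = Real.exp (5 * y) := by
      rw [hxy, ← Real.exp_nat_mul]; norm_num
    rw [this, hs, ← Real.exp_add, ← Real.exp_add, hE]
    congr 1; ring
  have hkk : (k:ℝ) + k * (j * b) ≤ x * Real.exp L * (s * (2 * J + 1)) := by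
    have h1 : (1:ℝ) + j * b ≤ s * (2 * J + 1) := by
      have h2 : (j:ℝ) * b ≤ J * (2 * s) := mul_le_mul hjJ' hb2s hbpos.le (by linarith)
      nlinarith only [h2, hs1]
    calc (k:ℝ) + k * (j * b) = k * (1 + j * b) := by ring
      _ ≤ (x * Real.exp L) * (s * (2 * J + 1)) := by
          apply mul_le_mul hkx h1 (by positivity) (by positivity)
  have hLs : 0 < Real.exp L * s := mul_pos (Real.exp_pos _) (by linarith)
  have hx3' : 4 * (J:ℝ) + 4 ≤ x := by nlinarith only [hx3, hJ0]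
  have c13 : 2 * (k + k * (j * b)) ≤ Fintype.card (Fin n) := by
    rw [hcard]
    have h1 : (2:ℝ) * (k + k * (j * b)) ≤ n := by
      have h2 : Real.exp L * s * x ^ 5 ≤ n := by rw [← hEs]; exact hmain.trans hnpow
      refine le_trans ?_ h2
      have h3 : x * (4 * (J:ℝ) + 2) ≤ x ^ 5 := by
        have h4 : x ^ 5 = x * x ^ 4 := by ring
        rw [h4]
        apply mul_le_mul_of_nonneg_left _ hxpos.le
        have : x ≤ x ^ 4 := le_self_pow₀ (by linarith) (by norm_num)
        linarith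
      calc (2:ℝ) * (k + k * (j * b)) ≤ 2 * (x * Real.exp L * (s * (2 * J + 1))) := by linarith
        _ = (Real.exp L * s) * (x * (4 * (J:ℝ) + 2)) := by ring
        _ ≤ (Real.exp L * s) * x ^ 5 := mul_le_mul_of_nonneg_left h3 hLs.le
    exact_mod_cast h1
  have hres := prob_CCol (V := Fin n) hp0 hp1.le (j := j) (b := b) (m := m) (k := k) (by omega)
    (x := x) (β := 3 * x) (γ := γ) (θ := θ) (d := d) (a := a) (q := q) (Φ := Φ) (A := A) (u := u)
    (by rw [hcard]; exact hnx) hγ0 hγ1 hb0 (by positivity) (Real.exp_pos _) ha c1 c2 c3 c4 c5 c6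
    c7 c7' hd0 (Real.exp_pos _) c8 c9 c10 c11 hA0 c12 c13
  refine hres.trans ?_
  rw [hcard]
  -- the error terms
  have t1 : Real.exp (x * j - m) ≤ Real.exp (-x) := by
    apply Real.exp_le_exp.2
    have h1 : x * ((J:ℝ) + 1) ≤ x ^ 3 := by
      have h2 : x ^ 3 = x * x ^ 2 := by ring
      rw [h2]
      apply mul_le_mul_of_nonneg_left _ hxpos.le
      nlinarith only [hJx, hx4]
    have h3 : x * j ≤ x * J := mul_le_mul_of_nonneg_left hjJ' hxpos.le
    linarith
  have t2 : ((1 + Real.exp (-(3 * x))) ^ n - 1) ^ 2 ≤ Real.exp (-x) := by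
    have h1 : (1 + Real.exp (-(3 * x))) ^ n ≤ Real.exp (Real.exp (-(2 * x))) := by
      calc (1 + Real.exp (-(3 * x))) ^ n ≤ (Real.exp (Real.exp (-(3 * x)))) ^ n := by
            apply pow_le_pow_left₀ (by positivity)
            have := Real.add_one_le_exp (Real.exp (-(3 * x)))
            linarith
        _ = Real.exp (n * Real.exp (-(3 * x))) := by rw [← Real.exp_nat_mul]
        _ ≤ _ := by
            apply Real.exp_le_exp.2
            calc (n:ℝ) * Real.exp (-(3 * x)) ≤ Real.exp x * Real.exp (-(3 * x)) :=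
                  mul_le_mul_of_nonneg_right hn1 (Real.exp_pos _).le
              _ = _ := by rw [← Real.exp_add]; congr 1; ring
    set z : ℝ := Real.exp (-(2 * x)) with hz
    have hz0 : 0 < z := Real.exp_pos _
    have hz1 : z ≤ 1 / 4 := by
      rw [hz, Real.exp_neg, inv_eq_one_div]
      apply one_div_le_one_div_of_le (by norm_num)
      have := Real.add_one_le_exp (2 * x)
      linarith
    have h2 : Real.exp z ≤ 1 + 2 * z := by
      have h3 := Real.exp_bound_div_one_sub_of_interval hz0.le (by linarith : z < 1)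
      have h4 : 1 / (1 - z) ≤ 1 + 2 * z := by
        rw [div_le_iff₀ (by linarith)]; nlinarith only [hz0, hz1]
      linarith
    have h5 : 1 ≤ (1 + Real.exp (-(3 * x))) ^ n := one_le_pow₀ (by
      have := Real.exp_pos (-(3 * x)); linarith)
    have h6 : ((1 + Real.exp (-(3 * x))) ^ n - 1) ^ 2 ≤ (2 * z) ^ 2 :=
      pow_le_pow_left₀ (by linarith) (by linarith) 2
    have h7 : (2 * z) ^ 2 ≤ z := by nlinarith only [hz0, hz1]
    have h8 : z ≤ Real.exp (-x) := Real.exp_le_exp.2 (by linarith)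
    linarith
  have t3 : Real.exp (x * (j - 1 : ℕ) + (-(u * d) + (n : ℝ) * p ^ (j - 1) * (u + u ^ 2))) ≤
      Real.exp (-x) := by
    apply Real.exp_le_exp.2
    have h1 : (n : ℝ) * p ^ (j - 1) = κ * Real.exp L := by
      have h2 : p ^ j = p ^ (j - 1) * p := by
        rw [← pow_succ]; congr 1; omega
      rw [hκ, h2]
      calc (n : ℝ) * p ^ (j - 1) = (n : ℝ) * p ^ (j - 1) * (Real.exp L * p) := by
            rw [hpinv, mul_one]
        _ = _ := by ring
    rw [h1, hd]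
    have h2 : ((j - 1 : ℕ) : ℝ) ≤ J := by
      have : j - 1 ≤ J := by omega
      exact_mod_cast this
    have h3 : x * ((j - 1 : ℕ) : ℝ) ≤ x * J := mul_le_mul_of_nonneg_left h2 hxpos.le
    have h4 : κ * u ≤ y / 4 := by
      have h5 : u * (2 * J * x) = y := by rw [hu]; field_simp
      have h6 : κ * u ≤ ((J:ℝ) / 6 * x) * u := mul_le_mul_of_nonneg_right hκx c7
      nlinarith only [h5, h6, hy6]
    have h7 : -(u * ((κ + y) * Real.exp L)) + κ * Real.exp L * (u + u ^ 2) =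
        (Real.exp L * u) * (κ * u - y) := by ring
    rw [h7]
    have h8 : (Real.exp L * u) * (κ * u - y) ≤ (Real.exp L * u) * (-(3 / 4 * y)) := by
      apply mul_le_mul_of_nonneg_left _ (by positivity)
      linarith
    have h9 : x * ((J:ℝ) + 1) ≤ Real.exp L * u * (3 / 4 * y) := by
      have k1 : Real.exp (4 * y) ≤ Real.exp L := Real.exp_le_exp.2 (by linarith)
      have k2 : Real.exp (4 * y) = x ^ 4 := by rw [hxy, ← Real.exp_nat_mul]; norm_num
      rw [k2] at k1
      have k3 : u * (2 * J * x) = y := by rw [hu]; field_simp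
      have k4 : x ^ 4 * u * (3 / 4 * y) ≤ Real.exp L * u * (3 / 4 * y) := by
        gcongr
      refine le_trans ?_ k4
      have k5 : 1 ≤ u * (2 * J * x) := by rw [k3]; linarith
      have k6 : 1 ≤ 3 / 4 * y := by linarith
      have k7 : x ^ 2 * (2 * J * x) ≤ x ^ 4 := by
        have : x ^ 2 * (2 * J * x) = (2 * J * x ^ 2) * x := by ring
        have h12 : 2 * (J:ℝ) * x ^ 2 ≤ x ^ 3 := by
          have : x ^ 3 = x * x ^ 2 := by ring
          rw [this]
          apply mul_le_mul_of_nonneg_right _ (by positivity)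
          linarith
        calc x ^ 2 * (2 * J * x) = (2 * J * x ^ 2) * x := by ring
          _ ≤ x ^ 3 * x := mul_le_mul_of_nonneg_right h12 hxpos.le
          _ = _ := by ring
      calc x * ((J:ℝ) + 1) ≤ x ^ 2 * 1 := by nlinarith only [hJx, hx4]
        _ ≤ x ^ 2 * (u * (2 * J * x)) := by gcongr
        _ = (x ^ 2 * (2 * J * x)) * u := by ring
        _ ≤ x ^ 4 * u := by gcongr
        _ = x ^ 4 * u * 1 := by ring
        _ ≤ x ^ 4 * u * (3 / 4 * y) := by gcongr
    linarith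
  have t4 : Real.exp (x * ((j + 1) * b) - (Φ / 8 - 1) * a) ≤ Real.exp (-x) := by
    apply Real.exp_le_exp.2
    have hΦx : Φ = x ^ (3 * J + 4) := by
      rw [hΦ, hxy, ← Real.exp_nat_mul]; congr 1; push_cast; ring
    have h1 : (8:ℝ) + 8 * (J + 2) * x ^ (3 * J + 1) ≤ x ^ (3 * J + 4) := by
      have h2 : x ^ (3 * J + 4) = x ^ 3 * x ^ (3 * J + 1) := by
        rw [← pow_add]; congr 1; ring
      have h3 : 1 ≤ x ^ (3 * J + 1) := one_le_pow₀ (by linarith)
      have h4 : (8:ℝ) * (J + 3) ≤ x ^ 3 := by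
        have : x ≤ x ^ 3 := le_self_pow₀ (by linarith) (by norm_num)
        linarith only [this, hJx, hx4]
      rw [h2]
      calc (8:ℝ) + 8 * (J + 2) * x ^ (3 * J + 1) ≤
          8 * x ^ (3 * J + 1) + 8 * (J + 2) * x ^ (3 * J + 1) := by linarith
        _ = (8 * (J + 3)) * x ^ (3 * J + 1) := by ring
        _ ≤ x ^ 3 * x ^ (3 * J + 1) := mul_le_mul_of_nonneg_right h4 (by positivity)
    have h2 : ((J:ℝ) + 2) * x ^ (3 * J + 1) ≤ Φ / 8 - 1 := by rw [hΦx]; linarith
    have h3 : 1 ≤ x ^ (3 * J) * γ ^ j := by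
      have : x ^ (3 * J) = Real.exp (3 * J * y) := by
        rw [hxy, ← Real.exp_nat_mul]; congr 1; push_cast; ring
      rw [this, hγj, ← Real.exp_add]
      apply Real.one_le_exp
      linarith only [hjy]
    have h4 : ((J:ℝ) + 2) * x * b ≤ (Φ / 8 - 1) * a := by
      calc ((J:ℝ) + 2) * x * b = (((J:ℝ) + 2) * x) * 1 * b := by ring
        _ ≤ (((J:ℝ) + 2) * x) * (x ^ (3 * J) * γ ^ j) * b := by gcongr
        _ = (((J:ℝ) + 2) * x ^ (3 * J + 1)) * (γ ^ j * b) := by ring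
        _ ≤ (Φ / 8 - 1) * a := by
            rw [← ha]; exact mul_le_mul_of_nonneg_right h2 ha0.le
    have h5 : x ≤ x * b := le_mul_of_one_le_right hxpos.le (by linarith)
    have h6 : x * (((j:ℝ) + 1) * b) ≤ x * ((J + 1) * b) := by gcongr
    linarith only [h4, h5, h6]
  have t5 : Real.exp (x * ((j + 1) * b) - A / (8 * 2 ^ j)) ≤ Real.exp (-x) := by
    apply Real.exp_le_exp.2
    have h1 : (8:ℝ) * 2 ^ j ≤ 8 * 2 ^ J := by
      have : (2:ℝ) ^ j ≤ 2 ^ J := pow_le_pow_right₀ (by norm_num) hjJ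
      linarith
    have h2 : ((J:ℝ) + 2) * x * b ≤ A / (8 * 2 ^ j) := by
      rw [le_div_iff₀ (by positivity), hA]
      calc ((J:ℝ) + 2) * x * b * (8 * 2 ^ j) ≤ ((J:ℝ) + 2) * x * b * (8 * 2 ^ J) := by gcongr
        _ = (8 * 2 ^ J * ((J:ℝ) + 2)) * (x * b) := by ring
        _ ≤ x * (x * b) := mul_le_mul_of_nonneg_right hx1 (by positivity)
        _ = b * x ^ 2 := by ring
    have h5 : x ≤ x * b := le_mul_of_one_le_right hxpos.le (by linarith)
    have h6 : x * (((j:ℝ) + 1) * b) ≤ x * ((J + 1) * b) := by gcongr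
    linarith only [h2, h5, h6]
  have t6 : Real.exp (x * (k + (k * (j * b) : ℕ)) - (1 - p) ^ k * n / 2) ≤ Real.exp (-x) := by
    apply Real.exp_le_exp.2
    push_cast
    have h1 : Real.exp L * s * x ^ 5 ≤ (1 - p) ^ k * n := by
      rw [← hEs, mul_comm ((1 - p) ^ k)]; exact hmain
    have h2 : x * ((k:ℝ) + k * (j * b)) ≤ x * (x * Real.exp L * (s * (2 * J + 1))) :=
      mul_le_mul_of_nonneg_left hkk hxpos.le
    have h3 : x * 1 ≤ x * (Real.exp L * s) := by
      apply mul_le_mul_of_nonneg_left _ hxpos.le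
      have : 1 ≤ Real.exp L := Real.one_le_exp hL0.le
      exact one_le_mul_of_one_le_of_one_le this hs1
    have h4 : x * (x * Real.exp L * (s * (2 * J + 1))) + x * (Real.exp L * s) ≤
        Real.exp L * s * x ^ 5 / 2 := by
      have h5 : x * (x * Real.exp L * (s * (2 * J + 1))) + x * (Real.exp L * s) =
          (Real.exp L * s) * (x ^ 2 * (2 * J + 1) + x) := by ring
      have h6 : Real.exp L * s * x ^ 5 / 2 = (Real.exp L * s) * (x ^ 5 / 2) := by ring
      rw [h5, h6]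
      apply mul_le_mul_of_nonneg_left _ hLs.le
      have h7 : x ≤ x ^ 2 := le_self_pow₀ (by linarith) (by norm_num)
      have h8 : x ^ 2 * (2 * (J:ℝ) + 1) + x ≤ x ^ 2 * (2 * (J:ℝ) + 2) := by linarith
      refine h8.trans ?_
      have h9 : x ^ 5 / 2 = x ^ 2 * (x ^ 3 / 2) := by ring
      rw [h9]
      apply mul_le_mul_of_nonneg_left _ (by positivity)
      have h10 : x ≤ x ^ 3 := le_self_pow₀ (by linarith) (by norm_num)
      linarith
    linarith only [h1, h2, h3, h4]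
  linarith only [t1, t2, t3, t4, t5, t6]

end Pool.Agent.H1.CC
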