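import Pool.Agent.H1.CC.StageC

/-!
Stage B: many tuples stay uncovered.
-/

set_option autoImplicit false
set_option linter.unusedSectionVars false

namespace Pool.Agent.H1.CC

open Finset

variable {V : Type*} [DecidableEq V] [Fintype V]

lemma star_inj {x : V} {A B : Finset V} (h : ¬ Disjoint (star x A) (star x B)) :
    ∃ v ∈ A, v ∈ B := by
  rw [star_disjoint_iff] at h
  push Not at h
  obtain ⟨b, hb, h⟩ := h
  rw [mem_star] at h
  rcases h with ⟨_, h⟩ | ⟨h1, h2⟩
  · exact ⟨b, h, hb⟩
  · subst h1; exact ⟨x, h2, hb⟩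

/-- one heavy vertex -/
lemma stageB_one {p : ℝ} (h0 : 0 ≤ p) (h1 : p ≤ 1) {κι : Type*} [DecidableEq κι] {x : V}
    {S : Finset (Sym2 V)} (𝒯 : Finset κι) (C : κι → Finset V)
    (hS : ∀ τ ∈ 𝒯, star x (C τ) ⊆ S) {q d κ w : ℝ} (hq : 0 < q) (hd0 : 0 ≤ d) (hκ0 : 0 ≤ κ)
    (hw : 0 < w) (hqC : ∀ τ ∈ 𝒯, q ≤ (1 - p) ^ (C τ).card) (hd : ∀ τ ∈ 𝒯, ((C τ).card : ℝ) ≤ d)
    (hκ : ∀ v, ((𝒯.filter fun τ => v ∈ C τ).card : ℝ) ≤ κ) (hheavy : w / 4 ≤ (𝒯.card : ℝ)) :
    Pr p S (fun T => ((𝒯.filter fun τ => Disjoint T (star x (C τ))).card : ℝ) ≤ q * w / 16) ≤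
      Real.exp (-(q * w / (32 * (1 + d * κ)))) := by
  classical
  set μ : ℝ := ∑ τ ∈ 𝒯, (1 - p) ^ (star x (C τ)).card with hμ
  have hμ1 : q * w / 4 ≤ μ := by
    have e1 : ∑ τ ∈ 𝒯, q ≤ μ := by
      rw [hμ]
      apply Finset.sum_le_sum
      intro τ hτ
      rw [card_star]
      exact hqC τ hτ
    rw [Finset.sum_const, nsmul_eq_mul] at e1
    nlinarith
  have hμ0 : 0 < μ := lt_of_lt_of_le (by positivity) hμ1
  have hdκ : 0 ≤ d * κ := mul_nonneg hd0 hκ0
  have hp1 : 0 ≤ 1 - p := by linarith
  set D : ℝ := μ * (1 + d * κ) with hD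
  have hres := janson_avoid (S := S) h0 h1 𝒯 (fun τ => star x (C τ)) hS (μ := μ) (D := D)
    (le_refl _) hμ0 (by rw [hD]; nlinarith) ?_
  · have e2 : Pr p S (fun T => ((𝒯.filter fun τ => Disjoint T (star x (C τ))).card : ℝ) ≤
        q * w / 16) ≤ Pr p S (fun T => ((𝒯.filter fun τ => Disjoint T (star x (C τ))).card : ℝ) ≤
        μ / 4) := by
      apply Pr_mono h0 h1
      intro T _ h
      linarith
    refine e2.trans (hres.trans (Real.exp_le_exp.2 ?_))
    have e3 : μ ^ 2 / (8 * D) = μ / (8 * (1 + d * κ)) := by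
      rw [hD]; field_simp
    rw [e3]
    have e4 : q * w / (32 * (1 + d * κ)) ≤ μ / (8 * (1 + d * κ)) := by
      rw [div_le_div_iff₀ (by positivity) (by positivity)]
      nlinarith
    linarith
  · have e5 : ∀ τ ∈ 𝒯, ∑ τ' ∈ 𝒯, (1 - p) ^ (star x (C τ) ∪ star x (C τ')).card *
        ind (τ ≠ τ' ∧ ¬ Disjoint (star x (C τ)) (star x (C τ'))) ≤
        (1 - p) ^ (star x (C τ)).card * (d * κ) := by
      intro τ hτ
      have e6 : ∀ τ' ∈ 𝒯, (1 - p) ^ (star x (C τ) ∪ star x (C τ')).card *
          ind (τ ≠ τ' ∧ ¬ Disjoint (star x (C τ)) (star x (C τ'))) ≤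
          (1 - p) ^ (star x (C τ)).card * ∑ v ∈ C τ, ind (v ∈ C τ') := by
        intro τ' _
        apply mul_le_mul
        · exact pow_le_pow_of_le_one hp1 (by linarith)
            (Finset.card_le_card Finset.subset_union_left)
        · by_cases h : Disjoint (star x (C τ)) (star x (C τ'))
          · rw [ind_not_of fun h' => h'.2 h]
            exact Finset.sum_nonneg fun v _ => ind_nonneg _
          · obtain ⟨v, hv, hv'⟩ := star_inj h
            calc _ ≤ (1:ℝ) := ind_le_one _
              _ = ind (v ∈ C τ') := (ind_of hv').symm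
              _ ≤ _ := Finset.single_le_sum (f := fun v => ind (v ∈ C τ'))
                  (fun _ _ => ind_nonneg _) hv
        · exact ind_nonneg _
        · exact pow_nonneg hp1 _
      refine (Finset.sum_le_sum e6).trans ?_
      rw [← Finset.mul_sum, Finset.sum_comm]
      apply mul_le_mul_of_nonneg_left _ (pow_nonneg hp1 _)
      have e7 : ∀ v ∈ C τ, ∑ τ' ∈ 𝒯, ind (v ∈ C τ') ≤ κ := by
        intro v _
        refine le_trans (le_of_eq ?_) (hκ v)
        rw [Finset.card_filter]
        push_cast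
        apply Finset.sum_congr rfl
        intro τ' _
        by_cases h : v ∈ C τ'
        · rw [ind_of h, if_pos h]
        · rw [ind_not_of h, if_neg h]
      refine (Finset.sum_le_sum e7).trans ?_
      rw [Finset.sum_const, nsmul_eq_mul]
      exact mul_le_mul_of_nonneg_right (hd τ hτ) hκ0
    refine (Finset.sum_le_sum e5).trans ?_
    rw [← Finset.sum_mul, hD]
    nlinarith

lemma stageB {p : ℝ} (h0 : 0 ≤ p) (h1 : p ≤ 1) {j : ℕ} (l0 : Fin j) {Y : Fin j → Finset V}
    {R : Finset V} (hR : Disjoint R (Y l0)) {S : Finset (Sym2 V)}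
    {T0 : Finset (Fin j → V)} (hT0 : T0 ⊆ Fintype.piFinset Y) (C : (Fin j → V) → Finset V)
    (hC : ∀ τ ∈ T0, C τ ⊆ R) (hS : ∀ x ∈ Y l0, star x R ⊆ S)
    {q d κ w : ℝ} (hq : 0 < q) (hd0 : 0 ≤ d) (hκ0 : 0 ≤ κ)
    (hqC : ∀ τ ∈ T0, q ≤ (1 - p) ^ (C τ).card) (hd : ∀ τ ∈ T0, ((C τ).card : ℝ) ≤ d)
    (hκ : ∀ x v, ((T0.filter fun τ => τ l0 = x ∧ v ∈ C τ).card : ℝ) ≤ κ)
    (hw : w = ∏ l ∈ Finset.univ.erase l0, ((Y l).card : ℝ)) (hw0 : 0 < w)
    (hTw : 1 / 2 * (((Y l0).card : ℝ) * w) ≤ (T0.card : ℝ)) :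
    Pr p S (fun T => ((T0.filter fun τ => Disjoint T (star (τ l0) (C τ))).card : ℝ) <
        q / 128 * (((Y l0).card : ℝ) * w)) ≤
      Real.exp (((Y l0).card : ℝ) - q * w / (32 * (1 + d * κ)) * ((Y l0).card : ℝ) / 8) := by
  classical
  set y : ℝ := ((Y l0).card : ℝ) with hy
  have hy0 : 0 ≤ y := Nat.cast_nonneg _
  set Φ : ℝ := q * w / (32 * (1 + d * κ)) with hΦ
  have hΦ0 : 0 ≤ Φ := by positivity
  set fib : V → Finset (Fin j → V) := fun x => T0.filter fun τ => τ l0 = x with hfib
  set cnt : Finset (Sym2 V) → V → ℕ := fun T x =>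
    ((fib x).filter fun τ => Disjoint T (star x (C τ))).card with hcnt
  set heavy := (Y l0).filter fun x => w / 4 ≤ ((fib x).card : ℝ) with hheavy
  have hfibw : ∀ x ∈ Y l0, ((fib x).card : ℝ) ≤ w := by
    intro x hx
    have hsub : fib x ⊆ Fintype.piFinset (fun l => if l = l0 then {x} else Y l) := by
      intro τ hτ
      rw [hfib] at hτ
      rw [Finset.mem_filter] at hτ
      rw [Fintype.mem_piFinset]
      intro l
      by_cases hl : l = l0
      · subst hl
        rw [if_pos rfl, Finset.mem_singleton]; exact hτ.2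
      · rw [if_neg hl]; exact (Fintype.mem_piFinset.1 (hT0 hτ.1)) l
    have h3 := Finset.card_le_card hsub
    rw [Fintype.card_piFinset] at h3
    have h4 : ((∏ l, (if l = l0 then {x} else Y l).card : ℕ) : ℝ) = w := by
      rw [Nat.cast_prod, hw, ← Finset.mul_prod_erase Finset.univ _ (Finset.mem_univ l0)]
      simp only [if_true, Finset.card_singleton, Nat.cast_one, one_mul]
      apply Finset.prod_congr rfl
      intro l hl
      rw [if_neg (Finset.ne_of_mem_erase hl)]
    rw [← h4]
    exact_mod_cast h3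
  have hsumfib : ∑ x ∈ Y l0, ((fib x).card : ℝ) = (T0.card : ℝ) := by
    rw [← Nat.cast_sum]
    congr 1
    exact (Finset.card_eq_sum_card_fiberwise (f := fun τ : Fin j → V => τ l0) (fun τ hτ =>
      (Fintype.mem_piFinset.1 (hT0 hτ)) l0)).symm
  have hheavycard : y / 3 ≤ (heavy.card : ℝ) := by
    have e1 : ∑ x ∈ Y l0, ((fib x).card : ℝ) ≤ ∑ x ∈ Y l0, (if w / 4 ≤ ((fib x).card : ℝ) then w
        else w / 4) := by
      apply Finset.sum_le_sum
      intro x hx
      split_ifs with h
      · exact hfibw x hx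
      · exact (not_le.1 h).le
    rw [hsumfib, Finset.sum_ite, Finset.sum_const, Finset.sum_const, nsmul_eq_mul, nsmul_eq_mul,
      ← hheavy] at e1
    have e2 : (heavy.card : ℝ) + (((Y l0).filter fun x => ¬ w / 4 ≤ ((fib x).card : ℝ)).card : ℝ) =
        y := by
      rw [hy, ← Nat.cast_add]
      congr 1
      exact Finset.card_filter_add_card_filter_not _
    have e3 : 1 / 2 * (y * w) ≤ (heavy.card : ℝ) * w + (y - heavy.card) * (w / 4) := by
      have : (((Y l0).filter fun x => ¬ w / 4 ≤ ((fib x).card : ℝ)).card : ℝ) = y - heavy.card := by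
        linarith
      rw [this] at e1
      linarith
    have e4 : 0 ≤ ((heavy.card : ℝ) - y / 3) * w := by nlinarith
    by_contra hcon
    push Not at hcon
    have : ((heavy.card : ℝ) - y / 3) * w < 0 := mul_neg_of_neg_of_pos (by linarith) hw0
    linarith
  -- the failing event forces many failing heavy vertices
  have step1 : Pr p S (fun T => ((T0.filter fun τ => Disjoint T (star (τ l0) (C τ))).card : ℝ) <
        q / 128 * (y * w)) ≤
      Pr p S (fun T => ∃ H ∈ heavy.powerset.filter (fun H => y / 8 ≤ (H.card : ℝ)),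
        ∀ x ∈ H, ((cnt T x : ℕ) : ℝ) ≤ q * w / 16) := by
    apply Pr_mono h0 h1
    intro T _ hT
    refine ⟨heavy.filter fun x => ((cnt T x : ℕ) : ℝ) ≤ q * w / 16, ?_, ?_⟩
    · rw [Finset.mem_filter, Finset.mem_powerset]
      refine ⟨Finset.filter_subset _ _, ?_⟩
      by_contra hcon
      push Not at hcon
      have e5 : (T0.filter fun τ => Disjoint T (star (τ l0) (C τ))).card =
          ∑ x ∈ Y l0, cnt T x := by
        rw [Finset.card_eq_sum_card_fiberwise (f := fun τ : Fin j → V => τ l0) (t := Y l0)]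
        · apply Finset.sum_congr rfl
          intro x _
          rw [hcnt, hfib]
          beta_reduce
          congr 1
          ext τ
          simp only [Finset.mem_filter]
          constructor
          · rintro ⟨⟨h2, h3⟩, h4⟩
            refine ⟨⟨h2, h4⟩, ?_⟩
            rw [← h4]; exact h3
          · rintro ⟨⟨h2, h4⟩, h3⟩
            refine ⟨⟨h2, ?_⟩, h4⟩
            rw [h4]; exact h3
        · intro τ hτ
          exact (Fintype.mem_piFinset.1 (hT0 (Finset.mem_filter.1 hτ).1)) l0
      rw [e5] at hT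
      push_cast at hT
      have e6 : ∑ x ∈ heavy.filter (fun x => ¬ ((cnt T x : ℕ) : ℝ) ≤ q * w / 16), (q * w / 16) ≤
          ∑ x ∈ Y l0, ((cnt T x : ℕ) : ℝ) := by
        refine le_trans (Finset.sum_le_sum (g := fun x => ((cnt T x : ℕ) : ℝ)) ?_) ?_
        · intro x hx
          exact (not_le.1 (Finset.mem_filter.1 hx).2).le
        · apply Finset.sum_le_sum_of_subset_of_nonneg
          · exact (Finset.filter_subset _ _).trans (Finset.filter_subset _ _)
          · intro x _ _
            exact Nat.cast_nonneg _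
      rw [Finset.sum_const, nsmul_eq_mul] at e6
      have e7 : ((heavy.filter fun x => ((cnt T x : ℕ) : ℝ) ≤ q * w / 16).card : ℝ) +
          ((heavy.filter fun x => ¬ ((cnt T x : ℕ) : ℝ) ≤ q * w / 16).card : ℝ) =
          (heavy.card : ℝ) := by
        rw [← Nat.cast_add]
        congr 1
        exact Finset.card_filter_add_card_filter_not _
      have e8 : y / 8 ≤ ((heavy.filter fun x => ¬ ((cnt T x : ℕ) : ℝ) ≤ q * w / 16).card : ℝ) := by
        linarith
      have e9 : y / 8 * (q * w / 16) ≤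
          ((heavy.filter fun x => ¬ ((cnt T x : ℕ) : ℝ) ≤ q * w / 16).card : ℝ) * (q * w / 16) :=
        mul_le_mul_of_nonneg_right e8 (by positivity)
      nlinarith
    · intro x hx
      exact (Finset.mem_filter.1 hx).2
  refine step1.trans ((Pr_exists_le h0 h1 _ _).trans ?_)
  have step2 : ∀ H ∈ heavy.powerset.filter (fun H => y / 8 ≤ (H.card : ℝ)),
      Pr p S (fun T => ∀ x ∈ H, ((cnt T x : ℕ) : ℝ) ≤ q * w / 16) ≤ Real.exp (-(Φ * (y / 8))) := by
    intro H hH
    rw [Finset.mem_filter, Finset.mem_powerset] at hH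
    have hHY : H ⊆ Y l0 := hH.1.trans (Finset.filter_subset _ _)
    unfold Pr
    simp only [ind_forall]
    rw [Ex_prod_indep H (fun x => star x R)]
    · have e1 : ∀ x ∈ H, Ex p S (fun T => ind (((cnt T x : ℕ) : ℝ) ≤ q * w / 16)) ≤
          Real.exp (-Φ) := by
        intro x hx
        have hxh : x ∈ heavy := hH.1 hx
        have := stageB_one (S := S) h0 h1 (x := x) (fib x) C
          (fun τ hτ => (star_mono (hC τ (Finset.mem_filter.1 hτ).1)).trans (hS x (hHY hx)))
          hq hd0 hκ0 hw0 (fun τ hτ => hqC τ (Finset.mem_filter.1 hτ).1)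
          (fun τ hτ => hd τ (Finset.mem_filter.1 hτ).1)
          (fun v => by
            have h2 := hκ x v
            rw [hfib]
            rw [Finset.filter_filter]
            exact h2)
          (Finset.mem_filter.1 hxh).2
        exact this
      calc ∏ x ∈ H, Ex p S (fun T => ind (((cnt T x : ℕ) : ℝ) ≤ q * w / 16)) ≤
          ∏ x ∈ H, Real.exp (-Φ) := by
            apply Finset.prod_le_prod
            · intro x _
              exact Ex_nonneg h0 h1 fun T _ => ind_nonneg _
            · exact e1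
        _ = Real.exp (-(Φ * H.card)) := by
            rw [Finset.prod_const, ← Real.exp_nat_mul]
            congr 1
            ring
        _ ≤ _ := by
            apply Real.exp_le_exp.2
            have := mul_le_mul_of_nonneg_left hH.2 hΦ0
            linarith
    · intro x hx T
      apply ind_congr
      have : cnt T x = cnt (T ∩ star x R) x := by
        rw [hcnt]
        beta_reduce
        congr 1
        apply Finset.filter_congr
        intro τ hτ
        have hsub : star x (C τ) ⊆ star x R := star_mono (hC τ (Finset.mem_filter.1 hτ).1)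
        rw [Finset.disjoint_iff_inter_eq_empty, Finset.disjoint_iff_inter_eq_empty,
          Finset.inter_assoc, Finset.inter_eq_right.2 hsub]
      rw [this]
    · intro x hx
      exact hS x (hHY hx)
    · intro x hx x' hx' hxx
      exact star_disjoint_star hxx (Or.inl fun h => Finset.disjoint_left.1 hR h (hHY hx))
  refine (Finset.sum_le_sum step2).trans ?_
  rw [Finset.sum_const, nsmul_eq_mul]
  have hcount : ((heavy.powerset.filter (fun H => y / 8 ≤ (H.card : ℝ))).card : ℝ) ≤
      Real.exp y := by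
    calc ((heavy.powerset.filter (fun H => y / 8 ≤ (H.card : ℝ))).card : ℝ) ≤
        ((heavy.powerset).card : ℝ) := by exact_mod_cast Finset.card_filter_le _ _
      _ ≤ (((Y l0).powerset).card : ℝ) := by
          exact_mod_cast Finset.card_le_card (Finset.powerset_mono.2 (Finset.filter_subset _ _))
      _ = (2:ℝ) ^ (Y l0).card := by rw [Finset.card_powerset]; push_cast; ring
      _ ≤ (Real.exp 1) ^ (Y l0).card := by
          apply pow_le_pow_left₀ (by norm_num)
          have := Real.add_one_le_exp (1:ℝ)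
          linarith
      _ = Real.exp y := by rw [← Real.exp_nat_mul, mul_one]
  calc ((heavy.powerset.filter (fun H => y / 8 ≤ (H.card : ℝ))).card : ℝ) *
      Real.exp (-(Φ * (y / 8))) ≤ Real.exp y * Real.exp (-(Φ * (y / 8))) :=
        mul_le_mul_of_nonneg_right hcount (Real.exp_pos _).le
    _ = Real.exp (y - Φ * y / 8) := by
        rw [← Real.exp_add]; congr 1; ring

end Pool.Agent.H1.CC
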