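import Pool.Agent.H1.CC.Graph

/-!
Uncovered vertices, number of small sets, and Janson's inequality for transversal cliques.
-/

set_option autoImplicit false
set_option linter.unusedSectionVars false

namespace Pool.Agent.H1.CC

open Finset

variable {V : Type*} [DecidableEq V] [Fintype V]

lemma card_small (M : ℕ) :
    ((Finset.univ.filter fun Z : Finset V => Z.card ≤ M).card : ℕ) ≤ (Fintype.card V + 1) ^ M := by
  classical
  set n := Fintype.card V with hn
  have h1 : (Finset.univ.filter fun Z : Finset V => Z.card ≤ M) ⊆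
      (Finset.range (M + 1)).biUnion fun i => (Finset.univ : Finset V).powersetCard i := by
    intro Z hZ
    rw [Finset.mem_biUnion]
    exact ⟨Z.card, Finset.mem_range.2 (Nat.lt_succ_of_le (Finset.mem_filter.1 hZ).2),
      Finset.mem_powersetCard.2 ⟨Finset.subset_univ _, rfl⟩⟩
  calc _ ≤ _ := Finset.card_le_card h1
    _ ≤ ∑ i ∈ Finset.range (M + 1), ((Finset.univ : Finset V).powersetCard i).card :=
        Finset.card_biUnion_le
    _ ≤ ∑ i ∈ Finset.range (M + 1), n ^ i * M.choose i := by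
        apply Finset.sum_le_sum
        intro i hi
        rw [Finset.card_powersetCard, Finset.card_univ, ← hn]
        have h2 : 1 ≤ M.choose i := Nat.choose_pos (Nat.lt_succ_iff.1 (Finset.mem_range.1 hi))
        calc n.choose i ≤ n ^ i := Nat.choose_le_pow n i
          _ = n ^ i * 1 := (mul_one _).symm
          _ ≤ _ := Nat.mul_le_mul_left _ h2
    _ = (n + 1) ^ M := by
        rw [add_pow]
        simp

/-- vertices outside `W` without neighbour in `W` -/
def unc (T : Finset (Sym2 V)) (W : Finset V) : Finset V :=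
  (Finset.univ \ W).filter fun u => Disjoint T (star u W)

lemma mem_unc {T : Finset (Sym2 V)} {W : Finset V} {u : V} :
    u ∈ unc T W ↔ u ∉ W ∧ ∀ w ∈ W, s(u, w) ∉ T := by
  unfold unc
  rw [Finset.mem_filter, Finset.mem_sdiff, star_disjoint_iff]
  simp

lemma dep_star_disjoint (F : Finset (Sym2 V)) : Dep (fun T => ind (Disjoint T F)) F := by
  intro T
  apply ind_congr
  rw [Finset.disjoint_iff_inter_eq_empty, Finset.disjoint_iff_inter_eq_empty, Finset.inter_assoc,
    Finset.inter_self]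

lemma prob_unc {p : ℝ} (h0 : 0 ≤ p) (h1 : p ≤ 1) (W : Finset V) (M : ℕ)
    (hM : W.card + M ≤ Fintype.card V) :
    Pr p (allE V) (fun T => (unc T W).card ≤ M) ≤
      ((Fintype.card V : ℝ) + 1) ^ M *
        (1 - (1 - p) ^ W.card) ^ (Fintype.card V - W.card - M) := by
  classical
  have hq0 : 0 ≤ 1 - (1 - p) ^ W.card := by
    have := pow_le_one₀ (n := W.card) (by linarith : 0 ≤ 1 - p) (by linarith)
    linarith
  have hq1 : 1 - (1 - p) ^ W.card ≤ 1 := by
    have := pow_nonneg (by linarith : 0 ≤ 1 - p) W.card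
    linarith
  set Zs := Finset.univ.filter fun Z : Finset V => Z.card ≤ M with hZs
  have step1 : Pr p (allE V) (fun T => (unc T W).card ≤ M) ≤
      Pr p (allE V) (fun T => ∃ Z ∈ Zs, ∀ u ∈ (Finset.univ \ W) \ Z, ¬ Disjoint T (star u W)) := by
    apply Pr_mono h0 h1
    intro T _ h
    refine ⟨unc T W, Finset.mem_filter.2 ⟨Finset.mem_univ _, h⟩, ?_⟩
    intro u hu hd
    rw [Finset.mem_sdiff] at hu
    exact hu.2 (Finset.mem_filter.2 ⟨hu.1, hd⟩)
  refine step1.trans ((Pr_exists_le h0 h1 _ _).trans ?_)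
  have step2 : ∀ Z ∈ Zs, Pr p (allE V)
      (fun T => ∀ u ∈ (Finset.univ \ W) \ Z, ¬ Disjoint T (star u W)) ≤
      (1 - (1 - p) ^ W.card) ^ (Fintype.card V - W.card - M) := by
    intro Z hZ
    have hZM : Z.card ≤ M := (Finset.mem_filter.1 hZ).2
    unfold Pr
    simp only [ind_forall]
    rw [Ex_prod_indep ((Finset.univ \ W) \ Z) (fun u => star u W)]
    · have e1 : ∀ u ∈ (Finset.univ \ W) \ Z,
          Ex p (allE V) (fun T => ind (¬ Disjoint T (star u W))) = 1 - (1 - p) ^ W.card := by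
        intro u hu
        have huW : u ∉ W := (Finset.mem_sdiff.1 (Finset.mem_sdiff.1 hu).1).2
        simp only [ind_not]
        rw [Ex_sub, Ex_const, Ex_disjoint (star_subset_allE huW), card_star]
      rw [Finset.prod_congr rfl e1, Finset.prod_const]
      apply pow_le_pow_of_le_one hq0 hq1
      have e2 : Fintype.card V - W.card - Z.card ≤ ((Finset.univ \ W) \ Z).card := by
        have h3 := Finset.le_card_sdiff Z (Finset.univ \ W)
        rw [Finset.card_sdiff_of_subset (Finset.subset_univ W), Finset.card_univ] at h3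
        exact h3
      omega
    · intro u _ T
      beta_reduce
      rw [ind_not, ind_not]
      congr 1
      exact dep_star_disjoint (star u W) T
    · intro u hu
      exact star_subset_allE (Finset.mem_sdiff.1 (Finset.mem_sdiff.1 hu).1).2
    · intro u hu v hv huv
      exact star_disjoint_star huv (Or.inl (Finset.mem_sdiff.1 (Finset.mem_sdiff.1 hu).1).2)
  refine (Finset.sum_le_sum step2).trans ?_
  rw [Finset.sum_const, nsmul_eq_mul]
  apply mul_le_mul_of_nonneg_right _ (pow_nonneg hq0 _)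
  have := card_small (V := V) M
  exact_mod_cast this

/-- the vertex set of a tuple -/
def vs {j : ℕ} (τ : Fin j → V) : Finset V := Finset.univ.image τ

lemma mem_vs {j : ℕ} {τ : Fin j → V} {v : V} : v ∈ vs τ ↔ ∃ l, τ l = v := by
  unfold vs; simp

lemma inj_of_mem {j : ℕ} {Y : Fin j → Finset V} (hY : ∀ l l', l ≠ l' → Disjoint (Y l) (Y l'))
    {τ τ' : Fin j → V} (hτ : τ ∈ Fintype.piFinset Y) (hτ' : τ' ∈ Fintype.piFinset Y) {l l' : Fin j}
    (h : τ l = τ' l') : l = l' := by
  by_contra hne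
  rw [Fintype.mem_piFinset] at hτ hτ'
  exact (Finset.disjoint_left.1 (hY l l' hne) (hτ l)) (h ▸ hτ' l')

lemma card_vs {j : ℕ} {Y : Fin j → Finset V} (hY : ∀ l l', l ≠ l' → Disjoint (Y l) (Y l'))
    {τ : Fin j → V} (hτ : τ ∈ Fintype.piFinset Y) : (vs τ).card = j := by
  unfold vs
  rw [Finset.card_image_of_injective _ (fun l l' h => inj_of_mem hY hτ hτ h), Finset.card_univ,
    Fintype.card_fin]

lemma vs_inter {j : ℕ} {Y : Fin j → Finset V} (hY : ∀ l l', l ≠ l' → Disjoint (Y l) (Y l'))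
    {τ τ' : Fin j → V} (hτ : τ ∈ Fintype.piFinset Y) (hτ' : τ' ∈ Fintype.piFinset Y) :
    (vs τ ∩ vs τ').card = (Finset.univ.filter fun l => τ l = τ' l).card := by
  have : vs τ ∩ vs τ' = (Finset.univ.filter fun l => τ l = τ' l).image τ := by
    ext v
    rw [Finset.mem_inter, mem_vs, mem_vs, Finset.mem_image]
    constructor
    · rintro ⟨⟨l, hl⟩, ⟨l', hl'⟩⟩
      have : l = l' := inj_of_mem hY hτ hτ' (hl.trans hl'.symm)
      subst this
      exact ⟨l, Finset.mem_filter.2 ⟨Finset.mem_univ _, hl.trans hl'.symm⟩, hl⟩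
    · rintro ⟨l, hl, rfl⟩
      exact ⟨⟨l, rfl⟩, ⟨l, (Finset.mem_filter.1 hl).2.symm⟩⟩
  rw [this, Finset.card_image_of_injective _ (fun l l' h => inj_of_mem hY hτ hτ h)]

lemma stageC {p : ℝ} (h0 : 0 < p) (h1 : p ≤ 1) {j : ℕ} (hj : 2 ≤ j) {Y : Fin j → Finset V}
    (hY : ∀ l l', l ≠ l' → Disjoint (Y l) (Y l')) {S : Finset (Sym2 V)}
    {F : Finset (Fin j → V)} (hF : F ⊆ Fintype.piFinset Y)
    (hS : ∀ τ ∈ F, ins (vs τ) ⊆ S) {ρ a A : ℝ} (hρ : 0 < ρ) (ha : 0 < a)
    (haY : ∀ l, a ≤ ((Y l).card : ℝ)) (hFρ : ρ * ∏ l, ((Y l).card : ℝ) ≤ (F.card : ℝ))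
    (hA : 0 < A) (hA2 : ∀ g : ℕ, 2 ≤ g → g ≤ j → A ≤ ρ * a ^ g * p ^ (g.choose 2)) :
    Pr p S (fun T => ∀ τ ∈ F, ¬ ins (vs τ) ⊆ T) ≤ Real.exp (-(A / (8 * 2 ^ j))) := by
  classical
  have hYpos : ∀ l, 0 < ((Y l).card : ℝ) := fun l => lt_of_lt_of_le ha (haY l)
  have hprod : 0 < ∏ l, ((Y l).card : ℝ) := Finset.prod_pos fun l _ => hYpos l
  have hFpos : 0 < (F.card : ℝ) := lt_of_lt_of_le (mul_pos hρ hprod) hFρ
  set C := j.choose 2 with hC
  set μ : ℝ := (F.card : ℝ) * p ^ C with hμ
  have hμ0 : 0 < μ := mul_pos hFpos (pow_pos h0 _)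
  -- the key inequality
  have key : ∀ J : Finset (Fin j), 2 ≤ J.card →
      A * ∏ l, (if l ∈ J then (1:ℝ) else ((Y l).card : ℝ)) ≤ (F.card : ℝ) * p ^ (J.card.choose 2) := by
    intro J hJ
    have hJj : J.card ≤ j := by simpa using Finset.card_le_univ J
    have e1 : ∏ l, ((Y l).card : ℝ) = (∏ l, (if l ∈ J then (1:ℝ) else ((Y l).card : ℝ))) *
        ∏ l ∈ J, ((Y l).card : ℝ) := by
      have e0 : ∏ l ∈ J, ((Y l).card : ℝ) = ∏ l, (if l ∈ J then ((Y l).card : ℝ) else 1) := by
        rw [Finset.prod_ite_mem, Finset.univ_inter]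
      rw [e0, ← Finset.prod_mul_distrib]
      apply Finset.prod_congr rfl
      intro l _
      by_cases h : l ∈ J <;> simp [h]
    have e2 : a ^ J.card ≤ ∏ l ∈ J, ((Y l).card : ℝ) := by
      rw [← Finset.prod_const]
      exact Finset.prod_le_prod (fun _ _ => ha.le) (fun l _ => haY l)
    set P := ∏ l, (if l ∈ J then (1:ℝ) else ((Y l).card : ℝ)) with hP
    have hP0 : 0 ≤ P := Finset.prod_nonneg fun l _ => by
      split_ifs
      · norm_num
      · exact (hYpos l).le
    have hp : 0 ≤ p ^ (J.card.choose 2) := (pow_pos h0 _).le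
    calc A * P ≤ (ρ * a ^ J.card * p ^ (J.card.choose 2)) * P :=
          mul_le_mul_of_nonneg_right (hA2 J.card hJ hJj) hP0
      _ = (ρ * (P * a ^ J.card)) * p ^ (J.card.choose 2) := by ring
      _ ≤ (ρ * (P * ∏ l ∈ J, ((Y l).card : ℝ))) * p ^ (J.card.choose 2) :=
          mul_le_mul_of_nonneg_right
            (mul_le_mul_of_nonneg_left (mul_le_mul_of_nonneg_left e2 hP0) hρ.le) hp
      _ = (ρ * ∏ l, ((Y l).card : ℝ)) * p ^ (J.card.choose 2) := by rw [e1]
      _ ≤ _ := mul_le_mul_of_nonneg_right hFρ hp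
  have hAμ : A ≤ μ := by
    have h2 := key Finset.univ (by rw [Finset.card_univ, Fintype.card_fin]; exact hj)
    rw [Finset.prod_congr rfl (fun l _ => if_pos (Finset.mem_univ l)), Finset.prod_const_one,
      mul_one, Finset.card_univ, Fintype.card_fin] at h2
    exact h2
  set D : ℝ := 2 ^ j * (μ ^ 2 / A) with hD
  have hμD : μ ≤ D := by
    rw [hD]
    have h2 : μ ≤ μ ^ 2 / A := by
      rw [le_div_iff₀ hA]
      nlinarith
    have h3 : (1:ℝ) ≤ 2 ^ j := one_le_pow₀ (by norm_num)
    have h4 : 0 ≤ μ ^ 2 / A := by positivity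
    nlinarith
  have hcard : ∀ τ ∈ F, (ins (vs τ)).card = C := fun τ hτ => by
    rw [card_ins, card_vs hY (hF hτ)]
  have hres := janson_contain (S := S) h0.le h1 F (fun τ => ins (vs τ)) hS (μ := μ) (D := D)
    (by rw [Finset.sum_congr rfl fun τ hτ => by rw [hcard τ hτ], Finset.sum_const, nsmul_eq_mul])
    hμ0 hμD ?_
  · refine hres.trans (Real.exp_le_exp.2 ?_)
    have : μ ^ 2 / (8 * D) = A / (8 * 2 ^ j) := by
      rw [hD]; field_simp
    rw [this]
  -- the bound of the pair sum
  have hpair : ∀ τ ∈ F, ∀ τ' ∈ F,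
      p ^ (ins (vs τ) ∪ ins (vs τ')).card * ind (τ ≠ τ' ∧ ¬ Disjoint (ins (vs τ)) (ins (vs τ'))) ≤
      ∑ J : Finset (Fin j), (if 2 ≤ J.card ∧ ∀ l ∈ J, τ' l = τ l then
        p ^ (2 * C) / p ^ (J.card.choose 2) else 0) := by
    intro τ hτ τ' hτ'
    have hnn : ∀ J ∈ (Finset.univ : Finset (Finset (Fin j))),
        0 ≤ (if 2 ≤ J.card ∧ ∀ l ∈ J, τ' l = τ l then
        p ^ (2 * C) / p ^ (J.card.choose 2) else 0) := by
      intro J _
      split_ifs
      · positivity
      · exact le_refl 0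
    by_cases hd : Disjoint (ins (vs τ)) (ins (vs τ'))
    · rw [ind_not_of (fun h => h.2 hd), mul_zero]
      exact Finset.sum_nonneg hnn
    · refine le_trans ?_ (Finset.single_le_sum hnn
        (Finset.mem_univ (Finset.univ.filter fun l => τ l = τ' l)))
      set J := Finset.univ.filter fun l => τ l = τ' l with hJ
      have hJc : (vs τ ∩ vs τ').card = J.card := vs_inter hY (hF hτ) (hF hτ')
      have hJ2 : 2 ≤ J.card := by
        rw [← hJc]
        rw [Finset.not_disjoint_iff] at hd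
        obtain ⟨e, he, he'⟩ := hd
        have : e ∈ ins (vs τ ∩ vs τ') := by
          rw [← ins_inter]; exact Finset.mem_inter.2 ⟨he, he'⟩
        obtain ⟨u, hu, v, hv, huv, _⟩ := mem_ins'.1 this
        exact Finset.one_lt_card.2 ⟨u, hu, v, hv, huv⟩
      rw [if_pos ⟨hJ2, fun l hl => (Finset.mem_filter.1 hl).2.symm⟩]
      have hcu := card_ins_union (vs τ) (vs τ')
      rw [hJc, card_vs hY (hF hτ), card_vs hY (hF hτ'), ← hC] at hcu
      rw [le_div_iff₀ (pow_pos h0 _)]
      calc p ^ (ins (vs τ) ∪ ins (vs τ')).card *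
            ind (τ ≠ τ' ∧ ¬ Disjoint (ins (vs τ)) (ins (vs τ'))) * p ^ (J.card.choose 2)
          ≤ p ^ (ins (vs τ) ∪ ins (vs τ')).card * 1 * p ^ (J.card.choose 2) := by
            gcongr
            exact ind_le_one _
        _ = p ^ (2 * C) := by
            rw [mul_one, ← pow_add, hcu]; ring_nf
  calc ∑ τ ∈ F, ∑ τ' ∈ F,
      p ^ (ins (vs τ) ∪ ins (vs τ')).card * ind (τ ≠ τ' ∧ ¬ Disjoint (ins (vs τ)) (ins (vs τ')))
      ≤ ∑ τ ∈ F, ∑ τ' ∈ F, ∑ J : Finset (Fin j), (if 2 ≤ J.card ∧ ∀ l ∈ J, τ' l = τ l then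
        p ^ (2 * C) / p ^ (J.card.choose 2) else 0) :=
        Finset.sum_le_sum fun τ hτ => Finset.sum_le_sum fun τ' hτ' => hpair τ hτ τ' hτ'
    _ = ∑ τ ∈ F, ∑ J : Finset (Fin j), ∑ τ' ∈ F, (if 2 ≤ J.card ∧ ∀ l ∈ J, τ' l = τ l then
        p ^ (2 * C) / p ^ (J.card.choose 2) else 0) :=
        Finset.sum_congr rfl fun τ _ => Finset.sum_comm
    _ ≤ ∑ τ ∈ F, ∑ J : Finset (Fin j), (F.card : ℝ) * p ^ (2 * C) / A := by
        apply Finset.sum_le_sum
        intro τ hτ
        apply Finset.sum_le_sum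
        intro J _
        by_cases hJ : 2 ≤ J.card
        · rw [← Finset.sum_filter, Finset.sum_const, nsmul_eq_mul]
          have hc : ((F.filter fun τ' => 2 ≤ J.card ∧ ∀ l ∈ J, τ' l = τ l).card : ℝ) ≤
              ∏ l, (if l ∈ J then (1:ℝ) else ((Y l).card : ℝ)) := by
            have hsub : (F.filter fun τ' => 2 ≤ J.card ∧ ∀ l ∈ J, τ' l = τ l) ⊆
                Fintype.piFinset (fun l => if l ∈ J then {τ l} else Y l) := by
              intro τ' hτ'
              rw [Finset.mem_filter] at hτ'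
              rw [Fintype.mem_piFinset]
              intro l
              by_cases hl : l ∈ J
              · rw [if_pos hl, Finset.mem_singleton]; exact hτ'.2.2 l hl
              · rw [if_neg hl]; exact (Fintype.mem_piFinset.1 (hF hτ'.1)) l
            have h3 := Finset.card_le_card hsub
            rw [Fintype.card_piFinset] at h3
            have h4 : ((∏ l, (if l ∈ J then {τ l} else Y l).card : ℕ) : ℝ) =
                ∏ l, (if l ∈ J then (1:ℝ) else ((Y l).card : ℝ)) := by
              rw [Nat.cast_prod]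
              apply Finset.prod_congr rfl
              intro l _
              by_cases hl : l ∈ J <;> simp [hl]
            rw [← h4]
            exact_mod_cast h3
          have hk := key J hJ
          have hk' : (∏ l, (if l ∈ J then (1:ℝ) else ((Y l).card : ℝ))) *
              (p ^ (2 * C) / p ^ (J.card.choose 2)) ≤ (F.card : ℝ) * p ^ (2 * C) / A := by
            generalize (∏ l, (if l ∈ J then (1:ℝ) else ((Y l).card : ℝ))) = P at hk ⊢
            rw [mul_div_assoc', div_le_div_iff₀ (pow_pos h0 _) hA]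
            have := mul_le_mul_of_nonneg_left hk (pow_pos h0 (2 * C)).le
            linarith
          calc ((F.filter fun τ' => 2 ≤ J.card ∧ ∀ l ∈ J, τ' l = τ l).card : ℝ) *
              (p ^ (2 * C) / p ^ (J.card.choose 2)) ≤
              (∏ l, (if l ∈ J then (1:ℝ) else ((Y l).card : ℝ))) *
              (p ^ (2 * C) / p ^ (J.card.choose 2)) :=
                mul_le_mul_of_nonneg_right hc
                  (div_nonneg (pow_pos h0 _).le (pow_pos h0 _).le)
            _ ≤ (F.card : ℝ) * p ^ (2 * C) / A := hk'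
        · have h3 : ∀ τ' ∈ F, (if 2 ≤ J.card ∧ ∀ l ∈ J, τ' l = τ l then
              p ^ (2 * C) / p ^ (J.card.choose 2) else 0) = 0 :=
            fun τ' _ => if_neg fun h => hJ h.1
          rw [Finset.sum_eq_zero h3]
          positivity
    _ = D := by
        rw [Finset.sum_const, Finset.sum_const, Finset.card_univ, Fintype.card_finset,
          Fintype.card_fin, nsmul_eq_mul, nsmul_eq_mul, hD, hμ]
        push_cast
        ring

end Pool.Agent.H1.CC
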