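import Pool.Agent.H1.CC.StageC

/-!
Upper bound: moments of the number of unextended cliques at a vertex.
-/

set_option autoImplicit false
set_option linter.unusedSectionVars false

namespace Pool.Agent.H1.CC

open Finset

variable {V : Type*} [DecidableEq V] [Fintype V]

/-- `K` is a clique and no vertex of `R` is joined to all of `K` -/
def good (R K : Finset V) (T : Finset (Sym2 V)) : Prop :=
  ins K ⊆ T ∧ ∀ w ∈ R, ¬ star w K ⊆ T

lemma star_union {w : V} {A B : Finset V} : star w (A ∪ B) = star w A ∪ star w B := by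
  unfold star
  exact Finset.image_union A B

lemma ind_sub_mul {A B T : Finset (Sym2 V)} :
    ind (A ⊆ T) * ind (B ⊆ T) = ind (A ∪ B ⊆ T) := by
  rw [← ind_and]
  apply ind_congr
  rw [Finset.union_subset_iff]

lemma dep_subset (F : Finset (Sym2 V)) : Dep (fun T => ind (F ⊆ T)) F := by
  intro T
  apply ind_congr
  constructor
  · intro h; exact Finset.subset_inter h (Finset.Subset.refl _)
  · intro h; exact h.trans Finset.inter_subset_left

lemma Ex_star_sq {p : ℝ} (h0 : 0 ≤ p) (h1 : p ≤ 1) {w : V} {U : Finset V}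
    {S : Finset (Sym2 V)} (hS : star w U ⊆ S) {i h : ℕ} (𝓕 : Finset (Finset V))
    (h𝓕 : ∀ K ∈ 𝓕, K ⊆ U ∧ K.card = i) (hc : 𝓕.card ≤ h) :
    Ex p S (fun T => (1 - ∑ K ∈ 𝓕, ind (star w K ⊆ T)) ^ 2) ≤
      Real.exp (-(p ^ i * (1 - h * p) * 𝓕.card)) := by
  classical
  have e1 : ∀ T ⊆ S, (1 - ∑ K ∈ 𝓕, ind (star w K ⊆ T)) ^ 2 =
      (1 + (-2) * ∑ K ∈ 𝓕, ind (star w K ⊆ T)) +
        ∑ K ∈ 𝓕, ∑ K' ∈ 𝓕, ind (star w (K ∪ K') ⊆ T) := by
    intro T _
    have : ∑ K ∈ 𝓕, ∑ K' ∈ 𝓕, ind (star w (K ∪ K') ⊆ T) =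
        (∑ K ∈ 𝓕, ind (star w K ⊆ T)) * (∑ K ∈ 𝓕, ind (star w K ⊆ T)) := by
      rw [Finset.sum_mul_sum]
      apply Finset.sum_congr rfl
      intro K _
      apply Finset.sum_congr rfl
      intro K' _
      rw [star_union, ind_sub_mul]
    rw [this]; ring
  rw [Ex_congr e1, Ex_add, Ex_add, Ex_const, Ex_const_mul, Ex_sum, Ex_sum]
  have e2 : ∀ K ∈ 𝓕, Ex p S (fun T => ind (star w K ⊆ T)) = p ^ i := by
    intro K hK
    rw [Ex_subset ((star_mono (h𝓕 K hK).1).trans hS), card_star, (h𝓕 K hK).2]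
  have e3 : ∀ K ∈ 𝓕, Ex p S (fun T => ∑ K' ∈ 𝓕, ind (star w (K ∪ K') ⊆ T)) ≤
      p ^ i + h * p ^ (i + 1) := by
    intro K hK
    rw [Ex_sum]
    have e4 : ∀ K' ∈ 𝓕, Ex p S (fun T => ind (star w (K ∪ K') ⊆ T)) ≤
        (if K' = K then p ^ i else 0) + p ^ (i + 1) := by
      intro K' hK'
      rw [Ex_subset ((star_mono (Finset.union_subset (h𝓕 K hK).1 (h𝓕 K' hK').1)).trans hS),
        card_star]
      have hpi : 0 ≤ p ^ (i + 1) := pow_nonneg h0 _
      by_cases hKK : K' = K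
      · rw [if_pos hKK, hKK, Finset.union_self, (h𝓕 K hK).2]
        linarith
      · rw [if_neg hKK, zero_add]
        apply pow_le_pow_of_le_one h0 h1
        by_contra hlt
        push Not at hlt
        have hle : (K ∪ K').card ≤ i := by omega
        have hK1 : K = K ∪ K' := Finset.eq_of_subset_of_card_le Finset.subset_union_left
          (by rw [(h𝓕 K hK).2]; exact hle)
        have hK2 : K' = K ∪ K' := Finset.eq_of_subset_of_card_le Finset.subset_union_right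
          (by rw [(h𝓕 K' hK').2]; exact hle)
        exact hKK (hK2.trans hK1.symm)
    refine (Finset.sum_le_sum e4).trans ?_
    rw [Finset.sum_add_distrib, Finset.sum_ite_eq' 𝓕 K (fun _ => p ^ i), if_pos hK,
      Finset.sum_const, nsmul_eq_mul]
    have : (𝓕.card : ℝ) ≤ h := by exact_mod_cast hc
    have hpi : 0 ≤ p ^ (i + 1) := pow_nonneg h0 _
    nlinarith
  rw [Finset.sum_congr rfl e2, Finset.sum_const, nsmul_eq_mul]
  have e5 : ∑ K ∈ 𝓕, Ex p S (fun T => ∑ K' ∈ 𝓕, ind (star w (K ∪ K') ⊆ T)) ≤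
      𝓕.card * (p ^ i + h * p ^ (i + 1)) := by
    refine (Finset.sum_le_sum e3).trans ?_
    rw [Finset.sum_const, nsmul_eq_mul]
  have e6 := Real.add_one_le_exp (-(p ^ i * (1 - h * p) * 𝓕.card))
  have e7 : p ^ (i + 1) = p ^ i * p := pow_succ p i
  rw [e7] at e5
  nlinarith

lemma prob_good {p : ℝ} (h0 : 0 ≤ p) (h1 : p ≤ 1) {U R : Finset V} (hUR : Disjoint U R)
    {S : Finset (Sym2 V)} (hS1 : ins U ⊆ S) (hS2 : ∀ w ∈ R, star w U ⊆ S) {i h : ℕ}
    (𝓕 : Finset (Finset V)) (h𝓕 : ∀ K ∈ 𝓕, K ⊆ U ∧ K.card = i) (hc : 𝓕.card ≤ h) :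
    Ex p S (fun T => ind (∀ K ∈ 𝓕, good R K T)) ≤
      p ^ (𝓕.biUnion ins).card * Real.exp (-(p ^ i * R.card * (1 - h * p))) ^ 𝓕.card := by
  classical
  set F0 := 𝓕.biUnion ins with hF0
  have hF0U : F0 ⊆ ins U := Finset.biUnion_subset.2 fun K hK => ins_mono (h𝓕 K hK).1
  set g : V → Finset (Sym2 V) → ℝ := fun w T => (1 - ∑ K ∈ 𝓕, ind (star w K ⊆ T)) ^ 2 with hg
  have hg0 : ∀ w T, 0 ≤ g w T := fun w T => sq_nonneg _
  have step1 : ∀ T ⊆ S, ind (∀ K ∈ 𝓕, good R K T) ≤ ind (F0 ⊆ T) * ∏ w ∈ R, g w T := by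
    intro T _
    by_cases hall : ∀ K ∈ 𝓕, good R K T
    · rw [ind_of hall, ind_of (Finset.biUnion_subset.2 fun K hK => (hall K hK).1), one_mul]
      apply le_of_eq
      symm
      apply Finset.prod_eq_one
      intro w hw
      rw [hg]
      beta_reduce
      rw [Finset.sum_eq_zero (fun K hK => ind_not_of ((hall K hK).2 w hw))]
      norm_num
    · rw [ind_not_of hall]
      exact mul_nonneg (ind_nonneg _) (Finset.prod_nonneg fun w _ => hg0 w T)
  refine (Ex_mono h0 h1 step1).trans ?_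
  have hdepg : ∀ w ∈ R, Dep (g w) (star w U) := by
    intro w _ T
    rw [hg]
    beta_reduce
    congr 2
    apply Finset.sum_congr rfl
    intro K hK
    exact ((dep_subset (star w K)).mono (star_mono (h𝓕 K hK).1)) T
  have hdisj : Disjoint (ins U) (R.biUnion fun w => star w U) := by
    rw [Finset.disjoint_biUnion_right]
    intro w hw
    exact (star_disjoint_ins (fun h => Finset.disjoint_left.1 hUR h hw)).symm
  have hRU : (R.biUnion fun w => star w U) ⊆ S := Finset.biUnion_subset.2 hS2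
  rw [Ex_mul_indep (f := fun T => ind (F0 ⊆ T)) (g := fun T => ∏ w ∈ R, g w T)
    ((dep_subset F0).mono hF0U) ?_ hdisj hS1 hRU]
  · rw [Ex_subset (hF0U.trans hS1), Ex_prod_indep R (fun w => star w U) g hdepg hS2 ?_]
    · apply mul_le_mul_of_nonneg_left _ (pow_nonneg h0 _)
      calc ∏ w ∈ R, Ex p S (g w) ≤ ∏ w ∈ R, Real.exp (-(p ^ i * (1 - h * p) * 𝓕.card)) := by
            apply Finset.prod_le_prod
            · intro w _; exact Ex_nonneg h0 h1 fun T _ => hg0 w T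
            · intro w hw; exact Ex_star_sq h0 h1 (hS2 w hw) 𝓕 h𝓕 hc
        _ = _ := by
            rw [Finset.prod_const, ← Real.exp_nat_mul, ← Real.exp_nat_mul]
            congr 1; ring
    · intro w hw w' hw' hww
      exact star_disjoint_star hww (Or.inl fun h => Finset.disjoint_left.1 hUR h hw)
  · intro T
    apply Finset.prod_congr rfl
    intro w hw
    exact (hdepg w hw).mono (Finset.subset_biUnion_of_mem (fun w => star w U) hw) T

/-- the weight of a family -/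
noncomputable def wt (p ω : ℝ) (𝓕 : Finset (Finset V)) : ℝ :=
  p ^ (𝓕.biUnion ins).card * ω ^ 𝓕.card

/-- `i`-subsets of `U` containing `v` -/
def sets (U : Finset V) (i : ℕ) (v : V) : Finset (Finset V) :=
  (U.powersetCard i).filter fun K => v ∈ K

lemma mem_sets {U : Finset V} {i : ℕ} {v : V} {K : Finset V} :
    K ∈ sets U i v ↔ (K ⊆ U ∧ K.card = i) ∧ v ∈ K := by
  unfold sets
  rw [Finset.mem_filter, Finset.mem_powersetCard]

lemma count_sets {U Z : Finset V} {i a : ℕ} {v : V} {m : ℝ} (hm : (U.card : ℝ) ≤ m) :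
    (((sets U i v).filter fun K => (K ∩ Z).card = a).card : ℝ) ≤ 2 ^ Z.card * m ^ (i - a) := by
  classical
  have h1 : ((sets U i v).filter fun K => (K ∩ Z).card = a).card ≤
      (Z.powerset ×ˢ U.powersetCard (i - a)).card := by
    apply Finset.card_le_card_of_injOn (fun K => (K ∩ Z, K \ Z))
    · intro K hK
      have hK' := Finset.mem_filter.1 (Finset.mem_coe.1 hK)
      obtain ⟨⟨h2, h3⟩, _⟩ := mem_sets.1 hK'.1
      have h4 := hK'.2
      rw [Finset.mem_coe, Finset.mem_product, Finset.mem_powerset, Finset.mem_powersetCard]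
      refine ⟨Finset.inter_subset_right, Finset.sdiff_subset.trans h2, ?_⟩
      have := Finset.card_sdiff_add_card_inter K Z
      show (K \ Z).card = i - a
      omega
    · intro K _ K' _ h
      have h5 : K ∩ Z = K' ∩ Z := congrArg Prod.fst h
      have h6 : K \ Z = K' \ Z := congrArg Prod.snd h
      rw [← Finset.sdiff_union_inter K Z, ← Finset.sdiff_union_inter K' Z, h5, h6]
  have h2 : ((Z.powerset ×ˢ U.powersetCard (i - a)).card : ℝ) ≤ 2 ^ Z.card * m ^ (i - a) := by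
    rw [Finset.card_product, Finset.card_powerset, Finset.card_powersetCard]
    push_cast
    apply mul_le_mul_of_nonneg_left _ (by positivity)
    calc ((U.card.choose (i - a) : ℕ) : ℝ) ≤ (U.card : ℝ) ^ (i - a) := by
          exact_mod_cast Nat.choose_le_pow _ _
      _ ≤ m ^ (i - a) := pow_le_pow_left₀ (Nat.cast_nonneg _) hm _
  refine le_trans ?_ h2
  exact_mod_cast h1

lemma wt_insert_le {p ω : ℝ} (h0 : 0 < p) (h1 : p ≤ 1) (hω : 0 ≤ ω)
    {i : ℕ} {𝓕 : Finset (Finset V)} {Z K : Finset V} (hZ : ∀ K' ∈ 𝓕, K' ⊆ Z)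
    (hK : K.card = i) (hKF : K ∉ 𝓕) :
    wt p ω (insert K 𝓕) ≤ wt p ω 𝓕 * (p ^ (i.choose 2 - (K ∩ Z).card.choose 2) * ω) := by
  classical
  unfold wt
  rw [Finset.card_insert_of_notMem hKF, Finset.biUnion_insert, pow_succ]
  have h2 : (𝓕.biUnion ins).card + (i.choose 2 - (K ∩ Z).card.choose 2) ≤
      (ins K ∪ 𝓕.biUnion ins).card := by
    have h3 := Finset.card_union_add_card_inter (ins K) (𝓕.biUnion ins)
    have h4 : ins K ∩ 𝓕.biUnion ins ⊆ ins (K ∩ Z) := by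
      rw [Finset.inter_biUnion]
      apply Finset.biUnion_subset.2
      intro K' hK'
      rw [ins_inter]
      exact ins_mono (Finset.inter_subset_inter_left (hZ K' hK'))
    have h5 := Finset.card_le_card h4
    have h6 := Finset.card_le_card (Finset.inter_subset_left (s₁ := ins K) (s₂ := 𝓕.biUnion ins))
    rw [card_ins] at h5
    rw [card_ins, hK] at h3 h6
    omega
  calc p ^ (ins K ∪ 𝓕.biUnion ins).card * (ω ^ 𝓕.card * ω) ≤
      p ^ ((𝓕.biUnion ins).card + (i.choose 2 - (K ∩ Z).card.choose 2)) * (ω ^ 𝓕.card * ω) := by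
        apply mul_le_mul_of_nonneg_right _ (by positivity)
        exact pow_le_pow_of_le_one h0.le h1 h2
    _ = _ := by rw [pow_add]; ring

lemma wt_sum {p ω : ℝ} (h0 : 0 < p) (h1 : p ≤ 1) (hω : 0 ≤ ω) {U : Finset V}
    {i h : ℕ} {v : V} {m Ψ : ℝ} (hm : (U.card : ℝ) ≤ m)
    (hΨ : ∀ a : ℕ, 1 ≤ a → a ≤ i → m ^ (i - a) * p ^ (i.choose 2 - a.choose 2) * ω ≤ Ψ)
    {𝓕 : Finset (Finset V)} (h𝓕 : 𝓕 ⊆ sets U i v) (hc : 𝓕.card ≤ h) :
    ∑ K ∈ sets U i v, wt p ω (insert K 𝓕) ≤ wt p ω 𝓕 * (h + i * 2 ^ (h * i + 1) * Ψ) := by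
  classical
  have hm0 : 0 ≤ m := le_trans (Nat.cast_nonneg _) hm
  have hwt0 : 0 ≤ wt p ω 𝓕 := by unfold wt; positivity
  set Z := insert v (𝓕.biUnion id) with hZ
  have hZc : Z.card ≤ h * i + 1 := by
    refine (Finset.card_insert_le _ _).trans ?_
    apply Nat.succ_le_succ
    calc (𝓕.biUnion id).card ≤ ∑ K ∈ 𝓕, (id K).card := Finset.card_biUnion_le
      _ = ∑ K ∈ 𝓕, i := Finset.sum_congr rfl fun K hK => (mem_sets.1 (h𝓕 hK)).1.2
      _ = 𝓕.card * i := by rw [Finset.sum_const, smul_eq_mul]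
      _ ≤ h * i := Nat.mul_le_mul_right i hc
  have hZK : ∀ K' ∈ 𝓕, K' ⊆ Z := fun K' hK' =>
    (Finset.subset_biUnion_of_mem id hK').trans (Finset.subset_insert _ _)
  rw [← Finset.sum_filter_add_sum_filter_not (sets U i v) (fun K => K ∈ 𝓕)]
  have s1 : ∑ K ∈ (sets U i v).filter (fun K => K ∈ 𝓕), wt p ω (insert K 𝓕) ≤
      h * wt p ω 𝓕 := by
    rw [Finset.sum_congr rfl (g := fun _ => wt p ω 𝓕) (fun K hK => by
      rw [Finset.insert_eq_self.2 (Finset.mem_filter.1 hK).2]), Finset.sum_const, nsmul_eq_mul]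
    apply mul_le_mul_of_nonneg_right _ hwt0
    have : (sets U i v).filter (fun K => K ∈ 𝓕) ⊆ 𝓕 := fun K hK => (Finset.mem_filter.1 hK).2
    exact_mod_cast (Finset.card_le_card this).trans hc
  have s2 : ∑ K ∈ (sets U i v).filter (fun K => ¬ K ∈ 𝓕), wt p ω (insert K 𝓕) ≤
      wt p ω 𝓕 * (i * 2 ^ (h * i + 1) * Ψ) := by
    have e1 : ∀ K ∈ (sets U i v).filter (fun K => ¬ K ∈ 𝓕), wt p ω (insert K 𝓕) ≤
        wt p ω 𝓕 * (p ^ (i.choose 2 - (K ∩ Z).card.choose 2) * ω) := by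
      intro K hK
      rw [Finset.mem_filter] at hK
      exact wt_insert_le h0 h1 hω hZK (mem_sets.1 hK.1).1.2 hK.2
    refine (Finset.sum_le_sum e1).trans ?_
    rw [← Finset.mul_sum]
    apply mul_le_mul_of_nonneg_left _ hwt0
    have e2 : ∑ K ∈ (sets U i v).filter (fun K => ¬ K ∈ 𝓕),
        p ^ (i.choose 2 - (K ∩ Z).card.choose 2) * ω ≤
        ∑ K ∈ sets U i v, p ^ (i.choose 2 - (K ∩ Z).card.choose 2) * ω := by
      apply Finset.sum_le_sum_of_subset_of_nonneg (Finset.filter_subset _ _)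
      intro K _ _
      positivity
    refine e2.trans ?_
    have e3 : ∑ K ∈ sets U i v, p ^ (i.choose 2 - (K ∩ Z).card.choose 2) * ω =
        ∑ a ∈ Finset.Icc 1 i, ∑ K ∈ (sets U i v).filter (fun K => (K ∩ Z).card = a),
          p ^ (i.choose 2 - (K ∩ Z).card.choose 2) * ω := by
      rw [Finset.sum_fiberwise_of_maps_to]
      intro K hK
      obtain ⟨⟨_, k2⟩, k3⟩ := mem_sets.1 hK
      rw [Finset.mem_Icc]
      constructor
      · apply Finset.card_pos.2
        exact ⟨v, Finset.mem_inter.2 ⟨k3, Finset.mem_insert_self _ _⟩⟩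
      · rw [← k2]; exact Finset.card_le_card Finset.inter_subset_left
    rw [e3]
    have e4 : ∀ a ∈ Finset.Icc 1 i, ∑ K ∈ (sets U i v).filter (fun K => (K ∩ Z).card = a),
          p ^ (i.choose 2 - (K ∩ Z).card.choose 2) * ω ≤ 2 ^ (h * i + 1) * Ψ := by
      intro a ha
      rw [Finset.mem_Icc] at ha
      rw [Finset.sum_congr rfl (g := fun _ => p ^ (i.choose 2 - a.choose 2) * ω) (fun K hK => by
        rw [(Finset.mem_filter.1 hK).2]), Finset.sum_const, nsmul_eq_mul]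
      have h3 := count_sets (U := U) (Z := Z) (i := i) (a := a) (v := v) hm
      have h4 : (2:ℝ) ^ Z.card ≤ 2 ^ (h * i + 1) := pow_le_pow_right₀ (by norm_num) hZc
      calc _ ≤ (2 ^ Z.card * m ^ (i - a)) * (p ^ (i.choose 2 - a.choose 2) * ω) := by gcongr
        _ = 2 ^ Z.card * (m ^ (i - a) * p ^ (i.choose 2 - a.choose 2) * ω) := by ring
        _ ≤ 2 ^ (h * i + 1) * (m ^ (i - a) * p ^ (i.choose 2 - a.choose 2) * ω) :=
            mul_le_mul_of_nonneg_right h4 (by positivity)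
        _ ≤ 2 ^ (h * i + 1) * Ψ := mul_le_mul_of_nonneg_left (hΨ a ha.1 ha.2) (by positivity)
    refine (Finset.sum_le_sum e4).trans (le_of_eq ?_)
    rw [Finset.sum_const, nsmul_eq_mul, Nat.card_Icc, Nat.add_sub_cancel]
    ring
  calc _ ≤ h * wt p ω 𝓕 + wt p ω 𝓕 * (i * 2 ^ (h * i + 1) * Ψ) := add_le_add s1 s2
    _ = _ := by ring

/-- number of counted `i`-sets at `v` -/
noncomputable def dg (U R : Finset V) (i : ℕ) (v : V) (T : Finset (Sym2 V)) : ℝ :=
  ∑ K ∈ sets U i v, ind (good R K T)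

lemma dg_nonneg (U R : Finset V) (i : ℕ) (v : V) (T : Finset (Sym2 V)) : 0 ≤ dg U R i v T :=
  Finset.sum_nonneg fun _ _ => ind_nonneg _

lemma moment {p : ℝ} (h0 : 0 < p) (h1 : p ≤ 1) {U R : Finset V} (hUR : Disjoint U R)
    {S : Finset (Sym2 V)} (hS1 : ins U ⊆ S) (hS2 : ∀ w ∈ R, star w U ⊆ S) {i h : ℕ} {v : V}
    {m Ψ ω : ℝ} (hω : ω = Real.exp (-(p ^ i * R.card * (1 - h * p)))) (hm : (U.card : ℝ) ≤ m)
    (hΨ : ∀ a : ℕ, 1 ≤ a → a ≤ i → m ^ (i - a) * p ^ (i.choose 2 - a.choose 2) * ω ≤ Ψ)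
    (hΨ0 : 0 ≤ Ψ) (r : ℕ) :
    ∀ 𝓕 : Finset (Finset V), 𝓕 ⊆ sets U i v → 𝓕.card + r ≤ h →
      Ex p S (fun T => ind (∀ K ∈ 𝓕, good R K T) * dg U R i v T ^ r) ≤
        wt p ω 𝓕 * (h + i * 2 ^ (h * i + 1) * Ψ) ^ r := by
  classical
  have hω0 : 0 ≤ ω := by rw [hω]; exact (Real.exp_pos _).le
  induction r with
  | zero =>
    intro 𝓕 h𝓕 hc
    simp only [pow_zero, mul_one]
    have := prob_good h0.le h1 hUR hS1 hS2 (i := i) (h := h) 𝓕
      (fun K hK => (mem_sets.1 (h𝓕 hK)).1) (by omega)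
    unfold wt
    rw [hω]
    exact this
  | succ r ih =>
    intro 𝓕 h𝓕 hc
    have e1 : ∀ T ⊆ S, ind (∀ K ∈ 𝓕, good R K T) * dg U R i v T ^ (r + 1) =
        ∑ K ∈ sets U i v, ind (∀ K' ∈ insert K 𝓕, good R K' T) * dg U R i v T ^ r := by
      intro T _
      have e0 : ind (∀ K ∈ 𝓕, good R K T) * dg U R i v T ^ (r + 1) =
          (ind (∀ K ∈ 𝓕, good R K T) * dg U R i v T ^ r) * ∑ K ∈ sets U i v, ind (good R K T) := by
        rw [pow_succ, ← mul_assoc]; rfl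
      rw [e0, Finset.mul_sum]
      apply Finset.sum_congr rfl
      intro K _
      have : ind (∀ K' ∈ insert K 𝓕, good R K' T) =
          ind (good R K T) * ind (∀ K ∈ 𝓕, good R K T) := by
        rw [← ind_and]
        apply ind_congr
        rw [Finset.forall_mem_insert]
      rw [this]
      ring
    rw [Ex_congr e1, Ex_sum]
    have e2 : ∀ K ∈ sets U i v, Ex p S (fun T => ind (∀ K' ∈ insert K 𝓕, good R K' T) *
        dg U R i v T ^ r) ≤ wt p ω (insert K 𝓕) * (h + i * 2 ^ (h * i + 1) * Ψ) ^ r := by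
      intro K hK
      apply ih
      · exact Finset.insert_subset hK h𝓕
      · have := Finset.card_insert_le K 𝓕
        omega
    refine (Finset.sum_le_sum e2).trans ?_
    rw [← Finset.sum_mul]
    have e3 := wt_sum h0 h1 hω0 hm hΨ h𝓕 (h := h) (by omega)
    have e4 : 0 ≤ ((h:ℝ) + i * 2 ^ (h * i + 1) * Ψ) := by positivity
    generalize ((h:ℝ) + i * 2 ^ (h * i + 1) * Ψ) = Φ at e3 e4
    calc _ ≤ (wt p ω 𝓕 * Φ) * Φ ^ r := mul_le_mul_of_nonneg_right e3 (pow_nonneg e4 r)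
      _ = _ := by rw [pow_succ]; ring

/-- the number of counted sets at a vertex is not large -/
lemma prob_dg {p : ℝ} (h0 : 0 < p) (h1 : p ≤ 1) {U R : Finset V} (hUR : Disjoint U R)
    {S : Finset (Sym2 V)} (hS1 : ins U ⊆ S) (hS2 : ∀ w ∈ R, star w U ⊆ S) {i h : ℕ} {v : V}
    {m Ψ ω x : ℝ} (hω : ω = Real.exp (-(p ^ i * R.card * (1 - h * p)))) (hm : (U.card : ℝ) ≤ m)
    (hΨ : ∀ a : ℕ, 1 ≤ a → a ≤ i → m ^ (i - a) * p ^ (i.choose 2 - a.choose 2) * ω ≤ Ψ)
    (hΨ0 : 0 ≤ Ψ) (hh : 0 < h) (hx : 0 < x) {D : ℝ}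
    (hD : x * (h + i * 2 ^ (h * i + 1) * Ψ) ≤ D) :
    Pr p S (fun T => D ≤ dg U R i v T) ≤ (x ^ h)⁻¹ := by
  classical
  have h3 := moment h0 h1 hUR hS1 hS2 (v := v) hω hm hΨ hΨ0 h ∅ (Finset.empty_subset _) (by simp)
  have h4 : wt p ω (∅ : Finset (Finset V)) = 1 := by unfold wt; simp
  rw [h4, one_mul] at h3
  have e0 : ∀ T ⊆ S, ind (∀ K ∈ (∅ : Finset (Finset V)), good R K T) * dg U R i v T ^ h =
      dg U R i v T ^ h := by
    intro T _
    rw [ind_of (by intro K hK; exact absurd hK (Finset.notMem_empty K)), one_mul]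
  rw [Ex_congr e0] at h3
  set Φ : ℝ := h + i * 2 ^ (h * i + 1) * Ψ with hΦ
  have hh' : (0:ℝ) < h := by exact_mod_cast hh
  have hΦ0 : 0 < Φ := by
    have : 0 ≤ (i:ℝ) * 2 ^ (h * i + 1) * Ψ := by positivity
    rw [hΦ]; linarith
  have step1 : Pr p S (fun T => D ≤ dg U R i v T) ≤
      Pr p S (fun T => (x * Φ) ^ h ≤ dg U R i v T ^ h) := by
    apply Pr_mono h0.le h1
    intro T _ hT
    exact pow_le_pow_left₀ (by positivity) (hD.trans hT) h
  refine step1.trans ((markov h0.le h1 (fun T _ => pow_nonneg (dg_nonneg _ _ _ _ _) h)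
    (by positivity)).trans ?_)
  rw [mul_pow, div_le_iff₀ (by positivity)]
  calc _ ≤ Φ ^ h := h3
    _ = (x ^ h)⁻¹ * (x ^ h * Φ ^ h) := by
        rw [← mul_assoc, inv_mul_cancel₀ (by positivity), one_mul]

end Pool.Agent.H1.CC
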