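import Pool.Agent.H1.CC.UpperA
import Pool.Agent.H1.CC.Det

/-!
Upper bound: random colouring rounds, deterministic part, probability.
-/

set_option autoImplicit false
set_option linter.unusedSectionVars false

namespace Pool.Agent.H1.CC

open Finset

variable {V : Type*} [DecidableEq V] [Fintype V]

/-- `c` is constant on `K` -/
def mono {α : Type*} (c : V → α) (K : Finset V) : Prop := ∀ u ∈ K, ∀ v ∈ K, c u = c v

lemma count_const (K : Finset V) (t : ℕ) (hK : 1 ≤ K.card)
    [DecidablePred fun c : V → Fin t => mono c K] :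
    (Finset.univ.filter fun c : V → Fin t => mono c K).card * t ^ (K.card - 1) ≤
      t ^ Fintype.card V := by
  classical
  obtain ⟨v0, hv0⟩ := Finset.card_pos.1 hK
  have h1 : (Finset.univ.filter fun c : V → Fin t => mono c K) ⊆
      Finset.univ.biUnion fun κ : Fin t =>
        Fintype.piFinset fun v : V => if v ∈ K then ({κ} : Finset (Fin t)) else Finset.univ := by
    intro c hc
    have hc' := (Finset.mem_filter.1 hc).2
    rw [Finset.mem_biUnion]
    refine ⟨c v0, Finset.mem_univ _, ?_⟩
    rw [Fintype.mem_piFinset]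
    intro v
    by_cases hv : v ∈ K
    · rw [if_pos hv, Finset.mem_singleton]; exact hc' v hv v0 hv0
    · rw [if_neg hv]; exact Finset.mem_univ _
  have h2 : (Finset.univ.filter fun c : V → Fin t => mono c K).card ≤
      t * t ^ (Fintype.card V - K.card) := by
    calc _ ≤ _ := Finset.card_le_card h1
      _ ≤ ∑ κ : Fin t, (Fintype.piFinset fun v : V =>
          if v ∈ K then ({κ} : Finset (Fin t)) else Finset.univ).card := Finset.card_biUnion_le
      _ = ∑ κ : Fin t, t ^ (Fintype.card V - K.card) := by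
          apply Finset.sum_congr rfl
          intro κ _
          rw [Fintype.card_piFinset]
          have : ∀ v : V, (if v ∈ K then ({κ} : Finset (Fin t)) else Finset.univ).card =
              if v ∈ K then 1 else t := by
            intro v
            split_ifs <;> simp
          rw [Finset.prod_congr rfl fun v _ => this v, Finset.prod_ite, Finset.prod_const_one,
            one_mul, Finset.prod_const]
          congr 1
          have h3 : (Finset.univ.filter fun v => v ∉ K) = Finset.univ \ K := by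
            ext v; simp
          rw [h3, Finset.card_sdiff_of_subset (Finset.subset_univ K), Finset.card_univ]
      _ = _ := by
          rw [Finset.sum_const, Finset.card_univ, Fintype.card_fin, smul_eq_mul]
  have h4 : K.card ≤ Fintype.card V := Finset.card_le_univ K
  calc _ ≤ (t * t ^ (Fintype.card V - K.card)) * t ^ (K.card - 1) := Nat.mul_le_mul_right _ h2
    _ = t ^ (1 + (Fintype.card V - K.card) + (K.card - 1)) := by
        rw [pow_add, pow_add, pow_one]
    _ = t ^ Fintype.card V := by congr 1; omega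

/-- one round of random colouring -/
lemma round {t I : ℕ} (ht : 1 ≤ t) {δ : ℝ} (hδ0 : 0 ≤ δ) (ℋ : Finset (Finset V))
    (hℋ : ∀ K ∈ ℋ, 2 ≤ K.card ∧ K.card ≤ I)
    (hdeg : ∀ v, ∀ i, 2 ≤ i → i ≤ I →
      ((ℋ.filter fun K => K.card = i ∧ v ∈ K).card : ℝ) ≤ (t:ℝ) ^ (i - 1) * δ) (Z : Finset V) :
    ∃ (c : V → Fin t) (B : Finset V), B ⊆ Z ∧ (B.card : ℝ) ≤ Z.card * (I * δ) ∧
      ∀ K ∈ ℋ, K ⊆ Z → mono c K → K ⊆ B := by
  classical
  set B : (V → Fin t) → Finset V := fun c => Z.filter fun v => ∃ K ∈ ℋ, v ∈ K ∧ mono c K with hB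
  have ht' : (0:ℝ) < t := by exact_mod_cast ht
  set N := Fintype.card V with hN
  have key : ∑ c : V → Fin t, ((B c).card : ℝ) ≤ ∑ c : V → Fin t, (Z.card : ℝ) * (I * δ) := by
    have e1 : ∀ c : V → Fin t, ((B c).card : ℝ) ≤
        ∑ v ∈ Z, ∑ K ∈ ℋ.filter (fun K => v ∈ K), ind (mono c K) := by
      intro c
      rw [hB]
      beta_reduce
      rw [Finset.card_filter]
      push_cast
      apply Finset.sum_le_sum
      intro v _
      split_ifs with h
      · obtain ⟨K, hK, hvK, hm⟩ := h
        calc (1:ℝ) = ind (mono c K) := (ind_of hm).symm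
          _ ≤ _ := Finset.single_le_sum (f := fun K => ind (mono c K))
              (fun _ _ => ind_nonneg _) (Finset.mem_filter.2 ⟨hK, hvK⟩)
      · exact Finset.sum_nonneg fun _ _ => ind_nonneg _
    refine (Finset.sum_le_sum fun c _ => e1 c).trans ?_
    rw [Finset.sum_comm]
    have e2 : ∀ v ∈ Z, ∑ c : V → Fin t, ∑ K ∈ ℋ.filter (fun K => v ∈ K), ind (mono c K) ≤
        (t:ℝ) ^ N * (I * δ) := by
      intro v _
      rw [Finset.sum_comm]
      have e3 : ∀ K ∈ ℋ.filter (fun K => v ∈ K), ∑ c : V → Fin t, ind (mono c K) ≤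
          (t:ℝ) ^ N / (t:ℝ) ^ (K.card - 1) := by
        intro K hK
        rw [le_div_iff₀ (by positivity)]
        have h1 := count_const K t (by
          have := (hℋ K (Finset.mem_filter.1 hK).1).1; omega)
        have h2 : ∑ c : V → Fin t, ind (mono c K) =
            ((Finset.univ.filter fun c : V → Fin t => mono c K).card : ℝ) := by
          rw [Finset.card_filter]
          push_cast
          apply Finset.sum_congr rfl
          intro c _
          by_cases h : mono c K
          · rw [ind_of h, if_pos h]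
          · rw [ind_not_of h, if_neg h]
        rw [h2]
        exact_mod_cast h1
      refine (Finset.sum_le_sum e3).trans ?_
      have e4 : ∑ K ∈ ℋ.filter (fun K => v ∈ K), (t:ℝ) ^ N / (t:ℝ) ^ (K.card - 1) =
          ∑ i ∈ Finset.Icc 2 I, ∑ K ∈ (ℋ.filter (fun K => v ∈ K)).filter (fun K => K.card = i),
            (t:ℝ) ^ N / (t:ℝ) ^ (K.card - 1) := by
        rw [Finset.sum_fiberwise_of_maps_to]
        intro K hK
        have := hℋ K (Finset.mem_filter.1 hK).1
        exact Finset.mem_Icc.2 this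
      rw [e4]
      have e5 : ∀ i ∈ Finset.Icc 2 I,
          ∑ K ∈ (ℋ.filter (fun K => v ∈ K)).filter (fun K => K.card = i),
            (t:ℝ) ^ N / (t:ℝ) ^ (K.card - 1) ≤ (t:ℝ) ^ N * δ := by
        intro i hi
        rw [Finset.mem_Icc] at hi
        rw [Finset.sum_congr rfl (g := fun _ => (t:ℝ) ^ N / (t:ℝ) ^ (i - 1)) (fun K hK => by
          rw [(Finset.mem_filter.1 hK).2]), Finset.sum_const, nsmul_eq_mul]
        have h3 : ((ℋ.filter (fun K => v ∈ K)).filter (fun K => K.card = i)).card =
            (ℋ.filter fun K => K.card = i ∧ v ∈ K).card := by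
          rw [Finset.filter_filter]
          congr 1
          ext K
          simp only [Finset.mem_filter]
          tauto
        rw [h3]
        have h4 := hdeg v i hi.1 hi.2
        calc _ ≤ ((t:ℝ) ^ (i - 1) * δ) * ((t:ℝ) ^ N / (t:ℝ) ^ (i - 1)) :=
              mul_le_mul_of_nonneg_right h4 (by positivity)
          _ = (t:ℝ) ^ N * δ := by field_simp
      refine (Finset.sum_le_sum e5).trans ?_
      rw [Finset.sum_const, nsmul_eq_mul, Nat.card_Icc]
      have h5 : ((I + 1 - 2 : ℕ) : ℝ) ≤ I := by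
        have : I + 1 - 2 ≤ I := by omega
        exact_mod_cast this
      calc ((I + 1 - 2 : ℕ) : ℝ) * ((t:ℝ) ^ N * δ) ≤ I * ((t:ℝ) ^ N * δ) :=
            mul_le_mul_of_nonneg_right h5 (by positivity)
        _ = _ := by ring
    refine (Finset.sum_le_sum e2).trans (le_of_eq ?_)
    rw [Finset.sum_const, Finset.sum_const, nsmul_eq_mul, nsmul_eq_mul, Finset.card_univ,
      Fintype.card_fun, Fintype.card_fin]
    push_cast
    ring
  have hne : (Finset.univ : Finset (V → Fin t)).Nonempty := by
    have : Nonempty (Fin t) := ⟨⟨0, ht⟩⟩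
    exact Finset.univ_nonempty
  obtain ⟨c, _, hc⟩ := Finset.exists_le_of_sum_le hne key
  refine ⟨c, B c, Finset.filter_subset _ _, hc, ?_⟩
  intro K hK hKZ hm v hv
  rw [hB]
  exact Finset.mem_filter.2 ⟨hKZ hv, K, hK, hv, hm⟩

/-- all rounds -/
lemma rounds {t I : ℕ} (ht : 1 ≤ t) {δ x : ℝ} (hδ0 : 0 ≤ δ) (hx : 0 < x) (hδ : I * δ * x ≤ 1)
    (ℋ : Finset (Finset V))
    (hℋ : ∀ K ∈ ℋ, 2 ≤ K.card ∧ K.card ≤ I)
    (hdeg : ∀ v, ∀ i, 2 ≤ i → i ≤ I →
      ((ℋ.filter fun K => K.card = i ∧ v ∈ K).card : ℝ) ≤ (t:ℝ) ^ (i - 1) * δ) (h : ℕ) :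
    ∀ Z : Finset V, (Z.card : ℝ) < x ^ h →
      ∃ c : V → ℕ, (∀ v ∈ Z, c v < h * t) ∧ ∀ K ∈ ℋ, K ⊆ Z → ¬ mono c K := by
  classical
  induction h with
  | zero =>
    intro Z hZ
    have hZ0 : Z = ∅ := by
      rw [← Finset.card_eq_zero]
      rw [pow_zero] at hZ
      have : Z.card < 1 := by exact_mod_cast hZ
      omega
    refine ⟨fun _ => 0, ?_, ?_⟩
    · intro v hv
      rw [hZ0] at hv
      exact absurd hv (Finset.notMem_empty v)
    · intro K hK hKZ
      rw [hZ0] at hKZ
      have h1 := Finset.card_le_card hKZ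
      have h2 := (hℋ K hK).1
      rw [Finset.card_empty] at h1
      omega
  | succ h ih =>
    intro Z hZ
    obtain ⟨c1, B, hBZ, hBc, hcB⟩ := round ht hδ0 ℋ hℋ hdeg Z
    have hBh : (B.card : ℝ) < x ^ h := by
      have h1 : (B.card : ℝ) * x ≤ Z.card := by
        calc (B.card : ℝ) * x ≤ Z.card * (I * δ) * x := mul_le_mul_of_nonneg_right hBc hx.le
          _ = Z.card * (I * δ * x) := by ring
          _ ≤ Z.card * 1 := mul_le_mul_of_nonneg_left hδ (Nat.cast_nonneg _)
          _ = Z.card := mul_one _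
      have h2 : (B.card : ℝ) * x < x ^ h * x := by
        rw [← pow_succ]; exact h1.trans_lt hZ
      exact lt_of_mul_lt_mul_right h2 hx.le
    obtain ⟨c2, h3, h4⟩ := ih B hBh
    refine ⟨fun v => if v ∈ B then c2 v else h * t + c1 v, ?_, ?_⟩
    · intro v _
      beta_reduce
      split_ifs with hv
      · have := h3 v hv
        calc c2 v < h * t := this
          _ ≤ (h + 1) * t := Nat.mul_le_mul_right t (Nat.le_succ h)
      · have := (c1 v).2
        calc h * t + (c1 v : ℕ) < h * t + t := by omega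
          _ = (h + 1) * t := by ring
    · intro K hK hKZ hm
      have hcase : K ⊆ B ∨ Disjoint K B := by
        by_contra hcon
        push Not at hcon
        obtain ⟨h5, h6⟩ := hcon
        obtain ⟨u, hu, huB⟩ := Finset.not_subset.1 h5
        obtain ⟨v, hv, hvB⟩ := Finset.not_disjoint_iff.1 h6
        have := hm u hu v hv
        beta_reduce at this
        rw [if_neg huB, if_pos hvB] at this
        have := h3 v hvB
        omega
      rcases hcase with hKB | hKB
      · apply h4 K hK hKB
        intro u hu v hv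
        have := hm u hu v hv
        beta_reduce at this
        rwa [if_pos (hKB hu), if_pos (hKB hv)] at this
      · have hm1 : mono c1 K := by
          intro u hu v hv
          have := hm u hu v hv
          beta_reduce at this
          rw [if_neg (Finset.disjoint_left.1 hKB hu), if_neg (Finset.disjoint_left.1 hKB hv)] at this
          apply Fin.ext
          omega
        have h7 := hcB K hK hKZ hm1
        have h8 := (hℋ K hK).1
        obtain ⟨v, hv⟩ := Finset.card_pos.1 (by omega : 0 < K.card)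
        exact Finset.disjoint_left.1 hKB hv (h7 hv)

/-- the deterministic part of the upper bound -/
lemma CCol_of {T : Finset (Sym2 V)} (hT : T ⊆ allE V) {W U R : Finset V} {k q I : ℕ}
    (hW : W.card = k)
    (hU : U = unc T W) (hR : R = Finset.univ \ (W ∪ U)) {c : V → ℕ} (hc : ∀ v ∈ U, c v < q)
    (hc1 : ∀ K ⊆ U, 2 ≤ K.card → K.card < I → good R K T → ¬ mono c K)
    (hc2 : ∀ K ⊆ U, K.card = I → ins K ⊆ T → ¬ mono c K) : CCol T (k + 1 + q) := by
  classical
  obtain ⟨e⟩ : Nonempty (Fin k ≃ W) := by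
    rw [← hW]
    exact ⟨(Finset.equivFin W).symm⟩
  have hself : ∀ v, s(v, v) ∉ T := fun v h => mem_allE.1 (hT h) rfl
  set f : V → Fin (k + 1 + q) := fun v =>
    if h : ∃ i : Fin k, s(v, (e i : V)) ∈ T then ⟨h.choose, by omega⟩
    else if v ∈ W then ⟨k, by omega⟩
    else if h2 : c v < q then ⟨k + 1 + c v, by omega⟩ else ⟨k, by omega⟩ with hf
  have hf1 : ∀ v, ∀ h : ∃ i : Fin k, s(v, (e i : V)) ∈ T, (f v : ℕ) = h.choose := by
    intro v h
    rw [hf]
    beta_reduce
    rw [dif_pos h]
  have hf2 : ∀ v, (¬ ∃ i : Fin k, s(v, (e i : V)) ∈ T) → v ∈ W → (f v : ℕ) = k := by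
    intro v h hv
    rw [hf]
    beta_reduce
    rw [dif_neg h, if_pos hv]
  have hunc : ∀ v, (¬ ∃ i : Fin k, s(v, (e i : V)) ∈ T) → v ∉ W → v ∈ U := by
    intro v h hv
    rw [hU, mem_unc]
    refine ⟨hv, fun w hw hvw => h ⟨e.symm ⟨w, hw⟩, ?_⟩⟩
    rw [Equiv.apply_symm_apply]
    exact hvw
  have hf3 : ∀ v, (¬ ∃ i : Fin k, s(v, (e i : V)) ∈ T) → v ∉ W → (f v : ℕ) = k + 1 + c v := by
    intro v h hv
    rw [hf]
    beta_reduce
    rw [dif_neg h, if_neg hv, dif_pos (hc v (hunc v h hv))]
  refine ⟨f, ?_⟩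
  intro K hK2 hKT hKmax
  by_contra hcon
  push Not at hcon
  have hmono : ∀ u ∈ K, ∀ v ∈ K, (f u : ℕ) = f v := fun u hu v hv => by rw [hcon u hu v hv]
  obtain ⟨v0, hv0⟩ := Finset.card_pos.1 (by omega : 0 < K.card)
  by_cases h : ∃ i : Fin k, s(v0, (e i : V)) ∈ T
  · -- colour of a vertex of `W`
    have hval : ∀ v ∈ K, s(v, (e h.choose : V)) ∈ T := by
      intro v hv
      have h1 := hmono v hv v0 hv0
      rw [hf1 v0 h] at h1
      by_cases h2 : ∃ i : Fin k, s(v, (e i : V)) ∈ T
      · rw [hf1 v h2] at h1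
        have h3 : h2.choose = h.choose := Fin.ext h1
        rw [← h3]
        exact h2.choose_spec
      · exfalso
        have h4 := (h.choose).2
        by_cases h3 : v ∈ W
        · rw [hf2 v h2 h3] at h1; omega
        · rw [hf3 v h2 h3] at h1; omega
    have hnotin : (e h.choose : V) ∉ K := fun hin => hself _ (hval _ hin)
    obtain ⟨v, hv, hvn⟩ := hKmax _ hnotin
    apply hvn
    rw [Sym2.eq_swap]
    exact hval v hv
  · by_cases hv0W : v0 ∈ W
    · -- the extra colour
      have hall : ∀ v ∈ K, v ∈ W ∧ ¬ ∃ i : Fin k, s(v, (e i : V)) ∈ T := by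
        intro v hv
        have h1 := hmono v hv v0 hv0
        rw [hf2 v0 h hv0W] at h1
        by_cases h2 : ∃ i : Fin k, s(v, (e i : V)) ∈ T
        · rw [hf1 v h2] at h1
          have := (h2.choose).2
          omega
        · by_cases h3 : v ∈ W
          · exact ⟨h3, h2⟩
          · rw [hf3 v h2 h3] at h1; omega
      obtain ⟨u, hu, v, hv, huv⟩ := Finset.one_lt_card.1 (by omega : 1 < K.card)
      apply (hall u hu).2
      refine ⟨e.symm ⟨v, (hall v hv).1⟩, ?_⟩
      rw [Equiv.apply_symm_apply]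
      exact hKT (mem_ins.2 ⟨hu, hv, huv⟩)
    · -- the colours on `U`
      have hall : ∀ v ∈ K, v ∈ U ∧ c v = c v0 := by
        intro v hv
        have h1 := hmono v hv v0 hv0
        rw [hf3 v0 h hv0W] at h1
        by_cases h2 : ∃ i : Fin k, s(v, (e i : V)) ∈ T
        · rw [hf1 v h2] at h1
          have := (h2.choose).2
          omega
        · by_cases h3 : v ∈ W
          · rw [hf2 v h2 h3] at h1; omega
          · rw [hf3 v h2 h3] at h1
            exact ⟨hunc v h2 h3, by omega⟩
      have hKU : K ⊆ U := fun v hv => (hall v hv).1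
      have hKc : mono c K := fun u hu v hv => (hall u hu).2.trans (hall v hv).2.symm
      by_cases hKI : K.card < I
      · apply hc1 K hKU hK2 hKI _ hKc
        refine ⟨hKT, ?_⟩
        intro w hw hst
        rw [star_subset_iff] at hst
        have hwU : w ∉ U := by
          intro hwU
          rw [hR, Finset.mem_sdiff, Finset.mem_union] at hw
          exact hw.2 (Or.inr hwU)
        obtain ⟨v, hv, hvn⟩ := hKmax w (fun h => hwU (hKU h))
        exact hvn (hst v hv)
      · push Not at hKI
        obtain ⟨K', hK', hKc'⟩ := Finset.exists_subset_card_eq hKI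
        apply hc2 K' (hK'.trans hKU) hKc' ((ins_mono hK').trans hKT)
        intro u hu v hv
        exact hKc u (hK' hu) v (hK' hv)

end Pool.Agent.H1.CC
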