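import Pool.Agent.H1.CC.UpperB

/-!
Upper bound: probability that the colouring fails, for fixed parameters.
-/

set_option autoImplicit false
set_option linter.unusedSectionVars false

namespace Pool.Agent.H1.CC

open Finset

variable {V : Type*} [DecidableEq V] [Fintype V]

lemma CCol_of_degrees {T : Finset (Sym2 V)} (hT : T ⊆ allE V) {W U R : Finset V} {k t I h : ℕ}
    (hI2 : 2 ≤ I) (hW : W.card = k) (hU : U = unc T W) (hR : R = Finset.univ \ (W ∪ U)) (ht : 1 ≤ t)
    {δ x : ℝ} (hδ0 : 0 ≤ δ) (hx : 0 < x) (hδ : I * δ * x ≤ 1)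
    (hNx : (Fintype.card V : ℝ) < x ^ h)
    (hdeg : ∀ v ∈ U, ∀ i, 2 ≤ i → i ≤ I →
      dg U (if i < I then R else ∅) i v T < (t:ℝ) ^ (i - 1) * δ) : CCol T (k + 1 + h * t) := by
  classical
  set ℋ : Finset (Finset V) := U.powerset.filter fun K =>
    (2 ≤ K.card ∧ K.card ≤ I) ∧ good (if K.card < I then R else ∅) K T with hℋ
  have ht' : (0:ℝ) < t := by exact_mod_cast ht
  have hdeg' : ∀ v, ∀ i, 2 ≤ i → i ≤ I →
      ((ℋ.filter fun K => K.card = i ∧ v ∈ K).card : ℝ) ≤ (t:ℝ) ^ (i - 1) * δ := by
    intro v i hi hiI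
    by_cases hv : v ∈ U
    · refine le_trans ?_ (hdeg v hv i hi hiI).le
      unfold dg
      have e1 : (ℋ.filter fun K => K.card = i ∧ v ∈ K) ⊆
          (sets U i v).filter fun K => good (if i < I then R else ∅) K T := by
        intro K hK
        rw [Finset.mem_filter, hℋ, Finset.mem_filter, Finset.mem_powerset] at hK
        rw [Finset.mem_filter, mem_sets]
        obtain ⟨⟨k1, k2, k3⟩, k4, k5⟩ := hK
        rw [k4] at k3
        exact ⟨⟨⟨k1, k4⟩, k5⟩, k3⟩
      calc ((ℋ.filter fun K => K.card = i ∧ v ∈ K).card : ℝ) ≤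
          (((sets U i v).filter fun K => good (if i < I then R else ∅) K T).card : ℝ) := by
            exact_mod_cast Finset.card_le_card e1
        _ = ∑ K ∈ sets U i v, ind (good (if i < I then R else ∅) K T) := by
            rw [Finset.card_filter]
            push_cast
            apply Finset.sum_congr rfl
            intro K _
            by_cases h : good (if i < I then R else ∅) K T
            · rw [ind_of h, if_pos h]
            · rw [ind_not_of h, if_neg h]
    · have : (ℋ.filter fun K => K.card = i ∧ v ∈ K) = ∅ := by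
        rw [Finset.filter_eq_empty_iff]
        intro K hK hK2
        rw [hℋ, Finset.mem_filter, Finset.mem_powerset] at hK
        exact hv (hK.1 hK2.2)
      rw [this]
      simp only [Finset.card_empty, Nat.cast_zero]
      positivity
  obtain ⟨c, hc, hc'⟩ := rounds ht hδ0 hx hδ ℋ (fun K hK => (Finset.mem_filter.1 hK).2.1) hdeg' h U
    (lt_of_le_of_lt (by exact_mod_cast Finset.card_le_univ U) hNx)
  apply CCol_of hT hW hU hR hc (I := I)
  · intro K hKU hK2 hKI hg
    apply hc' K _ hKU
    rw [hℋ, Finset.mem_filter, Finset.mem_powerset, if_pos hKI]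
    exact ⟨hKU, ⟨hK2, hKI.le⟩, hg⟩
  · intro K hKU hKI hins
    apply hc' K _ hKU
    rw [hℋ, Finset.mem_filter, Finset.mem_powerset, if_neg (by omega)]
    refine ⟨hKU, ⟨by omega, hKI.le⟩, hins, ?_⟩
    intro w hw
    exact absurd hw (Finset.notMem_empty w)

lemma Ex_unc {p : ℝ} (h1 : p ≤ 1) (W : Finset V) :
    Ex p (allE V) (fun T => ((unc T W).card : ℝ)) ≤ (Fintype.card V : ℝ) * (1 - p) ^ W.card := by
  classical
  have e1 : ∀ T ⊆ allE V, ((unc T W).card : ℝ) =
      ∑ u ∈ Finset.univ \ W, ind (Disjoint T (star u W)) := by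
    intro T _
    unfold unc
    rw [Finset.card_filter]
    push_cast
    apply Finset.sum_congr rfl
    intro u _
    by_cases h : Disjoint T (star u W)
    · rw [ind_of h, if_pos h]
    · rw [ind_not_of h, if_neg h]
  rw [Ex_congr e1, Ex_sum]
  have e2 : ∀ u ∈ Finset.univ \ W, Ex p (allE V) (fun T => ind (Disjoint T (star u W))) =
      (1 - p) ^ W.card := by
    intro u hu
    rw [Ex_disjoint (star_subset_allE (Finset.mem_sdiff.1 hu).2), card_star]
  rw [Finset.sum_congr rfl e2, Finset.sum_const, nsmul_eq_mul]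
  apply mul_le_mul_of_nonneg_right _ (pow_nonneg (by linarith) _)
  exact_mod_cast Finset.card_le_univ _

/-- the upper bound for fixed parameters -/
theorem prob_not_CCol {p : ℝ} (h0 : 0 < p) (h1 : p ≤ 1) {k t h I : ℕ} {m x δ : ℝ} (W : Finset V)
    (hW : W.card = k) (hI : 2 ≤ I) (ht : 1 ≤ t) (hx : 0 < x) (hh : 0 < h)
    (hNx : (Fintype.card V : ℝ) < x ^ h) (hδ0 : 0 ≤ δ) (hδ : I * δ * x ≤ 1) (hm : 0 < m)
    {Ψ : ℕ → ℝ} (hΨ0 : ∀ i, 0 ≤ Ψ i)
    (hΨ : ∀ i, 2 ≤ i → i < I → ∀ r : ℕ, (Fintype.card V : ℝ) - k - m ≤ r →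
      ∀ a : ℕ, 1 ≤ a → a ≤ i →
      m ^ (i - a) * p ^ (i.choose 2 - a.choose 2) * Real.exp (-(p ^ i * r * (1 - h * p))) ≤ Ψ i)
    (hΨI : ∀ a : ℕ, 1 ≤ a → a ≤ I → m ^ (I - a) * p ^ (I.choose 2 - a.choose 2) ≤ Ψ I)
    (hD : ∀ i, 2 ≤ i → i ≤ I → x * (h + i * 2 ^ (h * i + 1) * Ψ i) ≤ (t:ℝ) ^ (i - 1) * δ) :
    Pr p (allE V) (fun T => ¬ CCol T (k + 1 + h * t)) ≤
      (Fintype.card V : ℝ) * (1 - p) ^ k / m + (Fintype.card V : ℝ) * I * (x ^ h)⁻¹ := by
  classical
  set N := Fintype.card V with hN
  set RR : Finset (Sym2 V) → Finset V := fun T => Finset.univ \ (W ∪ unc T W) with hRR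
  set P2 : Finset (Sym2 V) → Prop := fun T => ((unc T W).card : ℝ) < m ∧
    ∃ x ∈ (unc T W) ×ˢ (Finset.Icc 2 I), (t:ℝ) ^ (x.2 - 1) * δ ≤
      dg (unc T W) (if x.2 < I then RR T else ∅) x.2 x.1 T with hP2
  have step1 : Pr p (allE V) (fun T => ¬ CCol T (k + 1 + h * t)) ≤
      Pr p (allE V) (fun T => m ≤ ((unc T W).card : ℝ) ∨ P2 T) := by
    apply Pr_mono h0.le h1
    intro T hT hn
    by_contra hcon
    push Not at hcon
    obtain ⟨c1, c2⟩ := hcon
    apply hn
    apply CCol_of_degrees hT hI hW rfl rfl ht hδ0 hx hδ hNx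
    intro v hv i hi hiI
    by_contra hlt
    push Not at hlt
    apply c2
    exact ⟨c1, (v, i), Finset.mem_product.2 ⟨hv, Finset.mem_Icc.2 ⟨hi, hiI⟩⟩, hlt⟩
  refine step1.trans ((Pr_or_le h0.le h1 _ _).trans (add_le_add ?_ ?_))
  · refine (markov h0.le h1 (fun T _ => Nat.cast_nonneg _) hm).trans ?_
    apply div_le_div_of_nonneg_right _ hm.le
    rw [← hW]
    exact Ex_unc h1 W
  · -- condition on the edges at `W`
    set WC := Finset.univ \ W with hWC
    have hsub : ins WC ⊆ allE V := ins_subset_allE _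
    have hall : allE V = (allE V \ ins WC) ∪ ins WC := (Finset.sdiff_union_of_subset hsub).symm
    have hdis : Disjoint (allE V \ ins WC) (ins WC) := Finset.sdiff_disjoint
    unfold Pr
    rw [hall, Ex_union hdis]
    have main : ∀ TA ⊆ allE V \ ins WC, Ex p (ins WC) (fun TB => ind (P2 (TA ∪ TB))) ≤
        (N : ℝ) * I * (x ^ h)⁻¹ := by
      intro TA hTA
      set U := unc TA W with hU
      have hUW : ∀ u ∈ U, u ∉ W := fun u hu => (mem_unc.1 hu).1
      have hunc : ∀ TB ⊆ ins WC, unc (TA ∪ TB) W = U := by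
        intro TB hTB
        ext u
        rw [hU, mem_unc, mem_unc]
        apply and_congr_right
        intro _
        apply forall₂_congr
        intro w hw
        rw [Finset.mem_union, not_or]
        constructor
        · exact fun h => h.1
        · intro h
          refine ⟨h, fun h' => ?_⟩
          exact (Finset.mem_sdiff.1 (mem_ins.1 (hTB h')).2.1).2 hw
      set R := Finset.univ \ (W ∪ U) with hR
      have hRW : ∀ w ∈ R, w ∉ W ∧ w ∉ U := by
        intro w hw
        rw [hR, Finset.mem_sdiff, Finset.mem_union, not_or] at hw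
        exact hw.2
      have hUWC : U ⊆ WC := fun u hu => Finset.mem_sdiff.2 ⟨Finset.mem_univ u, hUW u hu⟩
      have hRWC : R ⊆ WC := fun w hw => Finset.mem_sdiff.2 ⟨Finset.mem_univ w, (hRW w hw).1⟩
      have hinsT : ∀ TB ⊆ ins WC, ∀ F ⊆ ins WC, (F ⊆ TA ∪ TB ↔ F ⊆ TB) := by
        intro TB hTB F hF
        constructor
        · intro h e he
          rcases Finset.mem_union.1 (h he) with h2 | h2
          · exact absurd (hF he) (Finset.disjoint_left.1 hdis (hTA h2))
          · exact h2
        · exact fun h => h.trans Finset.subset_union_right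
      have hstar : ∀ w ∈ R, ∀ K ⊆ U, star w K ⊆ ins WC := by
        intro w hw K hK
        rw [star_subset_iff]
        intro u hu
        exact mem_ins.2 ⟨hRWC hw, hUWC (hK hu), fun h => (hRW w hw).2 (h ▸ hK hu)⟩
      have hgood : ∀ TB ⊆ ins WC, ∀ R' ⊆ R, ∀ K ⊆ U, (good R' K (TA ∪ TB) ↔ good R' K TB) := by
        intro TB hTB R' hR' K hK
        unfold good
        rw [hinsT TB hTB _ (ins_mono (hK.trans hUWC))]
        apply and_congr_right
        intro _
        apply forall₂_congr
        intro w hw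
        rw [hinsT TB hTB _ (hstar w (hR' hw) K hK)]
      have hdg : ∀ TB ⊆ ins WC, ∀ R' ⊆ R, ∀ i v, dg U R' i v (TA ∪ TB) = dg U R' i v TB := by
        intro TB hTB R' hR' i v
        unfold dg
        apply Finset.sum_congr rfl
        intro K hK
        exact ind_congr (hgood TB hTB R' hR' K (mem_sets.1 hK).1.1)
      by_cases hUm : (U.card : ℝ) < m
      · have step2 : Ex p (ins WC) (fun TB => ind (P2 (TA ∪ TB))) ≤
            Pr p (ins WC) (fun TB => ∃ x ∈ U ×ˢ (Finset.Icc 2 I), (t:ℝ) ^ (x.2 - 1) * δ ≤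
              dg U (if x.2 < I then R else ∅) x.2 x.1 TB) := by
          apply Pr_mono h0.le h1
          rintro TB hTB ⟨_, y, hy, hyd⟩
          rw [hunc TB hTB] at hy hyd
          refine ⟨y, hy, ?_⟩
          have hRT : RR (TA ∪ TB) = R := by
            rw [hRR]; beta_reduce; rw [hunc TB hTB]
          rw [hRT] at hyd
          rw [hdg TB hTB] at hyd
          · exact hyd
          · split_ifs
            · exact Finset.Subset.refl _
            · exact Finset.empty_subset _
        refine step2.trans ((Pr_exists_le h0.le h1 _ _).trans ?_)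
        have hRr : (N : ℝ) - k - m ≤ (R.card : ℝ) := by
          have h5 : (Finset.univ : Finset V).card ≤ R.card + (W ∪ U).card := by
            rw [hR]
            have := Finset.card_sdiff_add_card_inter Finset.univ (W ∪ U)
            rw [Finset.univ_inter] at this
            omega
          have h6 := Finset.card_union_le W U
          rw [Finset.card_univ, ← hN] at h5
          have h7 : N ≤ R.card + (k + U.card) := by omega
          have h8 : (N:ℝ) ≤ R.card + (k + U.card) := by exact_mod_cast h7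
          linarith
        have hURd : Disjoint U R := by
          rw [Finset.disjoint_right]
          exact fun w hw => (hRW w hw).2
        have step3 : ∀ y ∈ U ×ˢ (Finset.Icc 2 I), Pr p (ins WC) (fun TB => (t:ℝ) ^ (y.2 - 1) * δ ≤
              dg U (if y.2 < I then R else ∅) y.2 y.1 TB) ≤ (x ^ h)⁻¹ := by
          rintro ⟨v, i⟩ hy
          rw [Finset.mem_product, Finset.mem_Icc] at hy
          obtain ⟨_, hi, hiI⟩ := hy
          by_cases hiI' : i < I
          · show Pr p (ins WC) (fun TB => (t:ℝ) ^ (i - 1) * δ ≤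
              dg U (if i < I then R else ∅) i v TB) ≤ (x ^ h)⁻¹
            rw [if_pos hiI']
            exact prob_dg h0 h1 hURd (ins_mono hUWC)
              (fun w hw => hstar w hw U (Finset.Subset.refl _)) rfl hUm.le
              (hΨ i hi hiI' R.card hRr) (hΨ0 i) hh hx (hD i hi hiI)
          · have hiI2 : i = I := by omega
            show Pr p (ins WC) (fun TB => (t:ℝ) ^ (i - 1) * δ ≤
              dg U (if i < I then R else ∅) i v TB) ≤ (x ^ h)⁻¹
            rw [if_neg hiI']
            subst hiI2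
            exact prob_dg h0 h1 (Finset.disjoint_empty_right U) (ins_mono hUWC)
              (fun w hw => absurd hw (Finset.notMem_empty w)) rfl hUm.le
              (fun a ha hai => by
                rw [Finset.card_empty, Nat.cast_zero, mul_zero, zero_mul, neg_zero, Real.exp_zero,
                  mul_one]
                exact hΨI a ha hai) (hΨ0 i) hh hx (hD i hi hiI)
        refine (Finset.sum_le_sum step3).trans ?_
        rw [Finset.sum_const, nsmul_eq_mul]
        apply mul_le_mul_of_nonneg_right _ (by positivity)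
        rw [Finset.card_product, Nat.card_Icc]
        have h5 : U.card * (I + 1 - 2) ≤ N * I :=
          Nat.mul_le_mul (Finset.card_le_univ U) (by omega)
        exact_mod_cast h5
      · have : ∀ TB ⊆ ins WC, ind (P2 (TA ∪ TB)) = 0 := by
          intro TB hTB
          apply ind_not_of
          rintro ⟨h5, _⟩
          rw [hunc TB hTB] at h5
          exact hUm h5
        rw [Ex_congr this, Ex_const]
        positivity
    refine (Ex_mono h0.le h1 main).trans ?_
    rw [Ex_const]

end Pool.Agent.H1.CC
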