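import Pool.Agent.H1.CC.UpperC

/-!
Numerical part of the upper bound.
-/

set_option autoImplicit false
set_option linter.unusedSectionVars false

namespace Pool.Agent.H1.CC

open Finset Filter

lemma core_expo {i a : ℕ} (ha : 1 ≤ a) (hai : a ≤ i) {μ L e ρ : ℝ} (hL : 0 ≤ L)
    (he : 0 ≤ e) (hρ : 0 ≤ ρ) (h : ((i:ℝ) - 1) * (μ - i * L / 2) - e ≤ ρ) :
    Real.exp μ ^ (i - a) * Real.exp (-L) ^ (i.choose 2 - a.choose 2) * Real.exp (-e) ≤
      Real.exp ρ := by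
  rw [← Real.exp_nat_mul, ← Real.exp_nat_mul, ← Real.exp_add, ← Real.exp_add]
  apply Real.exp_le_exp.2
  have h1 : ((i - a : ℕ) : ℝ) = (i:ℝ) - a := Nat.cast_sub hai
  have h2 : ((i.choose 2 - a.choose 2 : ℕ) : ℝ) = ((i:ℝ) - a) * ((i:ℝ) + a - 1) / 2 := by
    rw [Nat.cast_sub (Nat.choose_le_choose 2 hai), Nat.cast_choose_two, Nat.cast_choose_two]
    ring
  rw [h1, h2]
  have ha' : (1:ℝ) ≤ a := by exact_mod_cast ha
  have hai' : (a:ℝ) ≤ i := by exact_mod_cast hai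
  have hG0 : 0 ≤ (i:ℝ) - a := by linarith
  have h3 : ((i:ℝ) - a) * ((i:ℝ) + a - 1) / 2 * -L ≤ -(((i:ℝ) - a) * (i * L / 2)) := by
    have : 0 ≤ ((i:ℝ) - a) * ((a:ℝ) - 1) * L :=
      mul_nonneg (mul_nonneg hG0 (by linarith)) hL
    nlinarith
  have h4 : ((i:ℝ) - a) * μ + ((i:ℝ) - a) * ((i:ℝ) + a - 1) / 2 * -L ≤
      ((i:ℝ) - a) * (μ - i * L / 2) := by nlinarith
  by_cases h5 : μ - i * L / 2 ≤ 0
  · have : ((i:ℝ) - a) * (μ - i * L / 2) ≤ 0 := mul_nonpos_of_nonneg_of_nonpos hG0 h5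
    linarith
  · push Not at h5
    have : ((i:ℝ) - a) * (μ - i * L / 2) ≤ ((i:ℝ) - 1) * (μ - i * L / 2) :=
      mul_le_mul_of_nonneg_right (by linarith) h5.le
    linarith

lemma CCol_mono {V : Type*} [DecidableEq V] {T : Finset (Sym2 V)} {k k' : ℕ} (h : k ≤ k')
    (hC : CCol T k) : CCol T k' := by
  obtain ⟨c, hc⟩ := hC
  refine ⟨fun v => Fin.castLE h (c v), ?_⟩
  intro K h2 hK hmax
  obtain ⟨u, hu, v, hv, huv⟩ := hc K h2 hK hmax
  exact ⟨u, hu, v, hv, fun h' => huv (Fin.castLE_injective h h')⟩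

/-- conditions on a large real -/
structure Big (ε η c σ : ℝ) (h I : ℕ) (l : ℝ) : Prop where
  b1 : 1 ≤ l
  b2 : 2 * (I * 2 ^ (h * I + 1)) ≤ Real.exp (c * l)
  b3 : 2 * (h:ℝ) ≤ Real.exp (ε / 2 * l)
  b4 : (h:ℝ) * Real.exp (-(ε * l)) ≤ σ / 2
  b5 : 2 * l * Real.exp (-(2 / 3 * l)) + Real.exp (-l) + Real.exp (-(3 / 4 * η * l)) ≤ σ / 2
  b6 : 4 / η ≤ l
  b7 : (2 + (h:ℝ)) * Real.exp (-(ε * l)) + h * Real.exp (-(η / 4 * l)) ≤ η * l
  b8 : (I:ℝ) ≤ Real.exp l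

lemma tendsto_exp_neg_mul {a : ℝ} (ha : 0 < a) :
    Tendsto (fun l : ℝ => Real.exp (-(a * l))) atTop (nhds 0) := by
  apply Real.tendsto_exp_neg_atTop_nhds_zero.comp
  exact tendsto_id.const_mul_atTop ha

lemma eventually_big {ε η c σ : ℝ} (hε : 0 < ε) (hη : 0 < η) (hc : 0 < c) (hσ : 0 < σ)
    (h I : ℕ) : ∀ᶠ l : ℝ in atTop, Big ε η c σ h I l := by
  have e1 : ∀ᶠ l : ℝ in atTop, 1 ≤ l := eventually_ge_atTop 1
  have e2 : ∀ᶠ l : ℝ in atTop, (2 * (I * 2 ^ (h * I + 1)) : ℝ) ≤ Real.exp (c * l) :=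
    (Real.tendsto_exp_atTop.comp (tendsto_id.const_mul_atTop hc)).eventually_ge_atTop _
  have e3 : ∀ᶠ l : ℝ in atTop, 2 * (h:ℝ) ≤ Real.exp (ε / 2 * l) :=
    (Real.tendsto_exp_atTop.comp (tendsto_id.const_mul_atTop (by positivity))).eventually_ge_atTop _
  have t4 : Tendsto (fun l : ℝ => (h:ℝ) * Real.exp (-(ε * l))) atTop (nhds 0) := by
    have := (tendsto_exp_neg_mul hε).const_mul (h:ℝ)
    rwa [mul_zero] at this
  have e4 : ∀ᶠ l : ℝ in atTop, (h:ℝ) * Real.exp (-(ε * l)) ≤ σ / 2 :=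
    t4.eventually_le_const (by positivity)
  have t5 : Tendsto (fun l : ℝ => 2 * l * Real.exp (-(2 / 3 * l)) + Real.exp (-l) +
      Real.exp (-(3 / 4 * η * l))) atTop (nhds 0) := by
    have a1 : Tendsto (fun l : ℝ => 2 * l * Real.exp (-(2 / 3 * l))) atTop (nhds 0) := by
      have h1 := (Real.tendsto_pow_mul_exp_neg_atTop_nhds_zero 1).comp
        (tendsto_id.const_mul_atTop (by norm_num : (0:ℝ) < 2 / 3))
      have h2 := h1.const_mul (3:ℝ)
      rw [mul_zero] at h2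
      refine h2.congr ?_
      intro l
      simp only [Function.comp, id, pow_one]
      ring
    have a2 : Tendsto (fun l : ℝ => Real.exp (-l)) atTop (nhds 0) :=
      Real.tendsto_exp_neg_atTop_nhds_zero
    have a3 := tendsto_exp_neg_mul (a := 3 / 4 * η) (by positivity)
    have := (a1.add a2).add a3
    simpa using this
  have e5 := t5.eventually_le_const (show (0:ℝ) < σ / 2 by positivity)
  have e6 : ∀ᶠ l : ℝ in atTop, 4 / η ≤ l := eventually_ge_atTop _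
  have t7 : Tendsto (fun l : ℝ => (2 + (h:ℝ)) * Real.exp (-(ε * l)) +
      h * Real.exp (-(η / 4 * l))) atTop (nhds 0) := by
    have a1 := (tendsto_exp_neg_mul hε).const_mul (2 + (h:ℝ))
    have a2 := (tendsto_exp_neg_mul (show 0 < η / 4 by positivity)).const_mul (h:ℝ)
    have := a1.add a2
    simpa using this
  have e7 := t7.eventually_le_const (show (0:ℝ) < η by positivity)
  have e8 : ∀ᶠ l : ℝ in atTop, (I:ℝ) ≤ Real.exp l :=
    Real.tendsto_exp_atTop.eventually_ge_atTop _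
  filter_upwards [e1, e2, e3, e4, e5, e6, e7, e8] with l h1 h2 h3 h4 h5 h6 h7 h8
  refine ⟨h1, h2, h3, h4, h5, h6, ?_, h8⟩
  refine h7.trans ?_
  nlinarith

/-- the exponent condition -/
lemma expo_cond {l L Fv η c σ e κ : ℝ} {i I : ℕ} (hi : 2 ≤ i) (hiI : i ≤ I) (hl : 1 ≤ l)
    (hL : 0 ≤ L) (hF : 0 ≤ Fv) (hη : 0 < η) (hη1 : η ≤ 1) (hc : c = η / 16)
    (hσ : σ = η / (8 * I)) (hκ : 0 ≤ κ) (he : κ * (1 - σ) ≤ e)
    (hterm : l - (1 + (i:ℝ) / 2) * L - κ / ((i:ℝ) - 1) ≤ Fv) :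
    ((i:ℝ) - 1) * ((l - Fv - 3 / 4 * η * l) - i * L / 2) - e ≤
      ((i:ℝ) - 1) * (L - η / 4 * l) - 4 * c * l := by
  have hi' : (2:ℝ) ≤ i := by exact_mod_cast hi
  have hiI' : (i:ℝ) ≤ I := by exact_mod_cast hiI
  have hi1 : 0 < (i:ℝ) - 1 := by linarith
  have hI0 : 0 < (I:ℝ) := by linarith
  have h1 : ((i:ℝ) - 1) * (l - (1 + (i:ℝ) / 2) * L - Fv) ≤ κ := by
    have h2 : l - (1 + (i:ℝ) / 2) * L - Fv ≤ κ / ((i:ℝ) - 1) := by linarith
    rw [le_div_iff₀ hi1] at h2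
    linarith
  have hηl : 0 < η * l := by positivity
  have hσI : σ * I = η / 8 := by rw [hσ]; field_simp
  have hσ0 : 0 ≤ σ := by rw [hσ]; positivity
  by_cases hcase : κ ≤ 2 * I * l
  · have h3 : κ - e ≤ η / 4 * l := by
      have h4 : κ * σ ≤ 2 * I * l * σ := mul_le_mul_of_nonneg_right hcase hσ0
      have h5 : 2 * I * l * σ = η / 4 * l := by
        calc 2 * I * l * σ = 2 * l * (σ * I) := by ring
          _ = _ := by rw [hσI]; ring
      linarith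
    have h6 : η * l ≤ ((i:ℝ) - 1) * (η * l) := by nlinarith
    rw [hc]
    nlinarith
  · push Not at hcase
    have hσ2 : σ ≤ 1 / 2 := by
      have : σ * 2 ≤ σ * I := mul_le_mul_of_nonneg_left (by linarith) hσ0
      linarith
    have h3 : I * l ≤ e := by nlinarith
    have h4 : ((i:ℝ) - 1) * (l - (1 + (i:ℝ) / 2) * L - Fv) ≤ ((i:ℝ) - 1) * l := by
      apply mul_le_mul_of_nonneg_left _ hi1.le
      have : 0 ≤ (1 + (i:ℝ) / 2) * L := by positivity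
      linarith
    have h5 : ((i:ℝ) - 1) * l ≤ (I - 1) * l := mul_le_mul_of_nonneg_right (by linarith) (by linarith)
    have h6 : η * l ≤ ((i:ℝ) - 1) * (η * l) := by nlinarith
    have h7 : η * l ≤ l := by nlinarith
    rw [hc]
    nlinarith

end Pool.Agent.H1.CC
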